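import Pool.Agent.Lib.MP_1f45fc_nt.V.Defs
import Pool.Agent.Lib.MP_1f45fc_nt.S.CoreU
import Pool.Agent.Lib.MP_1f45fc_nt.SalemC.Form

/-!
# Theorem V: Parseval for `P / P*`, `P` the minimal polynomial of a Pisot number
-/

set_option autoImplicit false

open Polynomial

namespace Pool.Agent.MP1f45fc.V

open Pool.Agent.MP1f45fc.SalemC Pool.Agent.MP1f45fc.S

/-- The contraction property of the Taylor coefficients of `P / P*`. -/
theorem contraction (P : ℤ[X]) (hP : P.Monic) (b : ℝ) (hb : 1 < b) (D : ℝ[X])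
    (hPD : P.map (Int.castRingHom ℝ) = (X - C b) * D)
    (hroots : ∀ z : ℂ, aeval z D = 0 → ‖z‖ < 1) (hP0 : P.coeff 0 ≠ 0)
    (p : ℝ[X]) (hp : p.eval b = 0) :
    SalemC.sq (T (useq (C 1 * P.reverse) P) p) ≤ SalemC.sq p := by
  set Q : ℤ[X] := C 1 * P.reverse with hQdef
  have hQd : Q.natDegree = P.natDegree := natDegree_eps_reverse P hP0 1 (Or.inl rfl)
  set Pr := P.map (Int.castRingHom ℝ) with hPr
  set Qr := Q.map (Int.castRingHom ℝ) with hQr
  have hPrM : Pr.Monic := hP.map _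
  have hD0 : D ≠ 0 := by
    intro h
    rw [h, mul_zero] at hPD
    exact hPrM.ne_zero hPD
  have hXθ : (X - C b : ℝ[X]) ≠ 0 := Polynomial.X_sub_C_ne_zero b
  have hPrθ : Pr.eval b = 0 := by rw [hPD]; simp
  set A := T (useq Q P) p with hA
  obtain ⟨R0, hR0, hR0'⟩ := T_eq_div Q P hP hQd.le p
  rw [← hA, ← hPr, ← hQr] at hR0'
  rw [← hPr] at hR0
  have hR0θ : R0.eval b = 0 := by
    have h := congrArg (Polynomial.eval b) hR0'
    rw [eval_mul, eval_add, eval_mul, hp, hPrθ, zero_mul, mul_zero, zero_add] at h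
    exact h.symm
  obtain ⟨R, hR⟩ : (X - C b) ∣ R0 := Polynomial.dvd_iff_isRoot.2 hR0θ
  have hRd : R.degree < D.degree := by
    rw [hR, hPD, Polynomial.degree_mul, Polynomial.degree_mul] at hR0
    exact lt_of_add_lt_add_left hR0
  have key := parseval_ineq D R p A 0 0 0 (by simp) hroots hRd ?_
  · simpa [SalemC.sq] using key
  · intro ζ hζ
    have hDζ : aeval ζ D ≠ 0 := by
      intro h
      have := hroots ζ h
      linarith
    have hζθ : ζ - (b : ℂ) ≠ 0 := by
      intro h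
      have h2 : ζ = (b : ℂ) := sub_eq_zero.1 h
      rw [h2, Complex.norm_real, Real.norm_eq_abs, abs_of_pos (by linarith)] at hζ
      linarith
    have hPζ : aeval ζ Pr = (ζ - (b : ℂ)) * aeval ζ D := by
      rw [hPD]; simp
    have hPζ0 : aeval ζ Pr ≠ 0 := by rw [hPζ]; exact mul_ne_zero hζθ hDζ
    have hQP : ‖aeval ζ Qr‖ = ‖aeval ζ Pr‖ := by
      rw [hQr, hPr, aeval_map_real, aeval_map_real, hQdef, map_mul, norm_mul, aeval_C,
        norm_aeval_reverse P ζ hζ]
      simp
    have hid : aeval ζ p * aeval ζ Qr = aeval ζ A * aeval ζ Pr + (ζ - (b : ℂ)) * aeval ζ R := by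
      have h1 := congrArg (aeval ζ) hR0'
      rw [hR] at h1
      simpa using h1
    have h4 : (aeval ζ Qr / aeval ζ Pr) * aeval ζ p = aeval ζ A + aeval ζ R / aeval ζ D := by
      rw [div_mul_eq_mul_div, mul_comm (aeval ζ Qr), hid, hPζ]
      field_simp
    have h5 : ‖aeval ζ Qr / aeval ζ Pr‖ = 1 := by
      rw [norm_div, hQP, div_self (norm_ne_zero_iff.2 hPζ0)]
    simp only [Complex.ofReal_zero, zero_div, add_zero]
    rw [← h4, norm_mul, h5, one_mul]

theorem T_pow_sub (u : ℕ → ℤ) (b : ℝ) (N : ℕ) :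
    SalemC.sq (T u (X ^ (N + 1) - C b * X ^ N)) =
      (u 0 : ℝ) ^ 2 + ∑ j ∈ Finset.range (N + 1), ((u (j + 1) : ℝ) - b * u j) ^ 2 := by
  have e1 : (X ^ (N + 1) - C b * X ^ N : ℝ[X]) = monomial (N + 1) 1 + monomial N (-b) := by
    rw [← C_mul_X_pow_eq_monomial, ← C_mul_X_pow_eq_monomial]
    simp [sub_eq_add_neg]
  have hT : T u (X ^ (N + 1) - C b * X ^ N) =
      monomial (N + 1) (u 0 : ℝ) +
      ∑ j ∈ Finset.range (N + 1), monomial j ((u (N - j + 1) : ℝ) - b * u (N - j)) := by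
    rw [e1, T_add, T_monomial, T_monomial, Finset.sum_range_succ, Nat.sub_self,
      add_comm (∑ x ∈ Finset.range (N + 1), _) (monomial (N + 1) _), add_assoc,
      ← Finset.sum_add_distrib, mul_one]
    congr 1
    refine Finset.sum_congr rfl fun j hj => ?_
    rw [← map_add]
    have : N + 1 - j = N - j + 1 := by
      have := Finset.mem_range.1 hj
      omega
    rw [this]
    congr 1
    ring
  have hc : ∀ i, (T u (X ^ (N + 1) - C b * X ^ N)).coeff i =
      if i = N + 1 then (u 0 : ℝ) else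
        if i < N + 1 then (u (N - i + 1) : ℝ) - b * u (N - i) else 0 := by
    intro i
    rw [hT, coeff_add, coeff_monomial, finsetSum_coeff]
    simp only [coeff_monomial]
    rw [Finset.sum_ite_eq']
    by_cases h1 : i = N + 1
    · subst h1
      simp
    · rw [if_neg (Ne.symm h1), if_neg h1, zero_add]
      simp only [Finset.mem_range]
  have hdeg : (T u (X ^ (N + 1) - C b * X ^ N)).natDegree < N + 2 := by
    rw [Nat.lt_succ_iff, natDegree_le_iff_coeff_eq_zero]
    intro i hi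
    rw [hc, if_neg (by omega), if_neg (by omega)]
  rw [← ip_self, ip_eq_sum _ _ _ hdeg, Finset.sum_range_succ, hc, if_pos rfl, add_comm,
    ← Finset.sum_range_reflect (fun j => ((u (j + 1) : ℝ) - b * u j) ^ 2)]
  congr 1
  · ring
  · refine Finset.sum_congr rfl fun j hj => ?_
    have hj' := Finset.mem_range.1 hj
    rw [hc, if_neg (by omega), if_pos hj', ← pow_two]
    have : N + 1 - 1 - j = N - j := by omega
    rw [this]

theorem sq_pow_sub (b : ℝ) (N : ℕ) :
    SalemC.sq (X ^ (N + 1) - C b * X ^ N) = 1 + b ^ 2 := by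
  have h1 : (X ^ (N + 1) - C b * X ^ N : ℝ[X]) = X ^ N * (X - C b) := by ring
  rw [h1, ← ip_self, ip_X_pow_mul, sub_eq_add_neg, ← C_neg, ip_add_left, ip_add_right,
    ip_add_right, ip_C_left, ip_C_left, ip_C_right]
  have h2 : ip (X : ℝ[X]) X = 1 := by
    rw [← monomial_one_one_eq_X, ip_monomial_left]
    simp
  rw [h2]
  simp
  ring

/-- Parseval for `P / P*`. -/
theorem all_pass {b : ℝ} (h : IsPisot b) : ∃ (P : ℤ[X]) (u : ℕ → ℤ), P.Monic ∧ Irreducible P ∧
    aeval b P = 0 ∧ P.coeff 0 ≠ 0 ∧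
    ((P.reverse : PowerSeries ℤ) * PowerSeries.mk u = (P : PowerSeries ℤ)) ∧
    ∀ N : ℕ, (u 0 : ℝ) ^ 2 + ∑ j ∈ Finset.range N, ((u (j + 1) : ℝ) - b * u j) ^ 2 ≤
      1 + b ^ 2 := by
  obtain ⟨hint, hb, hr⟩ := h
  set P := minpoly ℤ b with hPdef
  have hP : P.Monic := minpoly.monic hint
  have hPb : aeval b P = 0 := minpoly.aeval ℤ b
  have hPq : P.map (algebraMap ℤ ℚ) = minpoly ℚ b :=
    (minpoly.isIntegrallyClosed_eq_field_fractions' ℚ hint).symm
  have hP0 : P.coeff 0 ≠ 0 := by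
    intro h0
    have h1 : (minpoly ℚ b).coeff 0 ≠ 0 :=
      minpoly.coeff_zero_ne_zero hint.tower_top (show (0 : ℝ) < b by linarith).ne'
    apply h1
    rw [← hPq, coeff_map, h0, map_zero]
  have hirr : Irreducible P := minpoly.irreducible hint
  have hev : (P.map (Int.castRingHom ℝ)).eval b = 0 := by rw [eval_map_real]; exact hPb
  obtain ⟨D, hPD⟩ : (X - C b) ∣ P.map (Int.castRingHom ℝ) := Polynomial.dvd_iff_isRoot.2 hev
  have hDb : D.eval b ≠ 0 := by
    intro h0
    have hsep : (minpoly ℚ b).Separable :=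
      (minpoly.irreducible (hint.tower_top)).separable
    have h1 : aeval b (derivative (minpoly ℚ b)) ≠ 0 :=
      hsep.aeval_derivative_ne_zero (minpoly.aeval ℚ b)
    apply h1
    rw [← hPq, derivative_map, aeval_map_algebraMap, ← eval_map_real, ← derivative_map, hPD]
    simp [h0]
  have hroots : ∀ z : ℂ, aeval z D = 0 → ‖z‖ < 1 := by
    intro z hz
    apply hr z
    · rw [← aeval_map_real, hPD, map_mul, hz, mul_zero]
    · intro hzb
      apply hDb
      rw [hzb, show (b : ℂ) = algebraMap ℝ ℂ b from rfl, aeval_algebraMap_apply_eq_algebraMap_eval]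
        at hz
      exact (algebraMap ℝ ℂ).injective (hz.trans (map_zero _).symm)
  refine ⟨P, useq (C 1 * P.reverse) P, hP, hirr, hPb, hP0, ?_, ?_⟩
  · have := useq_series P hP hP0 1 (Or.inl rfl)
    simpa using this
  · intro N
    have h1 := contraction P hP b hb D hPD hroots hP0 (X ^ (N + 1) - C b * X ^ N) (by
      simp; ring)
    rw [T_pow_sub, sq_pow_sub, Finset.sum_range_succ] at h1
    have h2 : 0 ≤ (((useq (C 1 * P.reverse) P (N + 1) : ℤ) : ℝ) -
      b * (useq (C 1 * P.reverse) P N : ℤ)) ^ 2 := sq_nonneg _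
    linarith

end Pool.Agent.MP1f45fc.V
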