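import Mathlib

set_option autoImplicit false

/-!
# Integer sequences with small cost, up to `331/250 = 1.324`

`walk13`: if `1 < b ≤ 331/250` and an integer sequence `u`, `u 0 ≠ 0`, satisfies
`u 0 ^ 2 + ∑_{j < N} (u (j + 1) - b u j) ^ 2 ≤ 1 + b ^ 2` for all `N`, then `u = (±1, 0, 0, ...)`.

The proof is a finite tree of nondecreasing integer paths `1, 2, ...`. A node carries the cost of
the path as a quadratic polynomial in `b` (so that no subdivision of the interval is necessary), and
a node is dead when this polynomial is positive on `(1, 331/250]`. Staying at the same value is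
ignored (it costs something, and nobody can stay forever).
-/

namespace Pool.Agent.MP1f45fc.V

namespace W13

/-- evaluate `x` before calling `k` -/
noncomputable def force (x : ℕ) (k : ℕ → Bool) : Bool :=
  Nat.rec (motive := fun _ => Bool) (k 0) (fun m _ => k (Nat.succ m)) x

theorem force_eq (x : ℕ) (k : ℕ → Bool) : force x k = k x := by cases x <;> rfl

/-- a certificate that `A b² - 2 B b + C` is positive on `(1, 331/250]` -/
def dead (A B C : ℕ) : Bool :=
  (Nat.ble (B * B + 1) (A * C)) ||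
    (Nat.ble (331 * A) (250 * B) && Nat.ble (165500 * B + 1) (109561 * A + 62500 * C))

/-- the tree -/
noncomputable def chk (n : ℕ) : ℕ → ℕ → ℕ → ℕ → ℕ → Bool :=
  Nat.rec (motive := fun _ => ℕ → ℕ → ℕ → ℕ → ℕ → Bool) (fun _ _ _ _ _ => false)
    (fun _ ih a c A B C =>
      Nat.rec (motive := fun _ => Bool) true
        (fun c' _ =>
          (force (a + c' + 1) fun b => force (A + a * a) fun A' => force (B + a * b) fun B' =>
            force (C + b * b) fun C' =>
              dead A' B' C' || ih b (331 * (b + 1) / 250 - b) A' B' C') &&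
            ih a c' A B C) c) n

theorem chk_succ_zero (n a A B C : ℕ) : chk (n + 1) a 0 A B C = true := rfl

theorem chk_succ_succ (n a c A B C : ℕ) : chk (n + 1) a (c + 1) A B C =
    ((dead (A + a * a) (B + a * (a + c + 1)) (C + (a + c + 1) * (a + c + 1)) ||
      chk n (a + c + 1) (331 * (a + c + 1 + 1) / 250 - (a + c + 1)) (A + a * a)
        (B + a * (a + c + 1)) (C + (a + c + 1) * (a + c + 1))) && chk n a c A B C) := by
  show ((force (a + c + 1) fun b => force (A + a * a) fun A' => force (B + a * b) fun B' =>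
            force (C + b * b) fun C' =>
              dead A' B' C' || chk n b (331 * (b + 1) / 250 - b) A' B' C') &&
            chk n a c A B C) = _
  simp only [force_eq]

theorem dead_pos {A B C : ℕ} (h : dead A B C = true) {b : ℝ} (hb : 1 < b) (hb2 : b ≤ 331 / 250) :
    0 < (A : ℝ) * b ^ 2 - 2 * B * b + C := by
  unfold dead at h
  simp only [Bool.or_eq_true, Bool.and_eq_true, Nat.ble_eq] at h
  rcases h with h | ⟨h1, h2⟩
  · have h' : (B : ℝ) * B + 1 ≤ A * C := by exact_mod_cast h
    have hA : (0 : ℝ) < A := by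
      rcases Nat.eq_zero_or_pos A with h0 | h0
      · subst h0
        simp only [Nat.cast_zero, zero_mul] at h'
        nlinarith [mul_self_nonneg (B : ℝ)]
      · exact_mod_cast h0
    have h3 : 0 < (A : ℝ) * ((A : ℝ) * b ^ 2 - 2 * B * b + C) := by
      nlinarith [sq_nonneg ((A : ℝ) * b - B)]
    exact (mul_pos_iff_of_pos_left hA).1 h3
  · have h1' : (331 : ℝ) * A ≤ 250 * B := by exact_mod_cast h1
    have h2' : (165500 : ℝ) * B + 1 ≤ 109561 * A + 62500 * C := by exact_mod_cast h2
    have hA : (0 : ℝ) ≤ A := by positivity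
    -- q(b) - q(H) = (H - b) (2 B - A (b + H))
    have h3 : 0 ≤ (331 / 250 - b) * (2 * B - A * (b + 331 / 250)) := by
      apply mul_nonneg
      · linarith
      · nlinarith
    nlinarith

/-- the cost of the first `N` steps -/
noncomputable def cost (b : ℝ) (u : ℕ → ℕ) (N : ℕ) : ℝ :=
  ∑ j ∈ Finset.range N, ((u (j + 1) : ℝ) - b * u j) ^ 2

theorem cost_succ (b : ℝ) (u : ℕ → ℕ) (N : ℕ) :
    cost b u (N + 1) = cost b u N + ((u (N + 1) : ℝ) - b * u N) ^ 2 :=
  Finset.sum_range_succ _ _

theorem cost_mono (b : ℝ) (u : ℕ → ℕ) : Monotone (cost b u) :=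
  monotone_nat_of_le_succ fun N => by
    rw [cost_succ]; linarith [sq_nonneg ((u (N + 1) : ℝ) - b * u N)]

theorem step_le {b : ℝ} (hb : 1 < b) (hb2 : b ≤ 331 / 250) {u : ℕ → ℕ}
    (hc : ∀ N, cost b u N ≤ b ^ 2) (j : ℕ) : 250 * u (j + 1) ≤ 331 * (u j + 1) := by
  have h1 : ((u (j + 1) : ℝ) - b * u j) ^ 2 ≤ b ^ 2 := by
    have h2 := hc (j + 1)
    rw [cost_succ] at h2
    have h3 : (0 : ℝ) ≤ cost b u j := Finset.sum_nonneg fun _ _ => sq_nonneg _
    linarith
  have h2 : (u (j + 1) : ℝ) - b * u j ≤ b := (abs_le_of_sq_le_sq' h1 (by linarith)).2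
  have h3 : (250 : ℝ) * u (j + 1) ≤ 331 * (u j + 1) := by
    have h4 : (0 : ℝ) ≤ u j := Nat.cast_nonneg _
    nlinarith
  exact_mod_cast h3

theorem chk_sound {b : ℝ} (hb : 1 < b) (hb2 : b ≤ 331 / 250) {u : ℕ → ℕ}
    (hc : ∀ N, cost b u N ≤ b ^ 2)
    (hj : ∀ k, ∃ j, k ≤ j ∧ u j = u k ∧ u k < u (j + 1)) :
    ∀ n a c A B C j : ℕ, chk n a c A B C = true → u j = a → a < u (j + 1) → u (j + 1) ≤ a + c →
      (A : ℝ) * b ^ 2 - 2 * B * b + C ≤ cost b u j - b ^ 2 → False := by
  intro n
  induction n with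
  | zero =>
    intro a c A B C j h
    exact absurd h (by simp [chk])
  | succ n ih =>
    intro a c A B C j h hu h1 h2 hq
    cases c with
    | zero => omega
    | succ c =>
      rw [chk_succ_succ, Bool.and_eq_true] at h
      obtain ⟨h3, h4⟩ := h
      rcases Nat.lt_or_ge (u (j + 1)) (a + c + 1) with h5 | h5
      · exact ih a c A B C j h4 hu h1 (by omega) hq
      have h6 : u (j + 1) = a + c + 1 := by omega
      have hq' : ((A + a * a : ℕ) : ℝ) * b ^ 2 - 2 * ((B + a * (a + c + 1) : ℕ) : ℝ) * b +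
          ((C + (a + c + 1) * (a + c + 1) : ℕ) : ℝ) ≤ cost b u (j + 1) - b ^ 2 := by
        rw [cost_succ, hu, h6]
        push_cast
        nlinarith
      rcases Bool.or_eq_true _ _ ▸ h3 with h7 | h7
      · have := dead_pos h7 hb hb2
        have := hc (j + 1)
        linarith
      · obtain ⟨i, hi, hi1, hi2⟩ := hj (j + 1)
        have h8 := step_le hb hb2 hc i
        rw [hi1, h6] at h8
        refine ih _ _ _ _ _ i h7 (by rw [hi1, h6]) (by rw [← h6]; exact hi2) ?_
          (hq'.trans (by linarith [cost_mono b u hi]))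
        have h9 : u (i + 1) ≤ 331 * (a + c + 1 + 1) / 250 := by
          rw [Nat.le_div_iff_mul_le (by norm_num)]
          linarith
        omega

set_option maxRecDepth 100000 in
theorem chk_true : chk 6000 2 1 0 2 4 = true := by decide +kernel

theorem no_walk {b : ℝ} (hb : 1 < b) (hb2 : b ≤ 331 / 250) (u : ℕ → ℕ)
    (hc : ∀ N, cost b u N ≤ b ^ 2) (h0 : u 0 = 1)
    (hj : ∀ k, ∃ j, k ≤ j ∧ u j = u k ∧ u k < u (j + 1)) : False := by
  obtain ⟨j, -, h1, h2⟩ := hj 0
  rw [h0] at h1 h2
  have h3 := step_le hb hb2 hc j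
  rw [h1] at h3
  have h4 : u (j + 1) = 2 := by omega
  obtain ⟨i, hi, hi1, hi2⟩ := hj (j + 1)
  rw [h4] at hi1 hi2
  have h5 := step_le hb hb2 hc i
  rw [hi1] at h5
  refine chk_sound hb hb2 hc hj 6000 2 1 0 2 4 i chk_true hi1 hi2 (by omega) ?_
  have h6 : cost b u (j + 1) ≤ cost b u i := cost_mono b u hi
  rw [cost_succ, h1, h4] at h6
  have h7 : (0 : ℝ) ≤ cost b u j := Finset.sum_nonneg fun _ _ => sq_nonneg _
  push_cast at h6 ⊢
  nlinarith

end W13

/-- a nonnegative version with `u 0 = 1` -/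
theorem walk13_one {b : ℝ} (hb : 1 < b) (hb2 : b ≤ 331 / 250) (u : ℕ → ℤ) (hu : u 0 = 1)
    (h : ∀ N : ℕ, ∑ j ∈ Finset.range N, ((u (j + 1) : ℝ) - b * u j) ^ 2 ≤ b ^ 2) :
    ∀ k, u (k + 1) = 0 := by
  have hterm : ∀ j N : ℕ, j < N → ((u (j + 1) : ℝ) - b * u j) ^ 2 ≤
      ∑ j ∈ Finset.range N, ((u (j + 1) : ℝ) - b * u j) ^ 2 := fun j N hjN =>
    Finset.single_le_sum (f := fun j => ((u (j + 1) : ℝ) - b * u j) ^ 2)
      (fun _ _ => sq_nonneg _) (Finset.mem_range.2 hjN)
  have htwo : ∀ j : ℕ, 1 ≤ j → ((u 1 : ℝ) - b) ^ 2 + ((u (j + 1) : ℝ) - b * u j) ^ 2 ≤ b ^ 2 := by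
    intro j hj
    have h1 := h (j + 1)
    rw [Finset.sum_range_succ] at h1
    have h2 := hterm 0 j (by omega)
    rw [hu] at h2
    simp only [zero_add, Int.cast_one, mul_one] at h2
    linarith
  have h1 : ((u 1 : ℝ) - b) ^ 2 ≤ b ^ 2 := by
    have := h 1
    rw [Finset.sum_range_one, hu] at this
    simpa using this
  rcases lt_or_ge (u 1) 1 with h0 | h0
  · -- `u 1 ≤ 0`
    have h0' : (u 1 : ℝ) ≤ 0 := by exact_mod_cast (by omega : u 1 ≤ 0)
    have h2 : (u 1 : ℝ) = 0 := by nlinarith
    intro k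
    induction k with
    | zero => exact_mod_cast h2
    | succ k ih =>
      have h3 := htwo (k + 1) (by omega)
      rw [h2, ih] at h3
      have h4 : ((u (k + 1 + 1) : ℝ)) ^ 2 ≤ 0 := by
        push_cast at h3
        nlinarith
      have h5 : (u (k + 1 + 1) : ℝ) = 0 := by
        nlinarith [sq_nonneg (u (k + 1 + 1) : ℝ), pow_eq_zero_iff (two_ne_zero)
          (M₀ := ℝ) (a := (u (k + 1 + 1) : ℝ)) |>.1 (le_antisymm h4 (sq_nonneg _))]
      exact_mod_cast h5
  · exfalso
    -- first step costs something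
    have hfirst : 0 < ((u 1 : ℝ) - b) ^ 2 := by
      apply sq_pos_of_ne_zero
      intro h2
      have h3 : (u 1 : ℝ) = b := by linarith
      have h4 : (1 : ℝ) < u 1 := by rw [h3]; exact hb
      have h5 : (u 1 : ℝ) < 2 := by rw [h3]; linarith
      have h6 : 1 < u 1 := by exact_mod_cast h4
      have h7 : u 1 < 2 := by exact_mod_cast h5
      omega
    have hmono : ∀ k, 1 ≤ u k ∧ u k ≤ u (k + 1) := by
      intro k
      induction k with
      | zero => rw [hu]; exact ⟨le_rfl, h0⟩
      | succ k ih =>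
        have h2 : 1 ≤ u (k + 1) := by omega
        refine ⟨h2, ?_⟩
        by_contra h3
        have h4 : (u (k + 1 + 1) : ℝ) ≤ u (k + 1) - 1 := by
          exact_mod_cast (by omega : u (k + 1 + 1) ≤ u (k + 1) - 1)
        have h5 : (1 : ℝ) ≤ u (k + 1) := by exact_mod_cast h2
        have h6 := htwo (k + 1) (by omega)
        have h7 : b ≤ b * u (k + 1) - u (k + 1 + 1) := by nlinarith
        nlinarith
    have hm1 : Monotone u := monotone_nat_of_le_succ fun k => (hmono k).2
    set v : ℕ → ℕ := fun k => (u k).toNat with hv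
    have hvu : ∀ k, ((v k : ℕ) : ℤ) = u k := fun k => by
      rw [hv]; exact Int.toNat_of_nonneg (by have := (hmono k).1; omega)
    have hvr : ∀ k, (v k : ℝ) = u k := fun k => by
      have := hvu k
      exact_mod_cast this
    have hc : ∀ N, W13.cost b v N ≤ b ^ 2 := fun N => by
      rw [W13.cost]; simp only [hvr]; exact h N
    refine W13.no_walk hb hb2 v hc (by have := hvu 0; rw [hu] at this; exact_mod_cast this) ?_
    intro k
    -- the values cannot stay at `u k` forever
    have hex : ∃ j, k ≤ j ∧ u k < u (j + 1) := by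
      by_contra hne
      push Not at hne
      have heq : ∀ i, u (k + i) = u k := by
        intro i
        cases i with
        | zero => rfl
        | succ i => exact le_antisymm (hne (k + i) (by omega)) (hm1 (by omega))
      have h2 : ∀ N : ℕ, (N : ℝ) * (b - 1) ^ 2 ≤ b ^ 2 := by
        intro N
        refine le_trans ?_ (h (k + N))
        rw [Finset.sum_range_add]
        have h3 : (0 : ℝ) ≤ ∑ j ∈ Finset.range k, ((u (j + 1) : ℝ) - b * u j) ^ 2 :=
          Finset.sum_nonneg fun _ _ => sq_nonneg _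
        have h4 : (N : ℝ) * (b - 1) ^ 2 ≤
            ∑ j ∈ Finset.range N, ((u (k + j + 1) : ℝ) - b * u (k + j)) ^ 2 := by
          have h5 : (N : ℝ) * (b - 1) ^ 2 = ∑ _j ∈ Finset.range N, (b - 1) ^ 2 := by
            rw [Finset.sum_const, Finset.card_range, nsmul_eq_mul]
          rw [h5]
          refine Finset.sum_le_sum fun j _ => ?_
          have h6 : u (k + j + 1) = u k := heq (j + 1)
          rw [h6, heq j]
          have h7 : (1 : ℝ) ≤ u k := by exact_mod_cast (hmono k).1
          have h8 : ((u k : ℝ) - b * u k) ^ 2 = (b - 1) ^ 2 * (u k : ℝ) ^ 2 := by ring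
          rw [h8]
          have h9 : (1 : ℝ) ≤ (u k : ℝ) ^ 2 := by nlinarith
          nlinarith [sq_nonneg (b - 1)]
        linarith
      obtain ⟨N, hN⟩ := exists_nat_gt (b ^ 2 / (b - 1) ^ 2)
      have h3 : (0 : ℝ) < (b - 1) ^ 2 := by
        apply sq_pos_of_ne_zero; linarith
      rw [div_lt_iff₀ h3] at hN
      linarith [h2 N]
    classical
    obtain ⟨hj1, hj2⟩ := Nat.find_spec hex
    refine ⟨Nat.find hex, hj1, ?_, ?_⟩
    · have h3 : u (Nat.find hex) = u k := by
        refine le_antisymm ?_ (hm1 hj1)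
        rcases Nat.eq_or_lt_of_le hj1 with h4 | h4
        · rw [← h4]
        · by_contra h5
          have h6 := Nat.find_min hex (m := Nat.find hex - 1) (by omega)
          apply h6
          refine ⟨by omega, ?_⟩
          rw [Nat.sub_add_cancel (by omega)]
          omega
      have h4 := hvu (Nat.find hex)
      have h5 := hvu k
      exact_mod_cast (h4.trans (h3.trans h5.symm))
    · have h4 := hvu (Nat.find hex + 1)
      have h5 := hvu k
      have h6 : ((v k : ℕ) : ℤ) < v (Nat.find hex + 1) := by rw [h4, h5]; exact hj2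
      exact_mod_cast h6

theorem walk13 {b : ℝ} (hb : 1 < b) (hb2 : b ≤ 331 / 250) (u : ℕ → ℤ) (hu : u 0 ≠ 0)
    (h : ∀ N : ℕ, (u 0 : ℝ) ^ 2 + ∑ j ∈ Finset.range N, ((u (j + 1) : ℝ) - b * u j) ^ 2 ≤
      1 + b ^ 2) : (u 0 = 1 ∨ u 0 = -1) ∧ ∀ k, u (k + 1) = 0 := by
  have h0 : (u 0 : ℝ) ^ 2 ≤ 1 + b ^ 2 := by simpa using h 0
  have h1 : u 0 < 2 := by
    by_contra h2
    have h3 : (2 : ℝ) ≤ u 0 := by exact_mod_cast (by omega : 2 ≤ u 0)
    nlinarith
  have h2 : -2 < u 0 := by
    by_contra h2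
    have h3 : (u 0 : ℝ) ≤ -2 := by exact_mod_cast (by omega : u 0 ≤ -2)
    nlinarith
  have h3 : u 0 = 1 ∨ u 0 = -1 := by omega
  refine ⟨h3, ?_⟩
  rcases h3 with h3 | h3
  · refine walk13_one hb hb2 u h3 fun N => ?_
    have := h N
    rw [h3] at this
    push_cast at this
    linarith
  · have h4 := walk13_one hb hb2 (fun k => -u k) (by simp [h3]) fun N => ?_
    · intro k
      have := h4 k
      simpa using this
    · have := h N
      rw [h3] at this
      push_cast at this ⊢
      have h5 : ∑ j ∈ Finset.range N, (-(u (j + 1) : ℝ) - b * -(u j : ℝ)) ^ 2 =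
          ∑ j ∈ Finset.range N, ((u (j + 1) : ℝ) - b * u j) ^ 2 :=
        Finset.sum_congr rfl fun j _ => by ring
      rw [h5]
      linarith

end Pool.Agent.MP1f45fc.V
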