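import Pool.Agent.Lib.MP_1f45fc_nt.V.AllPass
import Pool.Agent.Lib.MP_1f45fc_nt.V.Walk13
import Pool.Agent.Lib.MP_1f45fc_nt.SalemC.Quad

/-!
# Theorem V: lower bound for Pisot numbers
-/

set_option autoImplicit false

open Polynomial

namespace Pool.Agent.MP1f45fc.V

open Pool.Agent.MP1f45fc.SalemC

/-- Lower bound for Pisot numbers from a walk lemma with bound `B`. -/
theorem pisot_lb_of {B : ℝ} (hB : B ≤ 3 / 2)
    (hwalk : ∀ (b : ℝ), 1 < b → b ≤ B → ∀ u : ℕ → ℤ, u 0 ≠ 0 →
      (∀ N : ℕ, (u 0 : ℝ) ^ 2 + ∑ j ∈ Finset.range N, ((u (j + 1) : ℝ) - b * u j) ^ 2 ≤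
        1 + b ^ 2) → (u 0 = 1 ∨ u 0 = -1) ∧ ∀ k, u (k + 1) = 0)
    {b : ℝ} (h : IsPisot b) : B < b := by
  by_contra hlt
  have hbB : b ≤ B := not_lt.1 hlt
  obtain ⟨P, u, hP, hPi, hPb, hP0, hPu, hsum⟩ := all_pass h
  obtain ⟨hint, hb, hr⟩ := h
  have hrev0 : P.reverse.coeff 0 = 1 := by
    rw [coeff_zero_reverse]; exact hP
  have hu0 : u 0 ≠ 0 := by
    intro h0
    apply hP0
    have h1 := congrArg (PowerSeries.constantCoeff (R := ℤ)) hPu
    rw [map_mul] at h1
    simpa [h0] using h1.symm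
  obtain ⟨h1, h2⟩ := hwalk b hb hbB u hu0 hsum
  have hmk : (PowerSeries.mk u : PowerSeries ℤ) = ((C (u 0) : ℤ[X]) : PowerSeries ℤ) := by
    ext n
    cases n with
    | zero => simp
    | succ k =>
      rw [PowerSeries.coeff_mk, h2 k, Polynomial.coeff_coe, coeff_C_succ]
  have hPr : P.reverse * C (u 0) = P := by
    apply Polynomial.coe_injective (R := ℤ)
    rw [Polynomial.coe_mul, ← hmk, hPu]
  have hb0 : b ≠ 0 := by linarith
  -- `b⁻¹` is a root
  have hinv : aeval b⁻¹ P = 0 := by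
    have h3 : aeval b⁻¹ P.reverse = 0 := by
      let _ := invertibleOfNonzero hb0
      have h5 := eval₂_reverse_eq_zero_iff (algebraMap ℤ ℝ) b P
      rw [invOf_eq_inv] at h5
      exact h5.2 hPb
    rw [← hPr, map_mul, h3, zero_mul]
  have hPmin : minpoly ℤ b = P :=
    eq_of_monic_of_associated (minpoly.monic hint) hP
      ((minpoly.irreducible hint).associated_of_dvd hPi
        (minpoly.isIntegrallyClosed_dvd hint hPb))
  have hPq : P.map (algebraMap ℤ ℚ) = minpoly ℚ b := by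
    rw [← hPmin]; exact (minpoly.isIntegrallyClosed_eq_field_fractions' ℚ hint).symm
  have hev : (P.map (Int.castRingHom ℝ)).eval b = 0 := by rw [eval_map_real]; exact hPb
  obtain ⟨D, hPD⟩ : (X - C b) ∣ P.map (Int.castRingHom ℝ) := Polynomial.dvd_iff_isRoot.2 hev
  have hDb : D.eval b ≠ 0 := by
    intro h0
    have hsep : (minpoly ℚ b).Separable :=
      (minpoly.irreducible (hint.tower_top)).separable
    have h1 : aeval b (derivative (minpoly ℚ b)) ≠ 0 :=
      hsep.aeval_derivative_ne_zero (minpoly.aeval ℚ b)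
    apply h1
    rw [← hPq, derivative_map, aeval_map_algebraMap, ← eval_map_real, ← derivative_map, hPD]
    simp [h0]
  have hroots : ∀ z : ℂ, aeval z D = 0 → ‖z‖ < 1 := by
    intro z hz
    apply hr z
    · rw [hPmin, ← aeval_map_real, hPD, map_mul, hz, mul_zero]
    · intro hzb
      apply hDb
      rw [hzb, show (b : ℂ) = algebraMap ℝ ℂ b from rfl, aeval_algebraMap_apply_eq_algebraMap_eval]
        at hz
      exact (algebraMap ℝ ℂ).injective (hz.trans (map_zero _).symm)
  have h3 := quad_case P hP b hb D hPD hroots hP0 hinv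
  have h4 : b⁻¹ < 1 := inv_lt_one_of_one_lt₀ hb
  linarith

/-- Every Pisot number is greater than `1.324`. -/
theorem pisot_gt {b : ℝ} (h : IsPisot b) : 331 / 250 < b :=
  pisot_lb_of (by norm_num) (fun _ hb hb2 u hu hs => walk13 hb hb2 u hu hs) h

/-- Every Pisot number is greater than `1.179`. -/
theorem pisot_lb {b : ℝ} (h : IsPisot b) : 1179 / 1000 < b :=
  lt_trans (by norm_num) (pisot_gt h)

end Pool.Agent.MP1f45fc.V
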