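import Pool.Agent.Lib.MP_1f45fc_nt.V.Ef

set_option autoImplicit false

/-!
# Theorem V: from a sequence to an isometry with an axis
-/

open Polynomial

namespace Pool.Agent.MP1f45fc.V

/-- the bilinear form of a sequence on `ℝ[X] × ℝ × ℝ` -/
noncomputable def cB (b : ℝ) (r : ℕ → ℤ) (p : ℝ) :
    (ℝ[X] × ℝ × ℝ) →ₗ[ℝ] (ℝ[X] × ℝ × ℝ) →ₗ[ℝ] ℝ :=
  LinearMap.mk₂ ℝ (fun y z => ef b r p y.1 z.1 + p * (y.2.1 * z.2.2 + y.2.2 * z.2.1))
    (fun y y' z => by simp only [Prod.fst_add, Prod.snd_add, ef_add_left]; ring)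
    (fun c y z => by
      simp only [Prod.smul_fst, Prod.smul_snd, smul_eq_mul, Polynomial.smul_eq_C_mul,
        ef_C_mul_left]
      ring)
    (fun y z z' => by simp only [Prod.fst_add, Prod.snd_add, ef_add_right]; ring)
    (fun c y z => by
      simp only [Prod.smul_fst, Prod.smul_snd, smul_eq_mul, Polynomial.smul_eq_C_mul,
        ef_C_mul_right]
      ring)

lemma cB_apply (b : ℝ) (r : ℕ → ℤ) (p : ℝ) (y z : ℝ[X] × ℝ × ℝ) :
    cB b r p y z = ef b r p y.1 z.1 + p * (y.2.1 * z.2.2 + y.2.2 * z.2.1) := by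
  rw [cB, LinearMap.mk₂_apply]

/-- the isometry -/
noncomputable def cg (b : ℝ) : (ℝ[X] × ℝ × ℝ) →ₗ[ℝ] (ℝ[X] × ℝ × ℝ) where
  toFun y := (X * y.1, b * y.2.1, b⁻¹ * y.2.2)
  map_add' y z := by
    simp only [Prod.fst_add, Prod.snd_add, mul_add]
    rfl
  map_smul' c y := by
    simp only [Prod.smul_fst, Prod.smul_snd, smul_eq_mul, RingHom.id_apply, mul_smul_comm]
    refine Prod.ext rfl (Prod.ext ?_ ?_)
    · simp only [Prod.smul_snd, Prod.smul_fst, smul_eq_mul]; ring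
    · simp only [Prod.smul_snd, smul_eq_mul]; ring

lemma cg_apply (b : ℝ) (y : ℝ[X] × ℝ × ℝ) : cg b y = (X * y.1, b * y.2.1, b⁻¹ * y.2.2) := rfl

lemma cg_pow (b : ℝ) (k : ℕ) : (cg b ^ k) ((1 : ℝ[X]), (1 : ℝ), (1 : ℝ)) =
    ((X : ℝ[X]) ^ k, b ^ k, b⁻¹ ^ k) := by
  induction k with
  | zero => simp
  | succ k ih =>
    rw [pow_succ', Module.End.mul_apply, ih, cg_apply]
    simp only [pow_succ']

theorem geo_of_lev {L b : ℝ} (h : Lev L b) :
    1 < b ∧ ∃ (V : Type) (_ : AddCommGroup V) (_ : Module ℝ V) (B : V →ₗ[ℝ] V →ₗ[ℝ] ℝ)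
    (g : V →ₗ[ℝ] V) (u v x : V),
    (∀ y z, B y z = B z y) ∧ (∀ y z, B (g y) (g z) = B y z) ∧ g u = b • u ∧ g v = b⁻¹ • v ∧
    B u v ≠ 0 ∧ (∀ y, B y u = 0 → B y v = 0 → 0 ≤ B y y) ∧
    B x u ≠ 0 ∧ B x v ≠ 0 ∧ (∀ k : ℕ, ∃ n : ℤ, B x ((g ^ k) x) = n) ∧
    |B x x| ≤ L ∧ |B x (g x)| ≤ L := by
  obtain ⟨hb, r, p, hp, hL, h0, h1⟩ := h
  have hb0 : b ≠ 0 := by positivity
  have hval : ∀ k : ℕ, cB b r p ((1 : ℝ[X]), (1 : ℝ), (1 : ℝ))
      ((cg b ^ k) ((1 : ℝ[X]), (1 : ℝ), (1 : ℝ))) = (r k : ℤ) := by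
    intro k
    rw [cg_pow, cB_apply]
    have e : S.tb r 1 (X ^ k) = r k := by
      have h2 : (1 : ℝ[X]) = monomial 0 1 := by simp
      rw [← monomial_one_right_eq_X_pow k, h2, S.tb_monomial_aux]
      simp [Nat.dist]
    simp only
    unfold ef
    rw [e]
    simp only [eval_one, eval_pow, eval_X, one_mul]
    ring
  refine ⟨hb, ℝ[X] × ℝ × ℝ, inferInstance, inferInstance, cB b r p, cg b, (0, 1, 0), (0, 0, 1),
    (1, 1, 1), ?_, ?_, ?_, ?_, ?_, ?_, ?_, ?_, ?_, ?_, ?_⟩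
  · intro y z
    rw [cB_apply, cB_apply, ef_comm]; ring
  · intro y z
    rw [cB_apply, cB_apply, cg_apply, cg_apply]
    simp only
    rw [ef_X_mul hb0]
    have : b * b⁻¹ = 1 := mul_inv_cancel₀ hb0
    linear_combination (p * (y.2.1 * z.2.2 + y.2.2 * z.2.1)) * this
  · rw [cg_apply]; simp
  · rw [cg_apply]; simp
  · rw [cB_apply]
    have : ef b r p 0 0 = 0 := by
      have := ef_C_mul_left b p r 0 0 0
      simpa using this
    simp only
    rw [this]; simpa using hp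
  · intro y hyu hyv
    rw [cB_apply] at hyu hyv ⊢
    have e0 : ef b r p y.1 0 = 0 := by
      have := ef_C_mul_right b p r 0 y.1 0
      simpa using this
    simp only [e0] at hyu hyv
    have h2 : y.2.2 = 0 := by
      have : p * y.2.2 = 0 := by linear_combination hyu
      exact (mul_eq_zero.mp this).resolve_left hp
    have h3 : y.2.1 = 0 := by
      have : p * y.2.1 = 0 := by linear_combination hyv
      exact (mul_eq_zero.mp this).resolve_left hp
    rw [h2, h3]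
    have := ef_nonneg hL y.1
    linarith
  · rw [cB_apply]
    have e0 : ef b r p 1 0 = 0 := by
      have := ef_C_mul_right b p r 0 1 0
      simpa using this
    simp only [e0]; simpa using hp
  · rw [cB_apply]
    have e0 : ef b r p 1 0 = 0 := by
      have := ef_C_mul_right b p r 0 1 0
      simpa using this
    simp only [e0]; simpa using hp
  · exact fun k => ⟨r k, hval k⟩
  · have := hval 0
    rw [pow_zero, Module.End.one_apply] at this
    rw [this]; exact h0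
  · have := hval 1
    rw [pow_one] at this
    rw [this]; exact h1

end Pool.Agent.MP1f45fc.V
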