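import Pool.Agent.Lib.MP_1f45fc_nt.S.Tb

set_option autoImplicit false

/-!
# Theorem V: definitions

`S.tb r f g = ∑ f_i g_j r_{|i-j|}` is the Toeplitz form of the integer sequence `r` on real
polynomials.
-/

open Polynomial

namespace Pool.Agent.MP1f45fc.V

/-- The even integer sequence `r` minus `p (b ^ k + b ^ (-k))` is positive definite. -/
def LSeq (b : ℝ) (r : ℕ → ℤ) (p : ℝ) : Prop :=
  ∀ f : ℝ[X], 2 * p * (f.eval b * f.eval b⁻¹) ≤ S.tb r f f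

/-- `b` is a multiplier of level `L`. -/
def Lev (L b : ℝ) : Prop :=
  1 < b ∧ ∃ (r : ℕ → ℤ) (p : ℝ), p ≠ 0 ∧ LSeq b r p ∧ |(r 0 : ℝ)| ≤ L ∧ |(r 1 : ℝ)| ≤ L

/-- Pisot numbers. -/
def IsPisot (b : ℝ) : Prop :=
  IsIntegral ℤ b ∧ 1 < b ∧ ∀ z : ℂ, aeval z (minpoly ℤ b) = 0 → z ≠ (b : ℂ) → ‖z‖ < 1

/-- the integer polynomial `C` applied to the shifts of `r` -/
noncomputable def sh (r : ℕ → ℤ) (C : ℤ[X]) (k : ℕ) : ℤ := C.sum fun i c => c * r (k + i)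

/-- The elliptic part of the form. -/
noncomputable def ef (b : ℝ) (r : ℕ → ℤ) (p : ℝ) (f h : ℝ[X]) : ℝ :=
  S.tb r f h - p * (f.eval b * h.eval b⁻¹ + f.eval b⁻¹ * h.eval b)

end Pool.Agent.MP1f45fc.V
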