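import Mathlib
import Pool.Agent.Lib.MP_1f45fc_nt.V.Defs
import Pool.Agent.Lib.MP_1f45fc_nt.S.Theta
import Pool.Agent.Lib.MP_1f45fc_nt.S.SLem
import Pool.Agent.Lib.MP_1f45fc_nt.S.TSeq

/-!
# Theorem V, converse: every Pisot number is a limit point of numbers of level 1

Salem's construction `X ^ n P + P*`, `n ≥ 2`, gives numbers of level `1`; for
`P = X² - a X + 1` one uses the Pisot numbers of `X ^ m (X² - a X + 1) - 1`.
-/

set_option autoImplicit false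

open Polynomial Filter Topology

namespace Pool.Agent.MP1f45fc.V

namespace Conv

open SalemC

/-- Salem's construction with `n ≥ 2` gives numbers of level `1`. -/
theorem lev_one (P : ℤ[X]) (hP : P.Monic) (θ : ℝ) (hθ : 1 < θ) (D : ℝ[X])
    (hPD : P.map (Int.castRingHom ℝ) = (X - C θ) * D)
    (hroots : ∀ z : ℂ, aeval z D = 0 → ‖z‖ < 1) (hP0 : P.coeff 0 ≠ 0) (n : ℕ) (hn : 2 ≤ n)
    {β : ℝ} (hβ : 1 < β) (hPβ : aeval β P ≠ 0)
    (heq : β ^ n * aeval β P + aeval β P.reverse = 0) : Lev 1 β := by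
  have heq' : β ^ n * aeval β P + ((1 : ℤ) : ℝ) * aeval β P.reverse = 0 := by
    rw [Int.cast_one, one_mul]; exact heq
  have hcore := S.core_useq P hP θ hθ D hPD hroots hP0 n (by omega) 1 (Or.inl rfl) β hβ hPβ heq'
  obtain ⟨t, h0, htn, hser, hpos⟩ := S.exists_tseq n (by omega) β _ hcore
  obtain ⟨l, hl⟩ := S.s_lemma t β hβ hpos
  have hl0 := S.l_ne_zero P hP hP0 n 1 (Or.inl rfl) hβ hPβ heq' h0 hser hl
  refine ⟨hβ, t, l / 2, by positivity, fun f => ?_, by rw [h0]; simp, ?_⟩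
  · have := hl f
    have e : 2 * (l / 2) * (f.eval β * f.eval β⁻¹) = l * (f.eval β * f.eval β⁻¹) := by ring
    rw [e]; exact this
  · rw [htn 1 le_rfl (by omega)]; simp

theorem pos_D (D : ℝ[X]) (hD : D.Monic) (hroots : ∀ z : ℂ, aeval z D = 0 → ‖z‖ < 1) {x : ℝ}
    (hx : 1 ≤ x) : 0 < D.eval x := by
  have hno : ∀ y : ℝ, 1 ≤ y → D.eval y ≠ 0 := by
    intro y hy h
    have h1 : aeval (y : ℂ) D = 0 := by
      rw [show (y : ℂ) = algebraMap ℝ ℂ y from rfl, aeval_algebraMap_apply_eq_algebraMap_eval, h,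
        map_zero]
    have h2 := hroots _ h1
    rw [Complex.norm_real, Real.norm_eq_abs, abs_of_pos (by linarith)] at h2
    linarith
  by_contra hcon
  push Not at hcon
  have hlt : D.eval x < 0 := lt_of_le_of_ne hcon (hno x hx)
  have hd : 0 < D.degree := by
    by_contra hd
    have : D = 1 := by
      have h1 : D.natDegree = 0 := natDegree_eq_zero_iff_degree_le_zero.mpr (not_lt.mp hd)
      exact hD.natDegree_eq_zero.mp h1
    rw [this] at hlt
    simp at hlt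
    linarith
  have ht := D.tendsto_atTop_of_leadingCoeff_nonneg hd (by rw [hD.leadingCoeff]; norm_num)
  obtain ⟨y, hy1, hy2⟩ := ((ht.eventually_gt_atTop 0).and (eventually_ge_atTop x)).exists
  have hc : ContinuousOn (fun z => D.eval z) (Set.Icc x y) := D.continuous.continuousOn
  obtain ⟨z, hz, hz0⟩ := intermediate_value_Icc hy2 hc ⟨hlt.le, hy1.le⟩
  exact hno z (hx.trans hz.1) hz0

/-- Salem numbers of level `1` near a Pisot number `θ` with `P(1/θ) ≠ 0`. -/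
theorem near (P : ℤ[X]) (hP : P.Monic) (θ : ℝ) (hθ : 1 < θ) (D : ℝ[X])
    (hPD : P.map (Int.castRingHom ℝ) = (X - C θ) * D)
    (hroots : ∀ z : ℂ, aeval z D = 0 → ‖z‖ < 1) (hP0 : P.coeff 0 ≠ 0) (hinv : aeval θ⁻¹ P ≠ 0)
    {η : ℝ} (hη : 0 < η) : ∃ b, b ≠ θ ∧ |b - θ| < η ∧ Lev 1 b := by
  have hDm : D.Monic := by
    have hPm : (P.map (Int.castRingHom ℝ)).Monic := hP.map _
    rw [hPD] at hPm
    exact (monic_X_sub_C θ).of_mul_monic_left hPm
  have hPe : ∀ x : ℝ, aeval x P = (x - θ) * D.eval x := by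
    intro x
    rw [← eval_map_real, hPD]; simp
  set δ : ℝ := min (η / 2) ((θ - 1) / 2) with hδ
  have hδ0 : 0 < δ := lt_min (by linarith) (by linarith)
  have hδ1 : δ ≤ η / 2 := min_le_left _ _
  have hδ2 : δ ≤ (θ - 1) / 2 := min_le_right _ _
  have hx1 : 1 < θ - δ := by linarith
  have hx2 : 1 < θ + δ := by linarith
  have hl : aeval (θ - δ) P < 0 := by
    rw [hPe]
    have := pos_D D hDm hroots hx1.le
    nlinarith
  have hr : 0 < aeval (θ + δ) P := by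
    rw [hPe]
    have := pos_D D hDm hroots hx2.le
    have h1 : θ + δ - θ = δ := by ring
    rw [h1]; positivity
  have t1 : Tendsto (fun n : ℕ => (θ - δ) ^ n * aeval (θ - δ) P + aeval (θ - δ) P.reverse) atTop
      atBot := by
    refine tendsto_atBot_add_const_right _ _ ?_
    exact (tendsto_pow_atTop_atTop_of_one_lt hx1).atTop_mul_const_of_neg hl
  have t2 : Tendsto (fun n : ℕ => (θ + δ) ^ n * aeval (θ + δ) P + aeval (θ + δ) P.reverse) atTop
      atTop := by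
    refine tendsto_atTop_add_const_right _ _ ?_
    exact (tendsto_pow_atTop_atTop_of_one_lt hx2).atTop_mul_const hr
  obtain ⟨n, ⟨h1, h2⟩, hn⟩ := (((t1.eventually_lt_atBot 0).and (t2.eventually_gt_atTop 0)).and
    (eventually_ge_atTop 2)).exists
  have hc : ContinuousOn (fun x : ℝ => x ^ n * aeval x P + aeval x P.reverse)
      (Set.Icc (θ - δ) (θ + δ)) := by
    have e : (fun x : ℝ => x ^ n * aeval x P + aeval x P.reverse) =
        fun x : ℝ => ((X ^ n * P + P.reverse : ℤ[X]).map (Int.castRingHom ℝ)).eval x := by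
      funext x
      rw [eval_map_real]; simp
    rw [e]
    exact (Polynomial.continuous _).continuousOn
  obtain ⟨b, hb, hb0⟩ := intermediate_value_Icc (by linarith) hc ⟨h1.le, h2.le⟩
  simp only at hb0
  have hb1 : 1 < b := by linarith [hb.1]
  have hPb : aeval b P ≠ 0 := by
    intro h
    have h3 : aeval b P.reverse = 0 := by rw [h] at hb0; linarith
    have h4 : b = θ := by
      rw [hPe] at h
      rcases mul_eq_zero.mp h with h | h
      · linarith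
      · exact absurd h (pos_D D hDm hroots hb1.le).ne'
    have h5 := S.reverse_inv P.reverse (x := b) (by linarith)
    rw [h4] at h3
    have h6 := S.inv_reverse P (x := θ) (by linarith)
    rw [h3] at h6
    rcases mul_eq_zero.mp h6 with h | h
    · exact hinv h
    · exact absurd h (by positivity)
  refine ⟨b, ?_, ?_, lev_one P hP θ hθ D hPD hroots hP0 n hn hb1 hPb hb0⟩
  · intro h
    apply hPb
    rw [h, hPe]; ring
  · rw [abs_lt]
    constructor <;> linarith [hb.1, hb.2]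

/-- If `1 / θ` is also a root, then `θ + 1 / θ` is an integer. -/
theorem quad_int (P : ℤ[X]) (hP : P.Monic) (θ : ℝ) (hθ : 1 < θ) (D : ℝ[X])
    (hPD : P.map (Int.castRingHom ℝ) = (X - C θ) * D)
    (hroots : ∀ z : ℂ, aeval z D = 0 → ‖z‖ < 1) (hP0 : P.coeff 0 ≠ 0)
    (h : aeval θ⁻¹ P = 0) : ∃ a : ℤ, (a : ℝ) = θ + θ⁻¹ := by
  have hθ0 : (0 : ℝ) < θ := by linarith
  have hne : θ⁻¹ ≠ θ := by
    have : θ⁻¹ < 1 := inv_lt_one_of_one_lt₀ hθ
    intro h1; linarith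
  have hD1 : D.IsRoot θ⁻¹ := by
    rw [← eval_map_real, hPD, eval_mul, eval_sub, eval_X, eval_C] at h
    rcases mul_eq_zero.mp h with h1 | h1
    · exact absurd (sub_eq_zero.mp h1) hne
    · exact h1
  obtain ⟨E, hE⟩ := dvd_iff_isRoot.mpr hD1
  have hPm : (P.map (Int.castRingHom ℝ)).Monic := hP.map _
  have hDm : D.Monic := by
    rw [hPD] at hPm
    exact (monic_X_sub_C θ).of_mul_monic_left hPm
  have hEm : E.Monic := by
    rw [hE] at hDm
    exact (monic_X_sub_C θ⁻¹).of_mul_monic_left hDm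
  have hEr : ∀ z : ℂ, aeval z E = 0 → ‖z‖ < 1 := by
    intro z hz
    apply hroots
    rw [hE, map_mul, hz, mul_zero]
  have hc0 : ((P.coeff 0 : ℤ) : ℝ) = E.coeff 0 := by
    have h1 : (P.map (Int.castRingHom ℝ)).coeff 0 = ((P.coeff 0 : ℤ) : ℝ) := by
      rw [coeff_map]; simp
    rw [← h1, hPD, hE, mul_coeff_zero, mul_coeff_zero]
    simp only [coeff_sub, coeff_X_zero, coeff_C_zero, zero_sub]
    field_simp
  have hd : E.natDegree = 0 := by
    by_contra hd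
    have h1 := abs_coeff_zero_lt_one E hEm hEr hd
    rw [← hc0] at h1
    have h2 : |P.coeff 0| < 1 := by exact_mod_cast h1
    exact hP0 (Int.abs_lt_one_iff.mp h2)
  have hE1 : E = 1 := hEm.natDegree_eq_zero.mp hd
  rw [hE1, mul_one] at hE
  have hc1 : ((P.coeff 1 : ℤ) : ℝ) = -(θ + θ⁻¹) := by
    have h1 : (P.map (Int.castRingHom ℝ)).coeff 1 = ((P.coeff 1 : ℤ) : ℝ) := by
      rw [coeff_map]; simp
    rw [← h1, hPD, hE]
    have h2 : (X - C θ) * (X - C θ⁻¹) = X ^ 2 + C (-(θ + θ⁻¹)) * X + C (θ * θ⁻¹) := by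
      simp only [C_add, C_neg, C_mul]; ring
    rw [h2]
    simp [coeff_C]
  exact ⟨-P.coeff 1, by push_cast; rw [hc1]; ring⟩

/-- the polynomial `X ^ m (X² - a X + 1) - 1` -/
noncomputable def fm (a : ℤ) (m : ℕ) : ℤ[X] := X ^ (m + 2) - C a * X ^ (m + 1) + X ^ m - 1

theorem fm_monic (a : ℤ) (m : ℕ) : (fm a m).Monic := by
  have h : fm a m = X ^ (m + 2) + (-(C a * X ^ (m + 1)) + X ^ m - 1) := by
    unfold fm; ring
  rw [h]
  refine monic_X_pow_add ?_
  refine lt_of_le_of_lt (degree_sub_le _ _) (max_lt (lt_of_le_of_lt (degree_add_le _ _)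
    (max_lt ?_ ?_)) ?_)
  · rw [degree_neg]
    exact lt_of_le_of_lt (degree_C_mul_X_pow_le _ _) (by exact_mod_cast Nat.lt_succ_self _)
  · rw [degree_X_pow]; exact_mod_cast (by omega : m < m + 2)
  · rw [degree_one]; exact_mod_cast (by omega : 0 < m + 2)

theorem fm_eval (a : ℤ) (m : ℕ) (x : ℝ) :
    aeval x (fm a m) = x ^ m * (x ^ 2 - a * x + 1) - 1 := by
  unfold fm
  simp only [map_sub, map_add, map_mul, map_pow, aeval_X, map_one, eq_intCast, map_intCast]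
  ring

theorem fm_factor (a : ℤ) (m : ℕ) {τ : ℝ} (hτ : 1 < τ) (h : aeval τ (fm a m) = 0) :
    (fm a m).map (Int.castRingHom ℝ) = (X - C τ) *
      (X ^ (m + 1) + C (τ - a) * X ^ m + ∑ i ∈ Finset.range m, C (τ⁻¹ ^ (i + 1)) * X ^ i) := by
  have hτ0 : τ ≠ 0 := by linarith
  rw [fm_eval] at h
  have h1 : (X - C τ) * ∑ i ∈ Finset.range m, C (τ⁻¹ ^ (i + 1)) * X ^ i =
      C (τ⁻¹ ^ m) * X ^ m - 1 := by
    clear h
    induction m with
    | zero => simp
    | succ m ih =>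
      rw [Finset.sum_range_succ, mul_add, ih]
      have e : C τ * C (τ⁻¹ ^ (m + 1)) = C (τ⁻¹ ^ m) := by
        rw [← C_mul, pow_succ', ← mul_assoc, mul_inv_cancel₀ hτ0, one_mul]
      have e2 : (X - C τ) * (C (τ⁻¹ ^ (m + 1)) * X ^ m) =
          C (τ⁻¹ ^ (m + 1)) * X ^ (m + 1) - (C τ * C (τ⁻¹ ^ (m + 1))) * X ^ m := by ring
      rw [e2, e]; ring
  have h2 : (τ ^ 2 - a * τ) + 1 = τ⁻¹ ^ m := by
    have h3 : τ ^ m * τ⁻¹ ^ m = 1 := by rw [← mul_pow, mul_inv_cancel₀ hτ0, one_pow]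
    have h4 : τ ^ m * ((τ ^ 2 - a * τ) + 1 - τ⁻¹ ^ m) = 0 := by linear_combination h - h3
    rcases mul_eq_zero.mp h4 with h5 | h5
    · exact absurd h5 (pow_ne_zero m hτ0)
    · linarith
  have h5 : (C (τ ^ 2 - a * τ) + 1 : ℝ[X]) = C (τ⁻¹ ^ m) := by rw [← h2]; simp
  rw [mul_add, h1]
  unfold fm
  simp only [Polynomial.map_sub, Polynomial.map_add, Polynomial.map_mul, Polynomial.map_pow, map_X,
    Polynomial.map_one, Polynomial.map_C, Int.coe_castRingHom]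
  have e3 : (C (τ ^ 2 - a * τ) : ℝ[X]) = C τ * C τ - C (a : ℝ) * C τ := by
    simp only [C_sub, C_mul, C_pow]; ring
  rw [e3] at h5
  rw [← h5]
  simp only [C_sub]
  ring

theorem fm_roots (a : ℤ) (m : ℕ) (hm : 1 ≤ m) {τ : ℝ} (hτ : 1 < τ) (h : aeval τ (fm a m) = 0)
    (h3 : τ⁻¹ + (τ - 1)⁻¹ ≤ 1) (z : ℂ)
    (hz : aeval z (X ^ (m + 1) + C (τ - a) * X ^ m +
      ∑ i ∈ Finset.range m, C (τ⁻¹ ^ (i + 1)) * X ^ i : ℝ[X]) = 0) : ‖z‖ < 1 := by
  by_contra hcon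
  push Not at hcon
  have hτ0 : 0 < τ := by linarith
  have hτi : 0 < τ⁻¹ := inv_pos.2 hτ0
  have hti1 : τ⁻¹ < 1 := inv_lt_one_of_one_lt₀ hτ
  rw [fm_eval] at h
  -- the second coefficient
  have hpp : τ ^ m * τ⁻¹ ^ m = 1 := by rw [← mul_pow, mul_inv_cancel₀ hτ0.ne', one_pow]
  have h2 : τ ^ 2 - a * τ = τ⁻¹ ^ m - 1 := by
    have h4 : τ ^ m * ((τ ^ 2 - a * τ) + 1 - τ⁻¹ ^ m) = 0 := by linear_combination h - hpp
    rcases mul_eq_zero.mp h4 with h5 | h5
    · exact absurd h5 (pow_ne_zero m hτ0.ne')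
    · linarith
  have h5 : τ - a = -((1 - τ⁻¹ ^ m) * τ⁻¹) := by
    have h6 : (τ - a) * τ = -(1 - τ⁻¹ ^ m) := by linarith
    rw [← div_eq_mul_inv, ← neg_div, eq_div_iff hτ0.ne', h6]
  have hq : τ⁻¹ ^ m < 1 := pow_lt_one₀ hτi.le hti1 (by omega)
  have hq0 : 0 < τ⁻¹ ^ m := by positivity
  have hgeo : ∑ i ∈ Finset.range m, τ⁻¹ ^ (i + 1) = (1 - τ⁻¹ ^ m) * (τ - 1)⁻¹ := by
    have e1 : ∀ i ∈ Finset.range m, τ⁻¹ ^ (i + 1) = τ⁻¹ ^ i * τ⁻¹ := fun i _ => pow_succ _ _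
    rw [Finset.sum_congr rfl e1, ← Finset.sum_mul, geom_sum_eq hti1.ne]
    have h7 : τ - 1 ≠ 0 := by linarith
    have h8 : τ⁻¹ - 1 ≠ 0 := by linarith
    have h9 : τ⁻¹ - 1 = -(τ - 1) * τ⁻¹ := by field_simp; ring
    rw [h9]
    field_simp
    ring
  -- norm estimate
  set ρ := ‖z‖ with hρ
  have hz' : z ^ (m + 1) = -(((τ - a : ℝ) : ℂ) * z ^ m +
      ∑ i ∈ Finset.range m, ((τ⁻¹ ^ (i + 1) : ℝ) : ℂ) * z ^ i) := by
    simp only [map_add, map_mul, map_pow, aeval_X, aeval_C, map_sum, Complex.coe_algebraMap] at hz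
    push_cast at hz ⊢
    linear_combination hz
  have hn : ρ ^ (m + 1) ≤ |τ - a| * ρ ^ m + ∑ i ∈ Finset.range m, τ⁻¹ ^ (i + 1) * ρ ^ i := by
    rw [hρ, ← norm_pow, hz', norm_neg]
    refine (norm_add_le _ _).trans (add_le_add ?_ ?_)
    · rw [norm_mul, norm_pow, Complex.norm_real, Real.norm_eq_abs]
    · refine (norm_sum_le _ _).trans (Finset.sum_le_sum fun i _ => ?_)
      rw [norm_mul, norm_pow, Complex.norm_real, Real.norm_eq_abs, abs_of_pos (by positivity)]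
  have hs : ∑ i ∈ Finset.range m, τ⁻¹ ^ (i + 1) * ρ ^ i ≤
      (∑ i ∈ Finset.range m, τ⁻¹ ^ (i + 1)) * ρ ^ m := by
    rw [Finset.sum_mul]
    refine Finset.sum_le_sum fun i hi => ?_
    refine mul_le_mul_of_nonneg_left (pow_le_pow_right₀ hcon ?_) (by positivity)
    exact (Finset.mem_range.mp hi).le
  have habs : |τ - a| = (1 - τ⁻¹ ^ m) * τ⁻¹ := by
    rw [h5, abs_neg, abs_of_pos (mul_pos (by linarith) hτi)]
  rw [habs] at hn
  rw [hgeo] at hs
  have hρm : 0 < ρ ^ m := by positivity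
  have h10 : ρ ^ m ≤ ρ ^ (m + 1) := pow_le_pow_right₀ hcon (by omega)
  have h11 : (1 - τ⁻¹ ^ m) * τ⁻¹ * ρ ^ m + (1 - τ⁻¹ ^ m) * (τ - 1)⁻¹ * ρ ^ m =
      (1 - τ⁻¹ ^ m) * (τ⁻¹ + (τ - 1)⁻¹) * ρ ^ m := by ring
  have h12 : (1 - τ⁻¹ ^ m) * (τ⁻¹ + (τ - 1)⁻¹) < 1 := by
    have h13 : (1 - τ⁻¹ ^ m) * (τ⁻¹ + (τ - 1)⁻¹) ≤ (1 - τ⁻¹ ^ m) * 1 :=
      mul_le_mul_of_nonneg_left h3 (by linarith)
    linarith
  have h14 : (1 - τ⁻¹ ^ m) * (τ⁻¹ + (τ - 1)⁻¹) * ρ ^ m < 1 * ρ ^ m :=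
    mul_lt_mul_of_pos_right h12 hρm
  linarith

/-- The reciprocal quadratic case. -/
theorem near_quad (a : ℤ) (θ : ℝ) (hθ : 1 < θ) (ha : (a : ℝ) = θ + θ⁻¹) {η : ℝ} (hη : 0 < η) :
    ∃ b, b ≠ θ ∧ |b - θ| < η ∧ Lev 1 b := by
  have hθ0 : 0 < θ := by linarith
  have hquad : θ ^ 2 - a * θ + 1 = 0 := by rw [ha]; field_simp; ring
  -- a ≥ 3
  have ha2 : (2 : ℝ) < a := by
    have h4 : 0 < (θ - 1) ^ 2 := by
      have : 0 < θ - 1 := by linarith
      positivity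
    have h5 : θ + θ⁻¹ - 2 = (θ - 1) ^ 2 * θ⁻¹ := by field_simp; ring
    have h6 : 0 < (θ - 1) ^ 2 * θ⁻¹ := mul_pos h4 (inv_pos.mpr hθ0)
    linarith
  have ha3 : (3 : ℝ) ≤ a := by
    have : (2 : ℤ) < a := by exact_mod_cast ha2
    exact_mod_cast (by omega : (3 : ℤ) ≤ a)
  have hθ2 : 2 < θ := by
    have : θ⁻¹ < 1 := inv_lt_one_of_one_lt₀ hθ
    linarith
  -- choose m and τ
  have hfac : ∀ x : ℝ, x ^ 2 - a * x + 1 = (x - θ) * (x - θ⁻¹) := by
    intro x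
    rw [ha]
    have : θ * θ⁻¹ = 1 := mul_inv_cancel₀ hθ0.ne'
    linear_combination -this
  have hpos : 0 < (θ + η / 2) ^ 2 - a * (θ + η / 2) + 1 := by
    rw [hfac]
    have : θ⁻¹ < 1 := inv_lt_one_of_one_lt₀ hθ
    exact mul_pos (by linarith) (by linarith)
  have t1 : Tendsto (fun m : ℕ => (θ + η / 2) ^ m * ((θ + η / 2) ^ 2 - a * (θ + η / 2) + 1)) atTop
      atTop := (tendsto_pow_atTop_atTop_of_one_lt (by linarith)).atTop_mul_const hpos
  obtain ⟨m, h1, hm⟩ := ((t1.eventually_gt_atTop 1).and (eventually_ge_atTop 1)).exists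
  have hc : ContinuousOn (fun x : ℝ => aeval x (fm a m)) (Set.Icc θ (θ + η / 2)) := by
    have e : (fun x : ℝ => aeval x (fm a m)) =
        fun x : ℝ => ((fm a m).map (Int.castRingHom ℝ)).eval x := by
      funext x
      rw [eval_map_real]
    rw [e]
    exact (Polynomial.continuous _).continuousOn
  have hfθ : aeval θ (fm a m) = -1 := by rw [fm_eval, hquad]; ring
  have hfη : 0 < aeval (θ + η / 2) (fm a m) := by rw [fm_eval]; linarith
  obtain ⟨τ, hτ, hτ0⟩ := intermediate_value_Icc (by linarith) hc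
    (show (0 : ℝ) ∈ Set.Icc (aeval θ (fm a m)) (aeval (θ + η / 2) (fm a m)) from
      ⟨by rw [hfθ]; norm_num, hfη.le⟩)
  simp only at hτ0
  have hτθ : θ < τ := by
    rcases hτ.1.eq_or_lt with h | h
    · rw [← h, hfθ] at hτ0; norm_num at hτ0
    · exact h
  have hτ1 : 1 < τ := by linarith
  have h3 : τ⁻¹ + (τ - 1)⁻¹ ≤ 1 := by
    have h4 : 0 < τ := by linarith
    have h5 : 0 < τ - 1 := by linarith
    have h6 : θ⁻¹ + (θ - 1)⁻¹ ≤ 1 := by
      have h7 : 0 < θ - 1 := by linarith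
      rw [← one_div, ← one_div, div_add_div _ _ hθ0.ne' h7.ne', div_le_one (by positivity)]
      nlinarith
    have h7 : τ⁻¹ ≤ θ⁻¹ := inv_anti₀ hθ0 hτθ.le
    have h8 : (τ - 1)⁻¹ ≤ (θ - 1)⁻¹ := inv_anti₀ (by linarith) (by linarith)
    linarith
  have hP0 : (fm a m).coeff 0 ≠ 0 := by
    have : (fm a m).coeff 0 = -1 := by
      rw [coeff_zero_eq_eval_zero]
      unfold fm
      simp [show m ≠ 0 by omega]
    rw [this]; norm_num
  have hinv : aeval τ⁻¹ (fm a m) ≠ 0 := by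
    rw [fm_eval] at hτ0 ⊢
    have h4 : τ * τ⁻¹ = 1 := mul_inv_cancel₀ (by linarith)
    have h5 : τ⁻¹ ^ 2 - a * τ⁻¹ + 1 = τ⁻¹ ^ 2 * (τ ^ 2 - a * τ + 1) := by
      have : τ⁻¹ ^ 2 * (τ ^ 2 - a * τ + 1) = (τ * τ⁻¹) ^ 2 - a * (τ * τ⁻¹) * τ⁻¹ + τ⁻¹ ^ 2 := by
        ring
      rw [this, h4]; ring
    have hpp : τ ^ m * τ⁻¹ ^ m = 1 := by rw [← mul_pow, h4, one_pow]
    have h6 : τ ^ 2 - a * τ + 1 = τ⁻¹ ^ m := by
      have h7 : τ ^ m * ((τ ^ 2 - a * τ + 1) - τ⁻¹ ^ m) = 0 := by linear_combination hτ0 - hpp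
      rcases mul_eq_zero.mp h7 with h8 | h8
      · exact absurd h8 (pow_ne_zero m (by linarith))
      · linarith
    rw [h5, h6]
    have h9 : τ⁻¹ < 1 := inv_lt_one_of_one_lt₀ hτ1
    have h10 : 0 < τ⁻¹ := inv_pos.2 (by linarith)
    have h11 : τ⁻¹ ^ m * (τ⁻¹ ^ 2 * τ⁻¹ ^ m) = τ⁻¹ ^ (m + (2 + m)) := by
      rw [← pow_add, ← pow_add]
    rw [h11]
    have h12 : τ⁻¹ ^ (m + (2 + m)) < 1 := pow_lt_one₀ h10.le h9 (by omega)
    linarith
  have hη' : 0 < min (η / 2) (τ - θ) := lt_min (by linarith) (by linarith)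
  obtain ⟨b, hb1, hb2, hb3⟩ := near (fm a m) (fm_monic a m) τ hτ1 _ (fm_factor a m hτ1 hτ0)
    (fm_roots a m hm hτ1 hτ0 h3) hP0 hinv hη'
  rw [abs_lt] at hb2
  have hb4 := min_le_left (η / 2) (τ - θ)
  have hb5 := min_le_right (η / 2) (τ - θ)
  refine ⟨b, ?_, ?_, hb3⟩
  · intro h
    rw [h] at hb2
    linarith [hb2.1]
  · rw [abs_lt]
    constructor <;> linarith [hb2.1, hb2.2, hτ.1, hτ.2]

end Conv

open Conv SalemC in
/-- Every Pisot number is a limit point of numbers of level `1`. -/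
theorem near_pisot {θ : ℝ} (h : IsPisot θ) {η : ℝ} (hη : 0 < η) :
    ∃ b, b ≠ θ ∧ |b - θ| < η ∧ Lev 1 b := by
  obtain ⟨hint, hθ, hconj⟩ := h
  set P := minpoly ℤ θ with hPdef
  have hP : P.Monic := minpoly.monic hint
  have hroot : aeval θ P = 0 := minpoly.aeval ℤ θ
  have hPmap : (P.map (Int.castRingHom ℝ)).IsRoot θ := by
    rw [IsRoot.def, eval_map_real]; exact hroot
  obtain ⟨D, hD⟩ := dvd_iff_isRoot.mpr hPmap
  have hθ0 : θ ≠ 0 := by linarith
  have hQ : minpoly ℚ θ = P.map (Int.castRingHom ℚ) := by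
    have := minpoly.isIntegrallyClosed_eq_field_fractions' ℚ hint
    simpa using this
  have hP0 : P.coeff 0 ≠ 0 := by
    have h1 := minpoly.coeff_zero_ne_zero (hint.tower_top (A := ℚ)) hθ0
    rw [hQ, coeff_map] at h1
    intro h2
    rw [h2] at h1
    simp at h1
  have hroots : ∀ z : ℂ, aeval z D = 0 → ‖z‖ < 1 := by
    intro z hz
    have h1 : aeval z P = 0 := by
      rw [← aeval_map_real, hD, map_mul, hz, mul_zero]
    refine hconj z h1 ?_
    intro hzθ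
    rw [hzθ] at hz
    have hDθ : D.eval θ = 0 := by
      have h3 : aeval (θ : ℂ) D = ((D.eval θ : ℝ) : ℂ) := by
        rw [show (θ : ℂ) = algebraMap ℝ ℂ θ from rfl, aeval_algebraMap_apply]
        simp
      rw [h3] at hz
      exact_mod_cast hz
    have hder : aeval θ (derivative P) = 0 := by
      have h4 : aeval θ (derivative P) = (derivative (P.map (Int.castRingHom ℝ))).eval θ := by
        rw [derivative_map, eval_map_real]
      rw [h4, hD, derivative_mul]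
      simp [hDθ]
    have hsep : (minpoly ℚ θ).Separable :=
      (minpoly.irreducible (hint.tower_top (A := ℚ))).separable
    have h5 := hsep.aeval_derivative_ne_zero (x := θ) (minpoly.aeval ℚ θ)
    apply h5
    rw [hQ, derivative_map]
    have h6 : aeval θ ((derivative P).map (Int.castRingHom ℚ)) = aeval θ (derivative P) := by
      have := Polynomial.aeval_map_algebraMap ℚ θ (derivative P)
      simpa using this
    rw [h6, hder]
  by_cases hinv : aeval θ⁻¹ P = 0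
  · obtain ⟨a, ha⟩ := quad_int P hP θ hθ D hD hroots hP0 hinv
    exact near_quad a θ hθ ha hη
  · exact near P hP θ hθ D hD hroots hP0 hinv hη

theorem acc_of_pisot {θ L : ℝ} (h : IsPisot θ) (hL : 1 ≤ L) : AccPt θ (𝓟 {b | Lev L b}) := by
  rw [accPt_iff_nhds]
  intro U hU
  obtain ⟨η, hη, hball⟩ := Metric.mem_nhds_iff.mp hU
  obtain ⟨b, hb1, hb2, hb3⟩ := near_pisot h hη
  refine ⟨b, ⟨hball ?_, ?_⟩, hb1⟩
  · rw [Metric.mem_ball, Real.dist_eq]; exact hb2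
  · obtain ⟨h1, r, p, h2, h3, h4, h5⟩ := hb3
    exact ⟨h1, r, p, h2, h3, h4.trans hL, h5.trans hL⟩

end Pool.Agent.MP1f45fc.V
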