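import Mathlib
import Pool.Agent.Lib.MP_1f45fc_nt.V.Defs
import Pool.Agent.Lib.MP_1f45fc_nt.S.Theta
import Pool.Agent.Lib.MP_1f45fc_nt.S.SLem
import Pool.Agent.Lib.MP_1f45fc_nt.S.TSeq
import Pool.Agent.Lib.MP_1f45fc_nt.SalemC.Quad

set_option autoImplicit false

/-!
# The level of a number in Salem's construction

Every real root `β > 1` of `X ^ n P + ε P*`, `P` a Pisot polynomial, `n ≥ 1`, has level
`max 1 |P(0)|` (or `β` is a quadratic unit with `β + 1 / β ≥ 3`).
-/

open Polynomial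

namespace Pool.Agent.MP1f45fc.V

open SalemC

/-- The level, when `P(0) ≠ 0` and `P(β) ≠ 0`. -/
theorem lev_salem (P : ℤ[X]) (hP : P.Monic) (θ : ℝ) (hθ : 1 < θ) (D : ℝ[X])
    (hPD : P.map (Int.castRingHom ℝ) = (X - C θ) * D)
    (hroots : ∀ z : ℂ, aeval z D = 0 → ‖z‖ < 1) (hP0 : P.coeff 0 ≠ 0) (n : ℕ) (hn : 1 ≤ n)
    (ε : ℤ) (hε : ε = 1 ∨ ε = -1) {β : ℝ} (hβ : 1 < β) (hPβ : aeval β P ≠ 0)
    (heq : β ^ n * aeval β P + ε * aeval β P.reverse = 0) :
    ∃ (t : ℕ → ℤ) (p : ℝ), p ≠ 0 ∧ LSeq β t p ∧ t 0 = 1 ∧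
      t 1 = if n = 1 then -(ε * P.coeff 0) else 0 := by
  have hcore := S.core_useq P hP θ hθ D hPD hroots hP0 n hn ε hε β hβ hPβ heq
  obtain ⟨t, h0, htn, hser, hpos⟩ := S.exists_tseq n hn β _ hcore
  obtain ⟨l, hl⟩ := S.s_lemma t β hβ hpos
  have hl0 := S.l_ne_zero P hP hP0 n ε hε hβ hPβ heq h0 hser hl
  refine ⟨t, l / 2, div_ne_zero hl0 two_ne_zero, fun f => ?_, h0, ?_⟩
  · have := hl f
    have e : 2 * (l / 2) * (f.eval β * f.eval β⁻¹) = l * (f.eval β * f.eval β⁻¹) := by ring
    rw [e]; exact this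
  · split_ifs with h1
    · subst h1
      have h2 := congrArg (PowerSeries.coeff 1) hser
      rw [mul_add, mul_one, map_add, pow_one, ← mul_assoc, mul_comm _ PowerSeries.X, mul_assoc,
        PowerSeries.coeff_succ_X_mul 0, PowerSeries.coeff_succ_X_mul 0,
        PowerSeries.coeff_mk, PowerSeries.coeff_mk] at h2
      rw [PowerSeries.coeff_zero_eq_constantCoeff_apply, map_mul,
        ← PowerSeries.coeff_zero_eq_constantCoeff_apply, PowerSeries.coeff_mk] at h2
      rw [useq_zero P hP hP0 ε hε] at h2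
      simp only [if_true, zero_mul, add_zero, one_ne_zero, if_false] at h2
      linarith
    · exact htn 1 le_rfl (by omega)

/-- Every real root `β > 1` of `X ^ n P + ε P*` (`P` a Pisot polynomial, `n ≥ 1`, `ε = ±1`) has
level `max 1 |P(0)|`, or it is a quadratic unit `β` with `β + 1 / β ≥ 3`. -/
theorem lev_or_quad (P : ℤ[X]) (hP : P.Monic) (θ : ℝ) (hθ : 1 < θ)
    (hθP : aeval θ P = 0) (hθs : aeval θ (derivative P) ≠ 0)
    (hroots : ∀ z : ℂ, aeval z P = 0 → z ≠ (θ : ℂ) → ‖z‖ < 1)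
    (n : ℕ) (hn : 1 ≤ n) (ε : ℤ) (hε : ε = 1 ∨ ε = -1) (β : ℝ) (hβ : 1 < β)
    (heq : β ^ n * aeval β P + ε * aeval β P.reverse = 0) :
    Lev (max 1 |(P.coeff 0 : ℝ)|) β ∨ 3 ≤ β + β⁻¹ := by
  have hP0 : P ≠ 0 := hP.ne_zero
  -- remove the factor X^k
  obtain ⟨P1, hP1⟩ : X ^ P.natTrailingDegree ∣ P := by
    rw [X_pow_dvd_iff]
    intro d hd
    exact coeff_eq_zero_of_lt_natTrailingDegree hd
  set k := P.natTrailingDegree with hk
  have hP1c : P1.coeff 0 ≠ 0 := by
    have : P.coeff k ≠ 0 := by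
      rw [hk]
      exact mem_support_iff.mp (natTrailingDegree_mem_support_of_nonzero hP0)
    rw [hP1, coeff_X_pow_mul'] at this
    simpa using this
  have hP1m : P1.Monic := by
    have h1 : (X ^ k * P1).Monic := by rw [← hP1]; exact hP
    exact (monic_X_pow k).of_mul_monic_left h1
  have hrev : P.reverse = P1.reverse := by
    conv_lhs => rw [hP1]
    rw [mul_comm]
    exact reverse_mul_X_pow P1 k
  have hθ0 : θ ^ k ≠ 0 := pow_ne_zero k (by linarith)
  have hP1θ : aeval θ P1 = 0 := by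
    rw [hP1] at hθP
    simp only [map_mul, map_pow, aeval_X] at hθP
    rcases mul_eq_zero.mp hθP with h | h
    · exact absurd h hθ0
    · exact h
  have hPmap : (P1.map (Int.castRingHom ℝ)).IsRoot θ := by
    rw [IsRoot.def, eval_map_real]; exact hP1θ
  obtain ⟨D, hD⟩ := dvd_iff_isRoot.mpr hPmap
  -- the remaining roots
  have hDroots : ∀ z : ℂ, aeval z D = 0 → ‖z‖ < 1 := by
    intro z hz
    have h1 : aeval z P1 = 0 := by
      rw [← aeval_map_real, hD, map_mul, hz, mul_zero]
    have h2 : aeval z P = 0 := by rw [hP1, map_mul, h1, mul_zero]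
    refine hroots z h2 ?_
    intro hzθ
    rw [hzθ] at hz
    have hDθ : D.eval θ = 0 := by
      have h3 : aeval (θ : ℂ) D = ((D.eval θ : ℝ) : ℂ) := by
        rw [show (θ : ℂ) = algebraMap ℝ ℂ θ from rfl, aeval_algebraMap_apply]
        simp
      rw [h3] at hz
      exact_mod_cast hz
    apply hθs
    have h4 : aeval θ (derivative P) = (derivative (P.map (Int.castRingHom ℝ))).eval θ := by
      rw [derivative_map, eval_map_real]
    rw [h4, hP1, Polynomial.map_mul, hD, derivative_mul, derivative_mul]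
    simp [hDθ]
  have heq1 : β ^ (n + k) * aeval β P1 + ε * aeval β P1.reverse = 0 := by
    have h1 : aeval β P = β ^ k * aeval β P1 := by
      conv_lhs => rw [hP1]
      simp
    rw [h1, hrev] at heq
    rw [← heq]; ring
  by_cases hP1β : aeval β P1 = 0
  · right
    have hβθ : β = θ := by
      by_contra hne
      have h1 : aeval (β : ℂ) P = 0 := by
        rw [show (β : ℂ) = algebraMap ℝ ℂ β from rfl, aeval_algebraMap_apply]
        conv_lhs => rw [hP1]
        rw [map_mul, hP1β, mul_zero, map_zero]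
      have h2 := hroots (β : ℂ) h1 (by exact_mod_cast hne)
      rw [Complex.norm_real, Real.norm_eq_abs, abs_of_pos (by linarith)] at h2
      linarith
    have h3 : aeval β P1.reverse = 0 := by
      rw [hP1β, mul_zero, zero_add] at heq1
      rcases mul_eq_zero.mp heq1 with h | h
      · rcases hε with h' | h' <;> rw [h'] at h <;> norm_num at h
      · exact h
    have hβ0 : β ≠ 0 := by linarith
    have h4 : aeval β⁻¹ P1 = 0 := by
      let _ : Invertible β⁻¹ := invertibleOfNonzero (inv_ne_zero hβ0)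
      have h5 := eval₂_reverse_eq_zero_iff (algebraMap ℤ ℝ) β⁻¹ P1
      rw [invOf_eq_inv, inv_inv] at h5
      exact h5.mp h3
    rw [hβθ] at h4 ⊢
    exact quad_case P1 hP1m θ hθ D hD hDroots hP1c h4
  · left
    obtain ⟨t, p, hp, hL, h0, h1⟩ := lev_salem P1 hP1m θ hθ D hD hDroots hP1c (n + k) (by omega) ε
      hε hβ hP1β heq1
    refine ⟨hβ, t, p, hp, hL, ?_, ?_⟩
    · rw [h0]; simp
    · rw [h1]
      split_ifs with h2
      · have hk0 : k = 0 := by omega
        have hPP : P1.coeff 0 = P.coeff 0 := by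
          have h3 : P = P1 := by
            conv_lhs => rw [hP1]
            rw [hk0, pow_zero, one_mul]
          rw [← h3]
        refine le_trans (le_of_eq ?_) (le_max_right _ _)
        rw [hPP]
        rcases hε with h | h <;> rw [h] <;> simp
      · simp

end Pool.Agent.MP1f45fc.V
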