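import Pool.Agent.Lib.MP_1f45fc_nt.V.MainV
import Pool.Agent.Lib.MP_1f45fc_nt.V.Bound
import Pool.Agent.Lib.MP_1f45fc_nt.V.SalemLev

set_option autoImplicit false

/-!
# Salem's construction with bounded constant coefficient
-/

open Polynomial

namespace Pool.Agent.MP1f45fc.V

/-- For every `m` only finitely many numbers `β ≤ 1.324` are roots of `X ^ n P + ε P*` with a Pisot
polynomial `P` with `|P(0)| ≤ m`, `n ≥ 1`, `ε = ±1` (by Boyd every Salem number is such a root with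
`n = 1` for some `P`). -/
theorem pisot_family_finite (m : ℝ) : {β : ℝ | 1 < β ∧ β ≤ 331 / 250 ∧ ∃ (P : ℤ[X]) (θ : ℝ)
    (n : ℕ) (ε : ℤ), P.Monic ∧ 1 < θ ∧ aeval θ P = 0 ∧ aeval θ (derivative P) ≠ 0 ∧
    (∀ z : ℂ, aeval z P = 0 → z ≠ (θ : ℂ) → ‖z‖ < 1) ∧ 1 ≤ n ∧ (ε = 1 ∨ ε = -1) ∧
    |(P.coeff 0 : ℝ)| ≤ m ∧ β ^ n * aeval β P + ε * aeval β P.reverse = 0}.Finite := by
  refine (lev_finite_of (max 1 m) (331 / 250) fun b hb => pisot_gt hb).subset ?_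
  rintro β ⟨hβ, hβ2, P, θ, n, ε, hP, hθ, hθP, hθs, hroots, hn, hε, hm, heq⟩
  refine ⟨?_, hβ2⟩
  rcases lev_or_quad P hP θ hθ hθP hθs hroots n hn ε hε β hβ heq with h | h
  · obtain ⟨h1, r, p, h2, h3, h4, h5⟩ := h
    have h6 : max 1 |(P.coeff 0 : ℝ)| ≤ max 1 m := max_le_max le_rfl hm
    exact ⟨h1, r, p, h2, h3, h4.trans h6, h5.trans h6⟩
  · exfalso
    have : β⁻¹ < 1 := inv_lt_one_of_one_lt₀ hβ
    linarith

end Pool.Agent.MP1f45fc.V
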