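import Pool.Agent.Lib.MP_1f45fc_nt.V.Defs

set_option autoImplicit false

/-!
# Theorem V, module V1: basic algebra of the elliptic form `ef`
-/

open Polynomial

namespace Pool.Agent.MP1f45fc.V

theorem ef_nonneg {b p : ℝ} {r : ℕ → ℤ} (h : LSeq b r p) (f : ℝ[X]) : 0 ≤ ef b r p f f := by
  have := h f
  unfold ef
  nlinarith

theorem ef_comm (b p : ℝ) (r : ℕ → ℤ) (f g : ℝ[X]) : ef b r p f g = ef b r p g f := by
  unfold ef
  rw [S.tb_comm]
  ring

theorem ef_add_left (b p : ℝ) (r : ℕ → ℤ) (f g h : ℝ[X]) :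
    ef b r p (f + g) h = ef b r p f h + ef b r p g h := by
  unfold ef
  rw [S.tb_add_left, eval_add, eval_add]
  ring

theorem ef_C_mul_left (b p : ℝ) (r : ℕ → ℤ) (c : ℝ) (f g : ℝ[X]) :
    ef b r p (C c * f) g = c * ef b r p f g := by
  unfold ef
  rw [S.tb_C_mul_left, eval_C_mul, eval_C_mul]
  ring

theorem ef_add_right (b p : ℝ) (r : ℕ → ℤ) (f g h : ℝ[X]) :
    ef b r p f (g + h) = ef b r p f g + ef b r p f h := by
  rw [ef_comm, ef_add_left, ef_comm b p r g, ef_comm b p r h]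

theorem ef_C_mul_right (b p : ℝ) (r : ℕ → ℤ) (c : ℝ) (f g : ℝ[X]) :
    ef b r p f (C c * g) = c * ef b r p f g := by
  rw [ef_comm, ef_C_mul_left, ef_comm]

theorem ef_X_mul {b : ℝ} (hb : b ≠ 0) (p : ℝ) (r : ℕ → ℤ) (f g : ℝ[X]) :
    ef b r p (X * f) (X * g) = ef b r p f g := by
  unfold ef
  rw [S.tb_X_mul]
  simp only [eval_mul, eval_X]
  have h : b * b⁻¹ = 1 := mul_inv_cancel₀ hb
  linear_combination (-p * (f.eval b * g.eval b⁻¹ + f.eval b⁻¹ * g.eval b)) * h

theorem ef_X_pow_mul {b : ℝ} (hb : b ≠ 0) (p : ℝ) (r : ℕ → ℤ) (k : ℕ) (f g : ℝ[X]) :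
    ef b r p (X ^ k * f) (X ^ k * g) = ef b r p f g := by
  induction k with
  | zero => simp
  | succ k ih => rw [pow_succ', mul_assoc, mul_assoc, ef_X_mul hb, ih]

theorem ef_cs {b p : ℝ} {r : ℕ → ℤ} (h : LSeq b r p) (f g : ℝ[X]) :
    ef b r p f g ^ 2 ≤ ef b r p f f * ef b r p g g := by
  have key : ∀ t : ℝ, 0 ≤ ef b r p f f * (t * t) + (2 * ef b r p f g) * t + ef b r p g g := by
    intro t
    have h0 := ef_nonneg h (C t * f + g)
    rw [ef_add_left, ef_add_right, ef_add_right, ef_C_mul_left, ef_C_mul_left, ef_C_mul_right,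
      ef_C_mul_right, ef_comm b p r g f] at h0
    linarith
  have h1 := discrim_le_zero key
  unfold discrim at h1
  linarith

/-- `r k = e k + p (b ^ k + b ^ (-k))`, `|e k| ≤ e 0 = r 0 - 2 p` -/
theorem lseq_abs_le {b p : ℝ} {r : ℕ → ℤ} (hb : b ≠ 0) (h : LSeq b r p) (k : ℕ) :
    |(r k : ℝ) - p * (b ^ k + b⁻¹ ^ k)| ≤ r 0 - 2 * p := by
  have hm : ∀ n : ℕ, (X ^ n : ℝ[X]) = monomial n 1 := fun n => (monomial_one_right_eq_X_pow n).symm
  have h1 : ef b r p 1 1 = r 0 - 2 * p := by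
    have : (1 : ℝ[X]) = monomial 0 1 := by simp
    have e : S.tb r 1 1 = r 0 := by
      rw [this, S.tb_monomial_aux]
      simp [Nat.dist]
    unfold ef
    rw [e, eval_one, eval_one]
    ring
  have h2 : ef b r p 1 (X ^ k) = r k - p * (b ^ k + b⁻¹ ^ k) := by
    have : (1 : ℝ[X]) = monomial 0 1 := by simp
    have e : S.tb r 1 (X ^ k) = r k := by
      rw [hm, this, S.tb_monomial_aux]
      simp [Nat.dist]
    unfold ef
    rw [e, eval_one, eval_one, eval_pow, eval_pow, eval_X, eval_X]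
    ring
  have h3 : ef b r p (X ^ k) (X ^ k) = r 0 - 2 * p := by
    have := ef_X_pow_mul hb p r k 1 1
    rw [mul_one] at this
    rw [this, h1]
  rw [← h2]
  have p1 := ef_nonneg h (1 + X ^ k)
  have p2 := ef_nonneg h (1 + C (-1) * X ^ k)
  rw [ef_add_left, ef_add_right, ef_add_right, ef_comm b p r (X ^ k) 1, h1, h3] at p1
  rw [ef_add_left, ef_add_right, ef_add_right, ef_C_mul_left, ef_C_mul_left, ef_C_mul_right,
    ef_C_mul_right, ef_comm b p r (X ^ k) 1, h1, h3] at p2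
  rw [abs_le]
  constructor <;> linarith

theorem sh_add (r : ℕ → ℤ) (C D : ℤ[X]) (k : ℕ) : sh r (C + D) k = sh r C k + sh r D k := by
  unfold sh
  rw [sum_add_index]
  · intro i; simp
  · intro i a c; ring

theorem sh_monomial (r : ℕ → ℤ) (n : ℕ) (a : ℤ) (k : ℕ) :
    sh r (monomial n a) k = a * r (k + n) := by
  unfold sh
  rw [sum_monomial_index _ _ (by simp)]

theorem tb_one_left (r : ℕ → ℤ) (k : ℕ) (C : ℤ[X]) :
    S.tb r 1 (X ^ k * C.map (Int.castRingHom ℝ)) = (sh r C k : ℝ) := by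
  induction C using Polynomial.induction_on' with
  | add p q hp hq =>
    rw [Polynomial.map_add, mul_add, S.tb_add_right, hp, hq, sh_add]
    push_cast
    ring
  | monomial n a =>
    have h1 : (1 : ℝ[X]) = monomial 0 1 := by simp
    rw [Polynomial.map_monomial, ← monomial_one_right_eq_X_pow, monomial_mul_monomial, h1,
      S.tb_monomial_aux, sh_monomial]
    simp [Nat.dist]

end Pool.Agent.MP1f45fc.V
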