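import Pool.Agent.Lib.MP_1f45fc_nt.V.Ef
import Pool.Agent.Lib.MP_1f45fc_nt.U.Main

set_option autoImplicit false

/-!
# Theorem V, module V3: a gap above one at each level
-/

open Polynomial

namespace Pool.Agent.MP1f45fc.V

namespace Gap

/-- The system on polynomials given by an admissible sequence. -/
noncomputable def sys {b p : ℝ} {r : ℕ → ℤ} (hb : 1 < b) (h : LSeq b r p) : U.Sys ℝ[X] where
  E := LinearMap.mk₂ ℝ (fun f g => ef b r p f g)
    (fun x y z => ef_add_left b p r x y z)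
    (fun c x y => by rw [smul_eq_C_mul, ef_C_mul_left, smul_eq_mul])
    (fun x y z => ef_add_right b p r x y z)
    (fun c x y => by rw [smul_eq_C_mul, ef_C_mul_right, smul_eq_mul])
  α := Polynomial.leval b⁻¹
  β := p • Polynomial.leval b
  g := LinearMap.mulLeft ℝ X
  b := b
  symm := fun x y => by
    rw [LinearMap.mk₂_apply, LinearMap.mk₂_apply]
    exact ef_comm b p r x y
  pos := fun x => by
    rw [LinearMap.mk₂_apply]
    exact ef_nonneg h x
  inv := fun x y => by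
    rw [LinearMap.mk₂_apply, LinearMap.mk₂_apply, LinearMap.mulLeft_apply, LinearMap.mulLeft_apply]
    exact ef_X_mul (by positivity) p r x y
  hα := fun x => by
    rw [LinearMap.mulLeft_apply, leval_apply, leval_apply, eval_mul, eval_X]
  hβ := fun x => by
    rw [LinearMap.mulLeft_apply, LinearMap.smul_apply, LinearMap.smul_apply, leval_apply,
      leval_apply, eval_mul, eval_X, smul_eq_mul, smul_eq_mul]
    ring
  hb := hb

lemma sys_E {b p : ℝ} {r : ℕ → ℤ} (hb : 1 < b) (h : LSeq b r p) (x y : ℝ[X]) :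
    (sys hb h).E x y = ef b r p x y := by
  unfold sys
  rw [LinearMap.mk₂_apply]

lemma sys_α {b p : ℝ} {r : ℕ → ℤ} (hb : 1 < b) (h : LSeq b r p) (x : ℝ[X]) :
    (sys hb h).α x = x.eval b⁻¹ := rfl

lemma sys_β {b p : ℝ} {r : ℕ → ℤ} (hb : 1 < b) (h : LSeq b r p) (x : ℝ[X]) :
    (sys hb h).β x = p * x.eval b := rfl

lemma sys_g {b p : ℝ} {r : ℕ → ℤ} (hb : 1 < b) (h : LSeq b r p) (k : ℕ) (x : ℝ[X]) :
    ((sys hb h).g ^ k) x = X ^ k * x := by
  change ((LinearMap.mulLeft ℝ (X : ℝ[X])) ^ k) x = _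
  induction k with
  | zero => simp
  | succ k ih =>
    rw [pow_succ', Module.End.mul_apply, ih, LinearMap.mulLeft_apply, pow_succ', mul_assoc]

lemma sys_Q {b p : ℝ} {r : ℕ → ℤ} (hb : 1 < b) (h : LSeq b r p) (x y : ℝ[X]) :
    (sys hb h).Q x y = S.tb r x y := by
  unfold U.Sys.Q
  rw [sys_E, sys_α, sys_α, sys_β, sys_β]
  unfold ef
  ring

/-- Theorem U on polynomials. -/
lemma apply_main {c M : ℝ} (hc : ∀ (V : Type) [AddCommGroup V] [Module ℝ V]
    (S : U.Sys V) (x : V), S.E x x ≤ M → S.α x * S.β x ≠ 0 → |S.α x * S.β x| ≤ M →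
    (∀ k l : ℕ, |S.Q x ((S.g ^ k) x) - S.Q x ((S.g ^ l) x)| < 1 →
      S.Q x ((S.g ^ k) x) = S.Q x ((S.g ^ l) x)) → c ≤ S.b)
    {b p : ℝ} {r : ℕ → ℤ} (hb : 1 < b) (h : LSeq b r p) (x : ℝ[X])
    (h1 : S.tb r x x ≤ M) (h2 : 0 < p * (x.eval b * x.eval b⁻¹))
    (hint : ∀ k : ℕ, ∃ n : ℤ, S.tb r x (X ^ k * x) = n) : c ≤ b := by
  have h3 := h x
  have e1 : (sys hb h).α x * (sys hb h).β x = p * (x.eval b * x.eval b⁻¹) := by
    rw [sys_α, sys_β]; ring
  refine hc ℝ[X] (sys hb h) x ?_ ?_ ?_ ?_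
  · rw [sys_E]
    unfold ef
    nlinarith
  · rw [e1]; exact h2.ne'
  · rw [e1, abs_of_pos h2]
    nlinarith
  · intro k l hkl
    rw [sys_Q, sys_Q, sys_g, sys_g] at hkl ⊢
    obtain ⟨m, hm⟩ := hint k
    obtain ⟨n, hn⟩ := hint l
    rw [hm, hn] at hkl ⊢
    have h4 : |m - n| < 1 := by exact_mod_cast hkl
    have h5 : m = n := by
      rw [Int.abs_lt_one_iff] at h4
      omega
    rw [h5]

lemma tb_mono (r : ℕ → ℤ) (i j : ℕ) :
    S.tb r (X ^ i) (X ^ j) = (r (Nat.dist i j) : ℝ) := by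
  rw [← monomial_one_right_eq_X_pow, ← monomial_one_right_eq_X_pow, S.tb_monomial_aux]
  ring

end Gap

theorem lev_gap (L : ℝ) : ∃ c : ℝ, 1 < c ∧ ∀ b : ℝ, Lev L b → c ≤ b := by
  obtain ⟨c, hc1, hc⟩ := U.main.{0} (4 * L)
  refine ⟨c, hc1, fun b hlev => ?_⟩
  obtain ⟨hb, r, p, hp, hL, h0, h1⟩ := hlev
  have hb0 : 0 < b := by linarith
  have hL0 : 0 ≤ L := (abs_nonneg _).trans h0
  have h0' := abs_le.mp h0
  have h1' := abs_le.mp h1
  rcases lt_or_gt_of_ne hp with hneg | hpos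
  · -- the vector `1 - X`
    have e0 : S.tb r (1 : ℝ[X]) 1 = r 0 := by
      have := Gap.tb_mono r 0 0
      simpa [Nat.dist] using this
    have e1 : S.tb r (1 : ℝ[X]) X = r 1 := by
      have := Gap.tb_mono r 0 1
      simpa [Nat.dist] using this
    have hx : (1 - X : ℝ[X]) = 1 + C (-1) * X := by
      rw [C_neg, C_1]; ring
    have hbb : 0 < b⁻¹ := by positivity
    have hbi : b⁻¹ < 1 := inv_lt_one_of_one_lt₀ hb
    refine Gap.apply_main hc hb hL (1 - X) ?_ ?_ ?_
    · have e2 : S.tb r (X : ℝ[X]) X = r 0 := by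
        have := Gap.tb_mono r 1 1
        simpa [Nat.dist] using this
      rw [hx, S.tb_add_left, S.tb_add_right, S.tb_add_right, S.tb_C_mul_left, S.tb_C_mul_left,
        S.tb_C_mul_right, S.tb_C_mul_right, S.tb_comm r X 1, e0, e1, e2]
      linarith
    · rw [eval_sub, eval_sub, eval_one, eval_one, eval_X, eval_X]
      have h2 : (1 - b) * (1 - b⁻¹) < 0 := mul_neg_of_neg_of_pos (by linarith) (by linarith)
      exact mul_pos_of_neg_of_neg hneg h2
    · intro k
      refine ⟨2 * r k - r (k + 1) - r (Nat.dist 1 k), ?_⟩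
      have hx2 : (X : ℝ[X]) ^ k * (1 - X) = X ^ k + C (-1) * X ^ (k + 1) := by
        rw [C_neg, C_1]; ring
      have a1 : S.tb r (1 : ℝ[X]) (X ^ k) = r k := by
        have := Gap.tb_mono r 0 k
        simpa [Nat.dist] using this
      have a2 : S.tb r (1 : ℝ[X]) (X ^ (k + 1)) = r (k + 1) := by
        have := Gap.tb_mono r 0 (k + 1)
        simpa [Nat.dist] using this
      have a3 : S.tb r (X : ℝ[X]) (X ^ k) = r (Nat.dist 1 k) := by
        have := Gap.tb_mono r 1 k
        rwa [pow_one] at this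
      have a4 : S.tb r (X : ℝ[X]) (X ^ (k + 1)) = r k := by
        have := Gap.tb_mono r 1 (k + 1)
        rw [pow_one] at this
        rw [this]
        congr 2
        unfold Nat.dist
        omega
      rw [hx2, hx, S.tb_add_left, S.tb_add_right, S.tb_add_right, S.tb_C_mul_left,
        S.tb_C_mul_left, S.tb_C_mul_right, S.tb_C_mul_right, a1, a2, a3, a4]
      push_cast
      ring
  · refine Gap.apply_main hc hb hL 1 ?_ ?_ ?_
    · have := Gap.tb_mono r 0 0
      have e0 : S.tb r (1 : ℝ[X]) 1 = r 0 := by simpa [Nat.dist] using this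
      rw [e0]
      linarith
    · rw [eval_one, eval_one]
      linarith
    · intro k
      refine ⟨r k, ?_⟩
      have := Gap.tb_mono r 0 k
      rw [mul_one]
      simpa [Nat.dist] using this

end Pool.Agent.MP1f45fc.V
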