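import Pool.Agent.Lib.MP_1f45fc_nt.V.Defs
import Pool.Agent.Lib.MP_1f45fc_nt.S.Geo

set_option autoImplicit false

/-!
# Theorem V, module V10: the geometric form of a level

An isometry `g` of a real vector space with a symmetric form, with an axis `u`, `v` of
multiplier `b`, positive semidefinite on the orthogonal complement of the axis, and a vector `x`
with integral products `x . g ^ k x`, gives a multiplier of level `L`.
-/

open Polynomial

namespace Pool.Agent.MP1f45fc.V

theorem lev_of_geo {V : Type*} [AddCommGroup V] [Module ℝ V] (B : V →ₗ[ℝ] V →ₗ[ℝ] ℝ)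
    (g : V →ₗ[ℝ] V) (b L : ℝ) (u v x : V)
    (hs : ∀ y z, B y z = B z y) (hg : ∀ y z, B (g y) (g z) = B y z)
    (hb : 1 < b) (hu : g u = b • u) (hv : g v = b⁻¹ • v)
    (hpos : ∀ y, B y u = 0 → B y v = 0 → 0 ≤ B y y)
    (huv : B u v ≠ 0) (hxu : B x u ≠ 0) (hxv : B x v ≠ 0)
    (h0 : |B x x| ≤ L) (h1 : |B x (g x)| ≤ L)
    (hint : ∀ k : ℕ, ∃ n : ℤ, B x ((g ^ k) x) = n) : Lev L b := by
  have hb0 : b ≠ 0 := by positivity
  choose r hr using hint
  have huu : B u u = 0 := by
    have h1 := hg u u
    rw [hu] at h1
    simp only [map_smul, LinearMap.smul_apply, smul_eq_mul] at h1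
    have h2 : (b * b - 1) * B u u = 0 := by linear_combination h1
    rcases mul_eq_zero.mp h2 with h | h
    · exfalso; nlinarith
    · exact h
  have hvv : B v v = 0 := by
    have h1 := hg v v
    rw [hv] at h1
    simp only [map_smul, LinearMap.smul_apply, smul_eq_mul] at h1
    have h3 : b⁻¹ < 1 := inv_lt_one_of_one_lt₀ hb
    have h4 : 0 < b⁻¹ := by positivity
    have h2 : (b⁻¹ * b⁻¹ - 1) * B v v = 0 := by linear_combination h1
    rcases mul_eq_zero.mp h2 with h | h
    · exfalso; nlinarith
    · exact h
  have hlow : ∀ y : V, 2 * (B y u * B y v) / B u v ≤ B y y := fun y => by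
    have h1 := hpos (y - (B y v / B u v) • u - (B y u / B u v) • v) ?_ ?_
    · simp only [map_sub, map_smul, LinearMap.sub_apply, LinearMap.smul_apply, smul_eq_mul, huu,
        hvv, hs u y, hs v y, hs v u] at h1
      have e : B y y - B y v / B u v * B y u - B y u / B u v * B y v -
            B y v / B u v * (B y u - B y v / B u v * 0 - B y u / B u v * B u v) -
            B y u / B u v * (B y v - B y v / B u v * B u v - B y u / B u v * 0)
          = B y y - 2 * (B y u * B y v) / B u v := by
        field_simp
        ring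
      linarith [h1, e]
    · simp only [map_sub, map_smul, LinearMap.sub_apply, LinearMap.smul_apply, smul_eq_mul, huu,
        hs v u]
      field_simp
      ring
    · simp only [map_sub, map_smul, LinearMap.sub_apply, LinearMap.smul_apply, smul_eq_mul, hvv]
      field_simp
      ring
  refine ⟨hb, r, B x u * B x v / B u v, div_ne_zero (mul_ne_zero hxu hxv) huv, fun f => ?_, ?_, ?_⟩
  · have h2 := hlow (S.pv g x f)
    rw [S.pv_eig B g hg hb0 hu, S.pv_eig B g hg (inv_ne_zero hb0) hv, inv_inv] at h2
    have h3 : S.tb r f f = B (S.pv g x f) (S.pv g x f) := by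
      unfold S.pv S.tb
      simp only [Polynomial.sum_def, map_sum, LinearMap.sum_apply, map_smul,
        LinearMap.smul_apply, smul_eq_mul, Finset.mul_sum]
      rw [Finset.sum_comm]
      refine Finset.sum_congr rfl fun i _ => Finset.sum_congr rfl fun j _ => ?_
      rw [S.iso_dist B hs g hg, hr, Nat.dist_comm]
      ring
    rw [h3]
    refine le_trans (le_of_eq ?_) h2
    ring
  · rw [← hr 0]
    simpa using h0
  · rw [← hr 1]
    simpa using h1

end Pool.Agent.MP1f45fc.V
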