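import Mathlib

set_option autoImplicit false

open Finset

namespace Pool.Agent.MP1f45fc.V

namespace HK

theorem hadamard_ineq {n : ℕ} (A : Matrix (Fin n) (Fin n) ℝ) :
    |A.det| ≤ ∏ i, Real.sqrt (∑ j, A i j ^ 2) := by
  have : Fact (Module.finrank ℝ (EuclideanSpace ℝ (Fin n)) = n) := ⟨by simp⟩
  let b := EuclideanSpace.basisFun (Fin n) ℝ
  let o := b.toBasis.orientation
  have h := o.abs_volumeForm_apply_le (fun i => WithLp.toLp 2 (A i))
  rw [o.volumeForm_robust b rfl] at h
  have h1 : b.toBasis.det (fun i => WithLp.toLp 2 (A i)) = A.det := by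
    rw [Module.Basis.det_apply, ← Matrix.det_transpose]
    congr 1
  rw [h1] at h
  refine h.trans (le_of_eq ?_)
  refine Finset.prod_congr rfl fun i _ => ?_
  rw [EuclideanSpace.norm_eq]
  simp

/-- super-exponential decay -/
lemma decay (D : ℝ) (hD : 0 ≤ D) (τ : ℕ → ℝ) (hτ0 : ∀ i, 0 ≤ τ i)
    (hτ : Filter.Tendsto τ Filter.atTop (nhds 0)) :
    Filter.Tendsto (fun n : ℕ => D ^ n * ∏ i ∈ range n, τ i) Filter.atTop (nhds 0) := by
  have h1 : ∀ n, D ^ n * ∏ i ∈ range n, τ i = ∏ i ∈ range n, (D * τ i) := by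
    intro n
    rw [Finset.prod_mul_distrib, Finset.prod_const, Finset.card_range]
  simp only [h1]
  have h2 : Filter.Tendsto (fun i => D * τ i) Filter.atTop (nhds 0) := by
    have := hτ.const_mul D
    rwa [mul_zero] at this
  obtain ⟨N, hN⟩ := Filter.eventually_atTop.mp (h2.eventually_lt_const
    (show (0 : ℝ) < 1 / 2 by norm_num))
  set c := ∏ i ∈ range N, (D * τ i) with hc
  have hc0 : 0 ≤ c := Finset.prod_nonneg fun i _ => mul_nonneg hD (hτ0 i)
  have h3 : ∀ k, ∏ i ∈ range (N + k), (D * τ i) ≤ c * (1 / 2) ^ k := by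
    intro k
    induction k with
    | zero => simp [hc]
    | succ k ih =>
      rw [← Nat.add_assoc, Finset.prod_range_succ, pow_succ, ← mul_assoc c]
      exact mul_le_mul ih (hN _ (Nat.le_add_right _ _)).le (mul_nonneg hD (hτ0 _))
        (by positivity)
  rw [← Filter.tendsto_add_atTop_iff_nat N]
  refine squeeze_zero (g := fun k => c * (1 / 2 : ℝ) ^ k)
    (fun k => Finset.prod_nonneg fun i _ => mul_nonneg hD (hτ0 i))
    (fun k => by rw [Nat.add_comm k N]; exact h3 k) ?_
  have := (tendsto_pow_atTop_nhds_zero_of_lt_one (r := (1 / 2 : ℝ)) (by norm_num)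
    (by norm_num)).const_mul c
  rwa [mul_zero] at this

end HK

theorem hankel_zero (r : ℕ → ℤ) (m : ℤ) (hm0 : 0 < m) (G : ℕ → ℝ) (hG0 : (m : ℝ) * G 0 = 1)
    (hG : ∀ n : ℕ, (m : ℝ) * G (n + 1) + ∑ i ∈ Finset.range (n + 1), (r (n + 1 - i) : ℝ) * G i = 0)
    (ζ : ℝ) (hζ : Summable fun n : ℕ => (G (n + 1) - ζ * G n) ^ 2) :
    ∃ N : ℕ, ∀ n, N ≤ n → (Matrix.of fun i j : Fin n => r ((i : ℕ) + j + 1)).det = 0 := by
  have hm : (0 : ℝ) < m := by exact_mod_cast hm0
  have hm1 : (1 : ℝ) ≤ m := by exact_mod_cast hm0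
  have hG0' : G 0 = (m : ℝ)⁻¹ := by
    field_simp
    linarith
  set γ : ℕ → ℝ := fun n => G (n + 1) - ζ * G n with hγ
  -- tails
  set τ : ℕ → ℝ := fun i => Real.sqrt (∑' k, γ (k + i) ^ 2) with hτ
  have hτ0 : ∀ i, 0 ≤ τ i := fun i => Real.sqrt_nonneg _
  have hτlim : Filter.Tendsto τ Filter.atTop (nhds 0) := by
    have h1 := tendsto_sum_nat_add fun k => γ k ^ 2
    have h2 := (Real.continuous_sqrt.tendsto 0).comp h1
    rwa [Real.sqrt_zero] at h2
  have hτrow : ∀ i n, Real.sqrt (∑ j ∈ range n, γ (i + j) ^ 2) ≤ τ i := by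
    intro i n
    refine Real.sqrt_le_sqrt ?_
    have hs : Summable fun k => γ (k + i) ^ 2 := (summable_nat_add_iff i).mpr hζ
    have h1 := hs.sum_le_tsum (range n) fun k _ => sq_nonneg _
    refine le_trans (le_of_eq ?_) h1
    exact Finset.sum_congr rfl fun j _ => by rw [Nat.add_comm]
  -- growth of G
  obtain ⟨T, hT1, hT⟩ : ∃ T : ℝ, 1 ≤ T ∧ ∀ n, |G n| ≤ T ^ (n + 1) := by
    refine ⟨1 + |ζ| + |G 0| + τ 0, by
      have := abs_nonneg ζ; have := abs_nonneg (G 0); have := hτ0 0; linarith, fun n => ?_⟩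
    have a1 := abs_nonneg ζ
    have a2 := abs_nonneg (G 0)
    have a3 := hτ0 0
    set T := 1 + |ζ| + |G 0| + τ 0 with hTdef
    have hT1 : 1 ≤ T := by linarith
    induction n with
    | zero => rw [zero_add, pow_one]; linarith
    | succ n ih =>
      have h1 : |γ n| ≤ τ 0 := by
        have h2 := hτrow 0 (n + 1)
        have h3 : γ n ^ 2 ≤ ∑ j ∈ range (n + 1), γ (0 + j) ^ 2 := by
          have := Finset.single_le_sum (f := fun j => γ (0 + j) ^ 2) (fun j _ => sq_nonneg _)
            (Finset.self_mem_range_succ n)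
          simpa using this
        rw [← Real.sqrt_sq_eq_abs]
        exact (Real.sqrt_le_sqrt h3).trans h2
      have h4 : G (n + 1) = ζ * G n + γ n := by simp only [hγ]; ring
      have h5 : 1 ≤ T ^ (n + 1) := one_le_pow₀ hT1
      calc |G (n + 1)| ≤ |ζ| * |G n| + |γ n| := by
            rw [h4, ← abs_mul]; exact abs_add_le _ _
        _ ≤ |ζ| * T ^ (n + 1) + τ 0 * T ^ (n + 1) := by
            refine add_le_add (mul_le_mul_of_nonneg_left ih a1) (h1.trans ?_)
            nlinarith
        _ ≤ T * T ^ (n + 1) := by nlinarith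
        _ = T ^ (n + 1 + 1) := by rw [pow_succ' T (n + 1)]
  -- the determinants
  have hdet : ∀ n : ℕ, |((Matrix.of fun i j : Fin n => r ((i : ℕ) + j + 1)).det : ℝ)| =
      (m : ℝ) ^ (2 * n) * |(Matrix.of fun i j : Fin n => G ((i : ℕ) + j + 1)).det| := by
    intro n
    set HF : Matrix (Fin n) (Fin n) ℝ := Matrix.of fun i j : Fin n => (r ((i : ℕ) + j + 1) : ℝ)
      with hHF
    set HG : Matrix (Fin n) (Fin n) ℝ := Matrix.of fun i j : Fin n => G ((i : ℕ) + j + 1) with hHG
    set UG : Matrix (Fin n) (Fin n) ℝ := Matrix.of fun i j : Fin n =>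
      if i ≤ j then G ((j : ℕ) - i) else 0 with hUG
    set F : ℕ → ℝ := fun k => if k = 0 then (m : ℝ) else r k with hF
    set LF : Matrix (Fin n) (Fin n) ℝ := Matrix.of fun i j : Fin n =>
      if j ≤ i then F ((i : ℕ) - j) else 0 with hLF
    have e0 : (((Matrix.of fun i j : Fin n => r ((i : ℕ) + j + 1)).det : ℤ) : ℝ) = HF.det := by
      rw [← eq_intCast (Int.castRingHom ℝ), RingHom.map_det]
      rfl
    have hconv : ∀ N : ℕ, ∑ t ∈ range (N + 2), F (N + 1 - t) * G t = 0 := by
      intro N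
      rw [Finset.sum_range_succ]
      have h1 := hG N
      have h2 : ∑ t ∈ range (N + 1), F (N + 1 - t) * G t =
          ∑ i ∈ Finset.range (N + 1), (r (N + 1 - i) : ℝ) * G i := by
        refine Finset.sum_congr rfl fun t ht => ?_
        rw [Finset.mem_range] at ht
        simp only [hF]
        rw [if_neg (by omega)]
      rw [h2, Nat.sub_self]
      simp only [hF, if_true]
      linarith
    have e1 : HF * UG = -(LF * HG) := by
      rw [eq_neg_iff_add_eq_zero]
      ext i j
      rw [Matrix.add_apply, Matrix.mul_apply, Matrix.mul_apply, Matrix.zero_apply]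
      have s1 : ∑ l : Fin n, HF i l * UG l j =
          ∑ l ∈ range ((j : ℕ) + 1), F ((i : ℕ) + l + 1) * G ((j : ℕ) - l) := by
        have h1 : ∀ l : Fin n, HF i l * UG l j =
            if (l : ℕ) < (j : ℕ) + 1 then F ((i : ℕ) + l + 1) * G ((j : ℕ) - l) else 0 := by
          intro l
          simp only [hHF, hUG, Matrix.of_apply, hF]
          by_cases hl : l ≤ j
          · have hl' : (l : ℕ) < (j : ℕ) + 1 := Nat.lt_succ_of_le hl
            rw [if_pos hl, if_pos hl', if_neg (by omega)]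
          · have hl' : ¬ (l : ℕ) < (j : ℕ) + 1 := fun h => hl (Nat.le_of_lt_succ h)
            rw [if_neg hl, if_neg hl', mul_zero]
        rw [Finset.sum_congr rfl fun l _ => h1 l,
          Fin.sum_univ_eq_sum_range (fun l => if l < (j : ℕ) + 1 then
            F ((i : ℕ) + l + 1) * G ((j : ℕ) - l) else 0) n, ← Finset.sum_filter]
        refine Finset.sum_congr ?_ fun _ _ => rfl
        ext l
        rw [Finset.mem_filter, Finset.mem_range, Finset.mem_range]
        have := j.2
        omega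
      have s2 : ∑ l : Fin n, LF i l * HG l j =
          ∑ l ∈ range ((i : ℕ) + 1), F ((i : ℕ) - l) * G (l + (j : ℕ) + 1) := by
        have h1 : ∀ l : Fin n, LF i l * HG l j =
            if (l : ℕ) < (i : ℕ) + 1 then F ((i : ℕ) - l) * G (l + (j : ℕ) + 1) else 0 := by
          intro l
          simp only [hHG, hLF, Matrix.of_apply]
          by_cases hl : l ≤ i
          · have hl' : (l : ℕ) < (i : ℕ) + 1 := Nat.lt_succ_of_le hl
            rw [if_pos hl, if_pos hl']
          · have hl' : ¬ (l : ℕ) < (i : ℕ) + 1 := fun h => hl (Nat.le_of_lt_succ h)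
            rw [if_neg hl, if_neg hl', zero_mul]
        rw [Finset.sum_congr rfl fun l _ => h1 l,
          Fin.sum_univ_eq_sum_range (fun l => if l < (i : ℕ) + 1 then
            F ((i : ℕ) - l) * G (l + (j : ℕ) + 1) else 0) n, ← Finset.sum_filter]
        refine Finset.sum_congr ?_ fun _ _ => rfl
        ext l
        rw [Finset.mem_filter, Finset.mem_range, Finset.mem_range]
        have := i.2
        omega
      rw [s1, s2, ← hconv ((i : ℕ) + j)]
      have e2 : (i : ℕ) + j + 2 = ((j : ℕ) + 1) + ((i : ℕ) + 1) := by omega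
      rw [e2, Finset.sum_range_add (fun t => F ((i : ℕ) + j + 1 - t) * G t) ((j : ℕ) + 1)
        ((i : ℕ) + 1),
        ← Finset.sum_range_reflect (fun l => F ((i : ℕ) + l + 1) * G ((j : ℕ) - l)) ((j : ℕ) + 1)]
      congr 1
      · refine Finset.sum_congr rfl fun l hl => ?_
        rw [Finset.mem_range] at hl
        congr 2 <;> omega
      · refine Finset.sum_congr rfl fun l hl => ?_
        rw [Finset.mem_range] at hl
        congr 2 <;> omega
    have e2 : UG.det = G 0 ^ n := by
      rw [Matrix.det_of_isUpperTriangular]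
      · simp [hUG]
      · intro i j hij
        simp only [hUG, Matrix.of_apply]
        rw [if_neg]
        exact not_le.mpr hij
    have e3 : LF.det = (m : ℝ) ^ n := by
      rw [Matrix.det_of_isLowerTriangular]
      · simp [hLF, hF]
      · intro i j hij
        simp only [hLF, Matrix.of_apply]
        rw [if_neg]
        exact not_le.mpr hij
    have e4 := congrArg (fun A => |Matrix.det A|) e1
    simp only [Matrix.det_neg, Matrix.det_mul, abs_mul, e2, e3, Fintype.card_fin, abs_pow,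
      abs_neg, abs_one, one_pow, one_mul] at e4
    rw [e0]
    rw [hG0', abs_of_pos (inv_pos.mpr hm), abs_of_pos hm, inv_pow] at e4
    have h5 : (0 : ℝ) < (m : ℝ) ^ n := by positivity
    rw [mul_inv_eq_iff_eq_mul₀ h5.ne'] at e4
    rw [e4, two_mul, pow_add]; ring
  -- Hadamard
  have hbound : ∀ n : ℕ, |(Matrix.of fun i j : Fin (n + 1) => G ((i : ℕ) + j + 1)).det| ≤
      ((n + 1) * T ^ (n + 2)) * ∏ i ∈ range n, τ (i + 1) := by
    intro n
    set B : Matrix (Fin (n + 1)) (Fin (n + 1)) ℝ := Matrix.of fun i j : Fin (n + 1) =>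
      if (i : ℕ) = 0 then G ((j : ℕ) + 1) else γ ((i : ℕ) + j) with hB
    have h1 : (Matrix.of fun i j : Fin (n + 1) => G ((i : ℕ) + j + 1)).det = B.det := by
      refine Matrix.det_eq_of_forall_row_eq_smul_add_pred (fun _ => ζ) (fun j => ?_)
        (fun i j => ?_)
      · simp [hB]
      · simp only [hB, Matrix.of_apply, Fin.val_succ, hγ, Fin.val_castSucc]
        rw [if_neg (by omega)]
        have e : (i : ℕ) + 1 + j = (i : ℕ) + j + 1 := by omega
        rw [e]; ring
    rw [h1]
    refine (HK.hadamard_ineq B).trans ?_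
    rw [Fin.prod_univ_succ]
    refine mul_le_mul ?_ ?_ (Finset.prod_nonneg fun i _ => Real.sqrt_nonneg _) (by positivity)
    · refine Real.sqrt_le_iff.mpr ⟨by positivity, ?_⟩
      have h2 : ∀ j : Fin (n + 1), B 0 j ^ 2 ≤ (T ^ (n + 2)) ^ 2 := by
        intro j
        have h3 : B 0 j = G ((j : ℕ) + 1) := by simp [hB]
        rw [h3, ← sq_abs]
        refine pow_le_pow_left₀ (abs_nonneg _) ((hT _).trans ?_) 2
        exact pow_le_pow_right₀ hT1 (by have := j.2; omega)
      calc ∑ j, B 0 j ^ 2 ≤ ∑ _j : Fin (n + 1), (T ^ (n + 2)) ^ 2 :=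
            Finset.sum_le_sum fun j _ => h2 j
        _ = (n + 1) * (T ^ (n + 2)) ^ 2 := by simp
        _ ≤ ((n + 1) * T ^ (n + 2)) ^ 2 := by
            rw [mul_pow]
            refine mul_le_mul_of_nonneg_right ?_ (by positivity)
            have : (0 : ℝ) ≤ n := Nat.cast_nonneg n
            nlinarith
    · rw [← Fin.prod_univ_eq_prod_range (fun i => τ (i + 1)) n]
      refine Finset.prod_le_prod (fun i _ => Real.sqrt_nonneg _) fun i _ => ?_
      have h3 : ∑ j, B i.succ j ^ 2 = ∑ j ∈ range (n + 1), γ ((i : ℕ) + 1 + j) ^ 2 := by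
        rw [← Fin.sum_univ_eq_sum_range (fun j => γ ((i : ℕ) + 1 + j) ^ 2) (n + 1)]
        refine Finset.sum_congr rfl fun j _ => ?_
        simp [hB]
      rw [h3]
      exact hτrow _ _
  -- conclusion
  have hT0 : 0 ≤ T := by linarith
  have hlim := HK.decay (2 * (m : ℝ) ^ 2 * T) (by positivity) (fun i => τ (i + 1))
    (fun i => hτ0 _) ((Filter.tendsto_add_atTop_iff_nat 1).mpr hτlim)
  have hlim2 := hlim.const_mul ((m : ℝ) ^ 2 * T ^ 2)
  rw [mul_zero] at hlim2
  obtain ⟨N, hN⟩ := Filter.eventually_atTop.mp (hlim2.eventually_lt_const one_pos)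
  refine ⟨N + 1, fun n hn => ?_⟩
  obtain ⟨k, rfl⟩ := Nat.exists_eq_succ_of_ne_zero (show n ≠ 0 by omega)
  have h1 := hdet (k + 1)
  have h2 := hbound k
  have h3 := hN k (by omega)
  have h4 : |((Matrix.of fun i j : Fin (k + 1) => r ((i : ℕ) + j + 1)).det : ℝ)| < 1 := by
    rw [h1]
    have h5 : ((k : ℝ) + 1) ≤ 2 ^ k := by
      have : k + 1 ≤ 2 ^ k := Nat.succ_le_of_lt Nat.lt_two_pow_self
      exact_mod_cast this
    calc (m : ℝ) ^ (2 * (k + 1)) * |(Matrix.of fun i j : Fin (k + 1) => G ((i : ℕ) + j + 1)).det|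
        ≤ (m : ℝ) ^ (2 * (k + 1)) * (((k + 1) * T ^ (k + 2)) * ∏ i ∈ range k, τ (i + 1)) :=
          mul_le_mul_of_nonneg_left h2 (by positivity)
      _ ≤ (m : ℝ) ^ (2 * (k + 1)) * ((2 ^ k * T ^ (k + 2)) * ∏ i ∈ range k, τ (i + 1)) := by
          refine mul_le_mul_of_nonneg_left ?_ (by positivity)
          refine mul_le_mul_of_nonneg_right ?_ (Finset.prod_nonneg fun i _ => hτ0 _)
          exact mul_le_mul_of_nonneg_right h5 (by positivity)
      _ = (m : ℝ) ^ 2 * T ^ 2 * ((2 * (m : ℝ) ^ 2 * T) ^ k * ∏ i ∈ range k, τ (i + 1)) := by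
          rw [mul_pow, mul_pow, ← pow_mul, pow_add T, mul_add, pow_add (m : ℝ), mul_one]
          ring
      _ < 1 := h3
  have h5 : |(Matrix.of fun i j : Fin (k + 1) => r ((i : ℕ) + j + 1)).det| < 1 := by
    exact_mod_cast h4
  exact Int.abs_lt_one_iff.mp h5

end Pool.Agent.MP1f45fc.V
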