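import Pool.Agent.Lib.MP_1f45fc_nt.V.Defs

set_option autoImplicit false

/-!
# Kronecker's criterion

An integer sequence whose large Hankel determinants vanish satisfies a linear recurrence.
-/

open Polynomial

namespace Pool.Agent.MP1f45fc.V

namespace Kron

variable (a : ℕ → ℤ)

/-- the rational polynomial `C` applied to the shifts of `a`, as a linear form -/
noncomputable def L (k : ℕ) : ℚ[X] →ₗ[ℚ] ℚ :=
  Polynomial.lsum fun i => (a (k + i) : ℚ) • LinearMap.id

theorem L_apply (k : ℕ) (C : ℚ[X]) : L a k C = C.sum fun i c => (a (k + i) : ℚ) * c := rfl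

theorem L_monomial (k n : ℕ) (c : ℚ) : L a k (monomial n c) = (a (k + n) : ℚ) * c := by
  rw [L_apply, sum_monomial_index]
  simp

theorem L_mul_monomial (k n : ℕ) (u : ℚ) (C : ℚ[X]) :
    L a k (C * monomial n u) = u * L a (k + n) C := by
  induction C using Polynomial.induction_on' with
  | add p q hp hq => rw [add_mul, map_add, hp, hq, map_add, mul_add]
  | monomial m c =>
    rw [monomial_mul_monomial, L_monomial, L_monomial]
    have : k + (m + n) = k + n + m := by ring
    rw [this]
    ring

theorem L_mul (k : ℕ) (C U : ℚ[X]) :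
    L a k (C * U) = U.sum fun i u => u * L a (k + i) C := by
  induction U using Polynomial.induction_on' with
  | add p q hp hq =>
    rw [mul_add, map_add, hp, hq, sum_add_index]
    · intro i
      simp
    · intro i x y
      ring
  | monomial m c =>
    rw [L_mul_monomial, sum_monomial_index]
    simp

/-- The Hankel matrix. -/
def M (n : ℕ) : Matrix (Fin n) (Fin n) ℚ := Matrix.of fun i j : Fin n => (a ((i : ℕ) + j) : ℚ)

theorem L_eq_mulVec {n : ℕ} (v : Fin n → ℚ) (i : Fin n) :
    L a (i : ℕ) (∑ j : Fin n, monomial (j : ℕ) (v j)) = (M a n).mulVec v i := by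
  rw [map_sum]
  simp only [L_monomial, Matrix.mulVec, dotProduct, M, Matrix.of_apply]

theorem coeff_sum_monomial {n : ℕ} (v : Fin n → ℚ) (j : Fin n) :
    (∑ i : Fin n, monomial (i : ℕ) (v i)).coeff (j : ℕ) = v j := by
  rw [finsetSum_coeff]
  simp only [coeff_monomial]
  rw [Finset.sum_eq_single j]
  · simp
  · intro b _ hb
    rw [if_neg]
    intro h
    exact hb (Fin.ext h)
  · simp

theorem degree_sum_monomial {n : ℕ} (v : Fin n → ℚ) :
    (∑ i : Fin n, monomial (i : ℕ) (v i)).degree < n := by
  refine lt_of_le_of_lt (degree_sum_le _ _) ?_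
  rw [Finset.sup_lt_iff (by exact_mod_cast WithBot.bot_lt_coe n)]
  intro i _
  refine lt_of_le_of_lt (degree_monomial_le _ _) ?_
  exact_mod_cast i.2

/-- A polynomial of degree less than `n` annihilating `n` shifts vanishes if the Hankel matrix
of size `n` is invertible. -/
theorem eq_zero_of_L {n : ℕ} (hn : (M a n).det ≠ 0) (R : ℚ[X]) (hR : R.degree < n)
    (h : ∀ j < n, L a j R = 0) : R = 0 := by
  by_contra hne
  have hv : R = ∑ i : Fin n, monomial (i : ℕ) (R.coeff i) := by
    rw [Fin.sum_univ_eq_sum_range (fun i => monomial i (R.coeff i)) n]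
    have h1 := R.as_sum_range' n ((natDegree_lt_iff_degree_lt hne).2 hR)
    exact h1
  have hker : (M a n).mulVec (fun i => R.coeff i) = 0 := by
    funext i
    rw [← L_eq_mulVec, ← hv]
    exact h i i.2
  have h0 : (fun i : Fin n => R.coeff i) = 0 := by
    by_contra hv0
    exact hn (Matrix.exists_mulVec_eq_zero_iff.1 ⟨_, hv0, hker⟩)
  apply hne
  rw [hv]
  refine Finset.sum_eq_zero fun i _ => ?_
  rw [show R.coeff i = 0 from congrFun h0 i, map_zero]

/-- the criterion over the rationals -/
theorem rational (N : ℕ) (h : ∀ n, N ≤ n → (M a n).det = 0) :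
    ∃ C : ℚ[X], C ≠ 0 ∧ ∀ k : ℕ, L a k C = 0 := by
  classical
  -- the largest invertible Hankel matrix
  obtain ⟨n0, hn0, hmax⟩ : ∃ n0, (M a n0).det ≠ 0 ∧ ∀ n, n0 < n → (M a n).det = 0 := by
    refine ⟨Nat.findGreatest (fun n => (M a n).det ≠ 0) N, ?_, ?_⟩
    · have h0 : (M a 0).det ≠ 0 := by
        rw [Matrix.det_isEmpty]
        exact one_ne_zero
      exact Nat.findGreatest_spec (P := fun n => (M a n).det ≠ 0) (Nat.zero_le N) h0
    · intro n hn
      rcases le_total N n with h1 | h1
      · exact h n h1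
      · by_contra h2
        exact absurd h2 (Nat.findGreatest_is_greatest (P := fun n => (M a n).det ≠ 0) hn h1)
  -- a monic polynomial of degree `n0` annihilating the first `n0` shifts
  obtain ⟨C, hCm, hCd, hC⟩ : ∃ C : ℚ[X], C.Monic ∧ C.natDegree = n0 ∧
      ∀ j < n0, L a j C = 0 := by
    have hu : IsUnit (M a n0).det := isUnit_iff_ne_zero.2 hn0
    set c : Fin n0 → ℚ := (M a n0)⁻¹.mulVec fun j : Fin n0 => -(a ((j : ℕ) + n0) : ℚ) with hc
    have hMc : (M a n0).mulVec c = fun j : Fin n0 => -(a ((j : ℕ) + n0) : ℚ) := by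
      rw [hc, Matrix.mulVec_mulVec, Matrix.mul_nonsing_inv _ hu, Matrix.one_mulVec]
    have hdeg := degree_sum_monomial c
    refine ⟨X ^ n0 + ∑ i : Fin n0, monomial (i : ℕ) (c i), monic_X_pow_add hdeg, ?_, ?_⟩
    · rw [natDegree_add_eq_left_of_degree_lt, natDegree_X_pow]
      rwa [degree_X_pow]
    · intro j hj
      have h1 := L_eq_mulVec a c ⟨j, hj⟩
      rw [hMc] at h1
      simp only at h1
      rw [map_add, h1, ← monomial_one_right_eq_X_pow, L_monomial]
      ring
  refine ⟨C, hCm.ne_zero, ?_⟩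
  by_contra hcon
  push Not at hcon
  have hJ := Nat.find_spec hcon
  have hJmin : ∀ j < Nat.find hcon, L a j C = 0 := fun j hj => by
    by_contra h1
    exact Nat.find_min hcon hj h1
  set J := Nat.find hcon with hJdef
  have hJn : n0 ≤ J := by
    by_contra h1
    exact hJ (hC J (by omega))
  -- a kernel vector of the singular matrix of size `J + 1`
  obtain ⟨v, hv0, hv⟩ := Matrix.exists_mulVec_eq_zero_iff.2 (hmax (J + 1) (by omega))
  set V : ℚ[X] := ∑ i : Fin (J + 1), monomial (i : ℕ) (v i) with hV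
  have hVne : V ≠ 0 := by
    intro h1
    apply hv0
    funext i
    rw [← coeff_sum_monomial v i, ← hV, h1, coeff_zero]
    rfl
  have hVd : V.natDegree < J + 1 := (natDegree_lt_iff_degree_lt hVne).2 (degree_sum_monomial v)
  have hVL : ∀ j < J + 1, L a j V = 0 := fun j hj => by
    have h1 := L_eq_mulVec a v ⟨j, hj⟩
    rw [hv] at h1
    exact h1
  -- division
  set U := V /ₘ C with hU
  have hdiv : V %ₘ C + C * U = V := modByMonic_add_div V C
  have hUd : U.natDegree = V.natDegree - n0 := by
    rw [hU, natDegree_divByMonic V hCm, hCd]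
  have hR : V %ₘ C = 0 := by
    apply eq_zero_of_L a hn0
    · refine lt_of_lt_of_eq (degree_modByMonic_lt V hCm) ?_
      rw [degree_eq_natDegree hCm.ne_zero, hCd]
    · intro j hj
      have h1 : L a j (C * U) = 0 := by
        rw [L_mul, sum_def]
        refine Finset.sum_eq_zero fun i hi => ?_
        have h2 : i ≤ U.natDegree := le_natDegree_of_mem_supp i hi
        rw [hJmin (j + i) (by omega), mul_zero]
      have h3 := congrArg (L a j) hdiv
      rw [map_add, h1, add_zero, hVL j (by omega)] at h3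
      exact h3
  rw [hR, zero_add] at hdiv
  have hUne : U ≠ 0 := by
    intro h1
    apply hVne
    rw [← hdiv, h1, mul_zero]
  have hVdeg : V.natDegree = n0 + U.natDegree := by
    rw [← hdiv, natDegree_mul hCm.ne_zero hUne, hCd]
  have hj : J - U.natDegree < J + 1 := by omega
  have h4 := hVL _ hj
  rw [← hdiv, L_mul, sum_def, Finset.sum_eq_single U.natDegree] at h4
  · have h5 : J - U.natDegree + U.natDegree = J := by omega
    rw [h5] at h4
    rcases mul_eq_zero.1 h4 with h6 | h6
    · exact hUne (leadingCoeff_eq_zero.1 h6)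
    · exact hJ h6
  · intro i hi hne
    have h2 : i ≤ U.natDegree := le_natDegree_of_mem_supp i hi
    rw [hJmin _ (by omega), mul_zero]
  · intro h6
    exact absurd (natDegree_mem_support_of_nonzero hUne) h6

end Kron

open Kron in
/-- **Kronecker's criterion.** -/
theorem kron (a : ℕ → ℤ) (N : ℕ)
    (h : ∀ n, N ≤ n → (Matrix.of fun i j : Fin n => a ((i : ℕ) + j)).det = 0) :
    ∃ C : ℤ[X], C ≠ 0 ∧ ∀ k : ℕ, sh a C k = 0 := by
  obtain ⟨C, hC0, hC⟩ := Kron.rational a N fun n hn => by
    have h1 : M a n = (Matrix.of fun i j : Fin n => a ((i : ℕ) + j)).map (Int.castRingHom ℚ) := by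
      ext i j
      simp [M]
    rw [h1, ← RingHom.mapMatrix_apply, ← RingHom.map_det, h n hn, map_zero]
  obtain ⟨b, hbM, hb⟩ := IsLocalization.integerNormalization_spec (nonZeroDivisors ℤ) C
  set D := IsLocalization.integerNormalization (nonZeroDivisors ℤ) C with hD
  have hb0 : ((b : ℤ) : ℚ) ≠ 0 := by
    exact_mod_cast nonZeroDivisors.ne_zero hbM
  refine ⟨D, ?_, fun k => ?_⟩
  · intro h0
    rw [h0, Polynomial.map_zero] at hb
    have h1 : ((b : ℤ) : ℚ) • C = 0 := by
      rw [Int.cast_smul_eq_zsmul, ← hb]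
    rcases smul_eq_zero.1 h1 with h2 | h2
    · exact hb0 h2
    · exact hC0 h2
  · have h1 : L a k (D.map (algebraMap ℤ ℚ)) = 0 := by
      rw [hb]
      have h2 : (b : ℤ) • C = ((b : ℤ) : ℚ) • C := by
        rw [Int.cast_smul_eq_zsmul]
      rw [h2, map_smul, hC k, smul_zero]
    have h3 : L a k (D.map (algebraMap ℤ ℚ)) = ((sh a D k : ℤ) : ℚ) := by
      rw [Kron.L_apply, sh, Polynomial.sum_def, Polynomial.sum_def]
      rw [support_map_of_injective _ (algebraMap ℤ ℚ).injective_int]
      push_cast
      refine Finset.sum_congr rfl fun i _ => ?_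
      rw [coeff_map]
      simp only [algebraMap_int_eq, eq_intCast]
      ring
    rw [h3] at h1
    exact_mod_cast h1

end Pool.Agent.MP1f45fc.V
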