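import Pool.Agent.Lib.MP_1f45fc_nt.V.Quasi
import Pool.Agent.Lib.MP_1f45fc_nt.V.Hankel
import Pool.Agent.Lib.MP_1f45fc_nt.V.Kron

set_option autoImplicit false

/-!
# Theorem V, V4: the sequence satisfies a linear recurrence
-/

open Polynomial

namespace Pool.Agent.MP1f45fc.V

namespace RatAux

/-- the power series `m + ∑ r k z ^ k` -/
noncomputable def FF (r : ℕ → ℤ) (m : ℝ) : PowerSeries ℝ :=
  PowerSeries.mk fun k => if k = 0 then m else (r k : ℝ)

theorem exists_inv (r : ℕ → ℤ) {m : ℝ} (hm : m ≠ 0) : ∃ G : ℕ → ℝ, m * G 0 = 1 ∧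
    ∀ n : ℕ, m * G (n + 1) + ∑ i ∈ Finset.range (n + 1), (r (n + 1 - i) : ℝ) * G i = 0 := by
  have hc : PowerSeries.constantCoeff (FF r m) ≠ 0 := by
    rw [← PowerSeries.coeff_zero_eq_constantCoeff_apply, FF, PowerSeries.coeff_mk, if_pos rfl]
    exact hm
  have h1 : (FF r m)⁻¹ * FF r m = 1 := PowerSeries.inv_mul_cancel _ hc
  refine ⟨fun n => PowerSeries.coeff n (FF r m)⁻¹, ?_, fun n => ?_⟩
  · have h2 := congrArg (PowerSeries.coeff 0) h1
    rw [PowerSeries.coeff_mul, Finset.Nat.antidiagonal_zero, Finset.sum_singleton,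
      PowerSeries.coeff_one, if_pos rfl] at h2
    rw [FF, PowerSeries.coeff_mk, if_pos rfl] at h2
    rw [mul_comm]
    exact h2
  · have h2 := congrArg (PowerSeries.coeff (n + 1)) h1
    rw [PowerSeries.coeff_mul, PowerSeries.coeff_one, if_neg (Nat.succ_ne_zero n),
      Finset.Nat.sum_antidiagonal_eq_sum_range_succ_mk, Finset.sum_range_succ,
      Nat.sub_self] at h2
    have h3 : PowerSeries.coeff 0 (FF r m) = m := by
      rw [FF, PowerSeries.coeff_mk, if_pos rfl]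
    rw [h3] at h2
    rw [← h2, add_comm, mul_comm m]
    congr 1
    refine Finset.sum_congr rfl fun i hi => ?_
    rw [Finset.mem_range] at hi
    have h4 : PowerSeries.coeff (n + 1 - i) (FF r m) = (r (n + 1 - i) : ℝ) := by
      rw [FF, PowerSeries.coeff_mk, if_neg (by omega)]
    rw [h4, mul_comm]

end RatAux

theorem rat {b p : ℝ} {r : ℕ → ℤ} (hb : 1 < b) (h : LSeq b r p) :
    ∃ C : ℤ[X], C ≠ 0 ∧ ∀ k : ℕ, 1 ≤ k → sh r C k = 0 := by
  have hm0 : (0 : ℤ) < |r 0| + 1 := by positivity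
  have hm0' : (0 : ℝ) < ((|r 0| + 1 : ℤ) : ℝ) := by exact_mod_cast hm0
  have hm : (r 0 : ℝ) < 2 * ((|r 0| + 1 : ℤ) : ℝ) := by
    have h1 : r 0 < 2 * (|r 0| + 1) := by
      have := le_abs_self (r 0)
      have := abs_nonneg (r 0)
      linarith
    exact_mod_cast h1
  obtain ⟨G, hG0, hG⟩ := RatAux.exists_inv r hm0'.ne'
  obtain ⟨ζ, hζ⟩ := quasi hb h _ hm0' hm G hG0 hG
  obtain ⟨N, hN⟩ := hankel_zero r _ hm0 G hG0 hG ζ hζ
  obtain ⟨C, hC0, hC⟩ := kron (fun k => r (k + 1)) N (fun n hn => hN n hn)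
  refine ⟨C, hC0, fun k hk => ?_⟩
  obtain ⟨l, rfl⟩ : ∃ l, k = l + 1 := ⟨k - 1, by omega⟩
  have h2 := hC l
  unfold sh at h2 ⊢
  rw [← h2]
  unfold Polynomial.sum
  refine Finset.sum_congr rfl fun i _ => ?_
  have e : l + 1 + i = l + i + 1 := by omega
  simp only [e]

end Pool.Agent.MP1f45fc.V
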