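import Pool.Agent.Lib.MP_1f45fc_nt.V.Defs

set_option autoImplicit false

/-!
# Theorem V, V5: the annihilating polynomial vanishes at the multiplier
-/

open Polynomial

namespace Pool.Agent.MP1f45fc.V

namespace RootAux

theorem tb_mono (r : ℕ → ℤ) (i j : ℕ) :
    S.tb r (X ^ i) (X ^ j) = (r (Nat.dist i j) : ℝ) := by
  rw [← monomial_one_right_eq_X_pow, ← monomial_one_right_eq_X_pow, S.tb_monomial_aux, one_mul,
    one_mul]

theorem tb_pair (r : ℕ → ℤ) (k : ℕ) (s : ℝ) :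
    S.tb r (X ^ 0 + C s * X ^ k) (X ^ 0 + C s * X ^ k) =
      r 0 + s * r k + (s * r k + s * (s * r 0)) := by
  have h1 : Nat.dist 0 k = k := by simp [Nat.dist]
  have h2 : Nat.dist k 0 = k := by simp [Nat.dist]
  rw [S.tb_add_left, S.tb_add_right, S.tb_add_right, S.tb_C_mul_left, S.tb_C_mul_left,
    S.tb_C_mul_right, S.tb_C_mul_right, tb_mono, tb_mono, tb_mono, tb_mono, Nat.dist_self,
    Nat.dist_self, h1, h2]

theorem abs_le {b p : ℝ} {r : ℕ → ℤ} (hb : b ≠ 0) (h : LSeq b r p) (k : ℕ) :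
    |(r k : ℝ) - p * (b ^ k + b⁻¹ ^ k)| ≤ r 0 - 2 * p := by
  have hbk : b ^ k * b⁻¹ ^ k = 1 := by
    rw [← mul_pow, mul_inv_cancel₀ hb, one_pow]
  have h1 := h (X ^ 0 + C 1 * X ^ k)
  have h2 := h (X ^ 0 + C (-1) * X ^ k)
  rw [tb_pair] at h1 h2
  simp only [pow_zero, eval_add, eval_one, eval_mul, eval_C, eval_pow, eval_X] at h1 h2
  have e1 : 2 * p * ((1 + 1 * b ^ k) * (1 + 1 * b⁻¹ ^ k)) =
      4 * p + 2 * (p * (b ^ k + b⁻¹ ^ k)) := by linear_combination 2 * p * hbk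
  have e2 : 2 * p * ((1 + -1 * b ^ k) * (1 + -1 * b⁻¹ ^ k)) =
      4 * p - 2 * (p * (b ^ k + b⁻¹ ^ k)) := by linear_combination 2 * p * hbk
  rw [e1] at h1
  rw [e2] at h2
  rw [_root_.abs_le]
  constructor <;> linarith

end RootAux

theorem root_of_rat {b p : ℝ} {r : ℕ → ℤ} (hb : 1 < b) (h : LSeq b r p) (hp : p ≠ 0) (C : ℤ[X])
    (hC : ∀ k : ℕ, 1 ≤ k → sh r C k = 0) : aeval b C = 0 := by
  have hb0 : b ≠ 0 := by positivity
  have hev : ∀ x : ℝ, aeval x C = ∑ i ∈ C.support, (C.coeff i : ℝ) * x ^ i := by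
    intro x
    rw [aeval_def, eval₂_eq_sum, Polynomial.sum_def]
    rfl
  set E : ℕ → ℝ := fun k => (r k : ℝ) - p * (b ^ k + b⁻¹ ^ k) with hE
  have hEb : ∀ k, |E k| ≤ (r 0 : ℝ) - 2 * p := fun k => RootAux.abs_le hb0 h k
  have hid : ∀ k : ℕ, 1 ≤ k → p * b ^ k * aeval b C + p * b⁻¹ ^ k * aeval b⁻¹ C +
      ∑ i ∈ C.support, (C.coeff i : ℝ) * E (k + i) = 0 := by
    intro k hk
    have h1 : ((sh r C k : ℤ) : ℝ) = 0 := by rw [hC k hk, Int.cast_zero]
    unfold sh at h1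
    rw [Polynomial.sum_def, Int.cast_sum] at h1
    rw [hev, hev, Finset.mul_sum, Finset.mul_sum, ← Finset.sum_add_distrib,
      ← Finset.sum_add_distrib, ← h1]
    refine Finset.sum_congr rfl fun i _ => ?_
    rw [hE]
    push_cast
    ring
  set K : ℝ := |p| * |aeval b⁻¹ C| + ∑ i ∈ C.support, |(C.coeff i : ℝ)| * ((r 0 : ℝ) - 2 * p)
    with hK
  have hbd : ∀ k : ℕ, 1 ≤ k → |p * aeval b C| * b ^ k ≤ K := by
    intro k hk
    have h2 := hid k hk
    have h3 : p * aeval b C * b ^ k = -(p * b⁻¹ ^ k * aeval b⁻¹ C) -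
        ∑ i ∈ C.support, (C.coeff i : ℝ) * E (k + i) := by linarith
    have h4 : |p * aeval b C| * b ^ k = |p * aeval b C * b ^ k| := by
      rw [abs_mul (p * aeval b C), abs_of_pos (by positivity : (0 : ℝ) < b ^ k)]
    rw [h4, h3]
    have h5 : |∑ i ∈ C.support, (C.coeff i : ℝ) * E (k + i)| ≤
        ∑ i ∈ C.support, |(C.coeff i : ℝ)| * ((r 0 : ℝ) - 2 * p) := by
      refine (Finset.abs_sum_le_sum_abs _ _).trans (Finset.sum_le_sum fun i _ => ?_)
      rw [abs_mul]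
      exact mul_le_mul_of_nonneg_left (hEb _) (abs_nonneg _)
    have h6 : |p * b⁻¹ ^ k * aeval b⁻¹ C| ≤ |p| * |aeval b⁻¹ C| := by
      rw [abs_mul, abs_mul]
      have h7 : |b⁻¹ ^ k| ≤ 1 := by
        rw [abs_of_pos (by positivity)]
        exact pow_le_one₀ (by positivity) (inv_le_one_of_one_le₀ hb.le)
      have h8 : |p| * |b⁻¹ ^ k| ≤ |p| * 1 := mul_le_mul_of_nonneg_left h7 (abs_nonneg _)
      rw [mul_one] at h8
      exact mul_le_mul_of_nonneg_right h8 (abs_nonneg _)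
    calc |-(p * b⁻¹ ^ k * aeval b⁻¹ C) - ∑ i ∈ C.support, (C.coeff i : ℝ) * E (k + i)|
        ≤ |-(p * b⁻¹ ^ k * aeval b⁻¹ C)| + |∑ i ∈ C.support, (C.coeff i : ℝ) * E (k + i)| :=
          abs_sub _ _
      _ ≤ K := by
          rw [abs_neg]
          exact add_le_add h6 h5
  by_contra hne
  have hpos : 0 < |p * aeval b C| := abs_pos.mpr (mul_ne_zero hp hne)
  obtain ⟨k, hk⟩ := ((tendsto_pow_atTop_atTop_of_one_lt hb).eventually
    (Filter.eventually_gt_atTop (K / |p * aeval b C|))).and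
    (Filter.eventually_ge_atTop 1) |>.exists
  have h9 := hbd k hk.2
  have h10 := hk.1
  rw [div_lt_iff₀ hpos] at h10
  linarith

end Pool.Agent.MP1f45fc.V
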