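import Pool.Agent.Lib.MP_1f45fc_nt.V.Ef
import Pool.Agent.Lib.MP_1f45fc_nt.V.Rat
import Pool.Agent.Lib.MP_1f45fc_nt.V.Root

set_option autoImplicit false

/-!
# Theorem V, the limit argument
-/

open Polynomial Filter Topology

namespace Pool.Agent.MP1f45fc.V

/-! ### Limits along an ultrafilter -/

lemma ultra_real (U : Ultrafilter ℕ) (x : ℕ → ℝ) (K : ℝ)
    (h : ∀ᶠ n in (U : Filter ℕ), |x n| ≤ K) : ∃ l, Tendsto x (U : Filter ℕ) (𝓝 l) := by
  have h1 : ((U.map x : Ultrafilter ℝ) : Filter ℝ) ≤ 𝓟 (Set.Icc (-K) K) := by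
    rw [le_principal_iff, Ultrafilter.mem_coe, Ultrafilter.mem_map]
    filter_upwards [h] with n hn
    exact abs_le.mp hn
  obtain ⟨l, _, hl⟩ := isCompact_Icc.ultrafilter_le_nhds _ h1
  exact ⟨l, hl⟩

lemma ultra_int (U : Ultrafilter ℕ) (x : ℕ → ℤ) (K : ℝ)
    (h : ∀ᶠ n in (U : Filter ℕ), |(x n : ℝ)| ≤ K) : ∃ z : ℤ, ∀ᶠ n in (U : Filter ℕ), x n = z := by
  obtain ⟨M, hM⟩ := exists_nat_ge K
  have h1 : ((U.map x : Ultrafilter ℤ) : Filter ℤ) ≤ 𝓟 (Set.Icc (-(M : ℤ)) M) := by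
    rw [le_principal_iff, Ultrafilter.mem_coe, Ultrafilter.mem_map]
    filter_upwards [h] with n hn
    have h2 : |(x n : ℝ)| ≤ (M : ℝ) := hn.trans hM
    rw [Set.mem_preimage, Set.mem_Icc, ← abs_le]
    exact_mod_cast h2
  obtain ⟨z, _, hz⟩ := (Set.finite_Icc (-(M : ℤ)) M).isCompact.ultrafilter_le_nhds _ h1
  refine ⟨z, ?_⟩
  rw [nhds_discrete] at hz
  have h3 : ∀ᶠ y in ((U.map x : Ultrafilter ℤ) : Filter ℤ), y = z := hz (by simp)
  exact h3

/-! ### The Toeplitz form -/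

lemma tb_congr {r r' : ℕ → ℤ} (N : ℕ) (h : ∀ k ≤ N, r k = r' k) (f g : ℝ[X])
    (hf : f.natDegree ≤ N) (hg : g.natDegree ≤ N) : S.tb r f g = S.tb r' f g := by
  rw [S.tb_range r (N + 1) f g (by omega) (by omega),
    S.tb_range r' (N + 1) f g (by omega) (by omega)]
  refine Finset.sum_congr rfl fun i hi => Finset.sum_congr rfl fun j hj => ?_
  rw [Finset.mem_range] at hi hj
  rw [h (Nat.dist i j) (by unfold Nat.dist; omega)]

lemma tb_X_pow_mul (r : ℕ → ℤ) (k : ℕ) (f g : ℝ[X]) :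
    S.tb r (X ^ k * f) (X ^ k * g) = S.tb r f g := by
  induction k with
  | zero => simp
  | succ k ih => rw [pow_succ', mul_assoc, mul_assoc, S.tb_X_mul, ih]

lemma tb_zero_left (r : ℕ → ℤ) (g : ℝ[X]) : S.tb r 0 g = 0 := by
  have h := S.tb_C_mul_left r 0 0 g
  simpa using h

lemma tb_sum_left {ι : Type} (r : ℕ → ℤ) (s : Finset ι) (F : ι → ℝ[X]) (g : ℝ[X]) :
    S.tb r (∑ i ∈ s, F i) g = ∑ i ∈ s, S.tb r (F i) g := by
  classical
  induction s using Finset.induction_on with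
  | empty => simp [tb_zero_left]
  | insert a s ha ih => rw [Finset.sum_insert ha, Finset.sum_insert ha, S.tb_add_left, ih]

/-- the autocorrelation of `C` vanishes beyond the degree -/
lemma gam_zero {r : ℕ → ℤ} (C : ℤ[X]) (hC : ∀ k : ℕ, 1 ≤ k → sh r C k = 0) (k : ℕ)
    (hk : C.natDegree < k) : S.tb r (C.map (Int.castRingHom ℝ))
      (X ^ k * C.map (Int.castRingHom ℝ)) = 0 := by
  set Cr := C.map (Int.castRingHom ℝ) with hCr
  have h1 : Cr = ∑ l ∈ Finset.range (C.natDegree + 1), Polynomial.C (Cr.coeff l) * X ^ l := by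
    refine Polynomial.as_sum_range' Cr (C.natDegree + 1) ?_ |>.trans ?_
    · exact Nat.lt_succ_of_le natDegree_map_le
    · refine Finset.sum_congr rfl fun l _ => ?_
      rw [C_mul_X_pow_eq_monomial]
  conv_lhs => rw [h1]
  rw [tb_sum_left]
  refine Finset.sum_eq_zero fun l hl => ?_
  rw [Finset.mem_range] at hl
  rw [S.tb_C_mul_left]
  have h3 : (X : ℝ[X]) ^ k * Cr = X ^ l * (X ^ (k - l) * Cr) := by
    rw [← mul_assoc, ← pow_add, Nat.add_sub_cancel' (by omega)]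
  have h4 : (∑ l ∈ Finset.range (C.natDegree + 1), Polynomial.C (Cr.coeff l) * X ^ l) = Cr :=
    h1.symm
  have h5 : S.tb r (X ^ l) (X ^ l * (X ^ (k - l) * Cr)) = S.tb r 1 (X ^ (k - l) * Cr) := by
    have := tb_X_pow_mul r l 1 (X ^ (k - l) * Cr)
    rwa [mul_one] at this
  rw [h4, h3, h5, hCr, tb_one_left, hC (k - l) (by omega)]
  simp

/-! ### Bilinear expansions -/

lemma ef_zero_left (b p : ℝ) (r : ℕ → ℤ) (h : ℝ[X]) : ef b r p 0 h = 0 := by
  have := ef_C_mul_left b p r 0 0 h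
  simpa using this

lemma ef_sum_left (b p : ℝ) (r : ℕ → ℤ) (s : Finset ℕ) (a : ℕ → ℝ) (Y : ℕ → ℝ[X]) (h : ℝ[X]) :
    ef b r p (∑ i ∈ s, C (a i) * Y i) h = ∑ i ∈ s, a i * ef b r p (Y i) h := by
  induction s using Finset.induction_on with
  | empty => simp [ef_zero_left]
  | insert i s hi ih =>
    rw [Finset.sum_insert hi, Finset.sum_insert hi, ef_add_left, ef_C_mul_left, ih]

lemma ef_expand (b p : ℝ) (r : ℕ → ℤ) (s : Finset ℕ) (a : ℕ → ℝ) (Y : ℕ → ℝ[X]) (x : ℝ[X]) :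
    ef b r p (x + ∑ i ∈ s, C (a i) * Y i) (x + ∑ i ∈ s, C (a i) * Y i) =
      ef b r p x x + 2 * ∑ i ∈ s, a i * ef b r p x (Y i) +
        ∑ i ∈ s, ∑ j ∈ s, a i * a j * ef b r p (Y i) (Y j) := by
  set T := ∑ i ∈ s, C (a i) * Y i with hT
  have h1 : ef b r p x T = ∑ i ∈ s, a i * ef b r p x (Y i) := by
    rw [ef_comm, hT, ef_sum_left]
    exact Finset.sum_congr rfl fun i _ => by rw [ef_comm]
  have h3 : ∀ h : ℝ[X], ef b r p T h = ∑ i ∈ s, a i * ef b r p (Y i) h := fun h =>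
    ef_sum_left b p r s a Y h
  have h2 : ef b r p T T = ∑ i ∈ s, ∑ j ∈ s, a i * a j * ef b r p (Y i) (Y j) := by
    rw [h3]
    refine Finset.sum_congr rfl fun i _ => ?_
    rw [ef_comm, h3, Finset.mul_sum]
    refine Finset.sum_congr rfl fun j _ => ?_
    rw [ef_comm b p r (Y j) (Y i)]; ring
  rw [ef_add_left, ef_comm b p r x (x + T), ef_comm b p r T (x + T), ef_add_left, ef_add_left,
    ef_comm b p r T x, h1, h2]
  ring

lemma band (W D : ℕ) (x : ℕ → ℝ) (G : ℕ → ℕ → ℝ) (H : ℝ) (hH : 0 ≤ H)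
    (hG : ∀ i j, |G i j| ≤ H) (hG0 : ∀ i j, D < Nat.dist i j → G i j = 0) :
    ∑ i ∈ Finset.range W, ∑ j ∈ Finset.range W, x i * x j * G i j ≤
      H * (2 * D + 1) * ∑ i ∈ Finset.range W, x i ^ 2 := by
  have h1 : ∀ i j, x i * x j * G i j ≤
      (if Nat.dist i j ≤ D then H / 2 * x i ^ 2 else 0) +
      (if Nat.dist i j ≤ D then H / 2 * x j ^ 2 else 0) := by
    intro i j
    by_cases hij : Nat.dist i j ≤ D
    · rw [if_pos hij, if_pos hij]
      have h2 : x i * x j * G i j ≤ |x i * x j| * H := by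
        calc x i * x j * G i j ≤ |x i * x j * G i j| := le_abs_self _
          _ = |x i * x j| * |G i j| := abs_mul _ _
          _ ≤ |x i * x j| * H := mul_le_mul_of_nonneg_left (hG i j) (abs_nonneg _)
      have h3 : |x i * x j| ≤ (x i ^ 2 + x j ^ 2) / 2 := by
        rw [abs_le]; constructor <;> nlinarith [sq_nonneg (x i + x j), sq_nonneg (x i - x j)]
      nlinarith [mul_le_mul_of_nonneg_right h3 hH]
    · rw [hG0 i j (not_le.mp hij), if_neg hij, if_neg hij]
      simp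
  have hcard : ∀ i, ((Finset.range W).filter fun j => Nat.dist i j ≤ D).card ≤ 2 * D + 1 := by
    intro i
    have h2 : ((Finset.range W).filter fun j => Nat.dist i j ≤ D) ⊆ Finset.Icc (i - D) (i + D) := by
      intro j hj
      rw [Finset.mem_filter] at hj
      rw [Finset.mem_Icc]
      have := hj.2
      unfold Nat.dist at this
      omega
    refine (Finset.card_le_card h2).trans ?_
    rw [Nat.card_Icc]; omega
  have hrow : ∀ (i : ℕ) (c : ℝ), 0 ≤ c →
      ∑ j ∈ Finset.range W, (if Nat.dist i j ≤ D then c else 0) ≤ (2 * D + 1) * c := by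
    intro i c hc
    rw [← Finset.sum_filter, Finset.sum_const, nsmul_eq_mul]
    refine mul_le_mul_of_nonneg_right ?_ hc
    exact_mod_cast hcard i
  calc ∑ i ∈ Finset.range W, ∑ j ∈ Finset.range W, x i * x j * G i j
      ≤ ∑ i ∈ Finset.range W, ∑ j ∈ Finset.range W,
        ((if Nat.dist i j ≤ D then H / 2 * x i ^ 2 else 0) +
        (if Nat.dist i j ≤ D then H / 2 * x j ^ 2 else 0)) :=
        Finset.sum_le_sum fun i _ => Finset.sum_le_sum fun j _ => h1 i j
    _ = ∑ i ∈ Finset.range W, ∑ j ∈ Finset.range W,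
          (if Nat.dist i j ≤ D then H / 2 * x i ^ 2 else 0) +
        ∑ j ∈ Finset.range W, ∑ i ∈ Finset.range W,
          (if Nat.dist j i ≤ D then H / 2 * x j ^ 2 else 0) := by
        simp only [Finset.sum_add_distrib]
        congr 1
        rw [Finset.sum_comm]
        refine Finset.sum_congr rfl fun j _ => Finset.sum_congr rfl fun i _ => ?_
        rw [Nat.dist_comm]
    _ ≤ ∑ i ∈ Finset.range W, (2 * D + 1) * (H / 2 * x i ^ 2) +
        ∑ j ∈ Finset.range W, (2 * D + 1) * (H / 2 * x j ^ 2) :=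
        add_le_add (Finset.sum_le_sum fun i _ => hrow i _ (by positivity))
          (Finset.sum_le_sum fun i _ => hrow i _ (by positivity))
    _ = H * (2 * D + 1) * ∑ i ∈ Finset.range W, x i ^ 2 := by
        rw [← Finset.sum_add_distrib, Finset.mul_sum]
        refine Finset.sum_congr rfl fun i _ => ?_
        ring

/-! ### The limit argument -/

theorem limit_seq {M b : ℝ} (hb : 1 < b) (bn : ℕ → ℝ) (hinj : Function.Injective bn)
    (hlim : Tendsto bn atTop (𝓝 b)) (rn : ℕ → ℕ → ℤ) (pn : ℕ → ℝ)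
    (h : ∀ n, 1 < bn n ∧ LSeq (bn n) (rn n) (pn n) ∧ 1 ≤ pn n ∧ pn n ≤ M ∧
      |(rn n 0 : ℝ)| ≤ M) :
    ∃ C : ℤ[X], C ≠ 0 ∧ aeval b C = 0 ∧ ∃ (t : ℕ → ℤ) (w : ℝ) (η : ℕ → ℝ), w ≠ 0 ∧
      (Summable fun j => η j ^ 2) ∧ ∀ j : ℕ, (t j : ℝ) = w * b ^ j + η j := by
  classical
  obtain ⟨U, hUat, hUcof⟩ : ∃ U : Ultrafilter ℕ, (U : Filter ℕ) ≤ atTop ∧
      (U : Filter ℕ) ≤ cofinite :=
    ⟨Filter.hyperfilter ℕ, Nat.hyperfilter_le_atTop, Filter.hyperfilter_le_cofinite⟩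
  have hbU : Tendsto bn (U : Filter ℕ) (𝓝 b) := hlim.mono_left hUat
  have hM1 : 1 ≤ M := (h 0).2.2.1.trans (h 0).2.2.2.1
  have hb0 : b ≠ 0 := by positivity
  have hbn0 : ∀ n, bn n ≠ 0 := fun n => by have := (h n).1; positivity
  have hbi : Tendsto (fun n => (bn n)⁻¹) (U : Filter ℕ) (𝓝 b⁻¹) := hbU.inv₀ hb0
  have hb1 : ∀ᶠ n in (U : Filter ℕ), bn n < b + 1 :=
    hbU.eventually_lt_const (by linarith)
  have hb2 : ∀ᶠ n in (U : Filter ℕ), (1 + b) / 2 < bn n :=
    hbU.eventually_const_lt (by linarith)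
  have hev : ∀ f : ℝ[X], Tendsto (fun n => f.eval (bn n)) (U : Filter ℕ) (𝓝 (f.eval b)) :=
    fun f => (f.continuous.tendsto b).comp hbU
  have hevi : ∀ f : ℝ[X], Tendsto (fun n => f.eval (bn n)⁻¹) (U : Filter ℕ) (𝓝 (f.eval b⁻¹)) :=
    fun f => (f.continuous.tendsto b⁻¹).comp hbi
  have hr0 : ∀ n, (rn n 0 : ℝ) - 2 * pn n ≤ M := fun n => by
    have h1 := (abs_le.mp (h n).2.2.2.2).2
    have h2 := (h n).2.2.1
    linarith
  -- the limit sequence
  have hrk : ∀ k, ∃ z : ℤ, ∀ᶠ n in (U : Filter ℕ), rn n k = z := by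
    intro k
    refine ultra_int U (fun n => rn n k) (M + M * ((b + 1) ^ k + 1)) ?_
    filter_upwards [hb1] with n hn
    have h1 := (lseq_abs_le (hbn0 n) (h n).2.1 k).trans (hr0 n)
    have h2 : bn n ^ k ≤ (b + 1) ^ k :=
      pow_le_pow_left₀ (by linarith [(h n).1]) hn.le k
    have h3 : (bn n)⁻¹ ^ k ≤ 1 :=
      pow_le_one₀ (by have := (h n).1; positivity) (inv_le_one_of_one_le₀ (h n).1.le)
    have h4 : 0 < bn n ^ k := by have := (h n).1; positivity
    have h5 : 0 < (bn n)⁻¹ ^ k := by have := (h n).1; positivity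
    have h6 : pn n * (bn n ^ k + (bn n)⁻¹ ^ k) ≤ M * ((b + 1) ^ k + 1) :=
      mul_le_mul (h n).2.2.2.1 (by linarith) (by positivity) (by linarith)
    have h7 : 0 ≤ pn n * (bn n ^ k + (bn n)⁻¹ ^ k) :=
      mul_nonneg (by linarith [(h n).2.2.1]) (by positivity)
    rw [abs_le] at h1 ⊢
    constructor <;> linarith [h1.1, h1.2]
  choose r hr using hrk
  obtain ⟨p, hp⟩ := ultra_real U pn M (Eventually.of_forall fun n => by
    rw [abs_of_nonneg (by linarith [(h n).2.2.1])]; exact (h n).2.2.2.1)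
  have hp1 : 1 ≤ p := ge_of_tendsto hp (Eventually.of_forall fun n => (h n).2.2.1)
  have rall : ∀ N : ℕ, ∀ᶠ n in (U : Filter ℕ), ∀ k ≤ N, rn n k = r k := by
    intro N
    exact (Filter.eventually_all_finite (Set.finite_Iic N)).mpr fun k _ => hr k
  have htb : ∀ f g : ℝ[X], Tendsto (fun n => S.tb (rn n) f g) (U : Filter ℕ)
      (𝓝 (S.tb r f g)) := by
    intro f g
    refine tendsto_const_nhds.congr' ?_
    filter_upwards [rall (max f.natDegree g.natDegree)] with n hn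
    exact (tb_congr _ hn f g (le_max_left _ _) (le_max_right _ _)).symm
  have hef : ∀ f g : ℝ[X], Tendsto (fun n => ef (bn n) (rn n) (pn n) f g) (U : Filter ℕ)
      (𝓝 (ef b r p f g)) := by
    intro f g
    unfold ef
    exact (htb f g).sub (hp.mul (((hev f).mul (hevi g)).add ((hevi f).mul (hev g))))
  have hL : LSeq b r p := by
    intro f
    have h1 : Tendsto (fun n => 2 * pn n * (f.eval (bn n) * f.eval (bn n)⁻¹)) (U : Filter ℕ)
        (𝓝 (2 * p * (f.eval b * f.eval b⁻¹))) :=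
      (tendsto_const_nhds.mul hp).mul ((hev f).mul (hevi f))
    exact le_of_tendsto_of_tendsto' h1 (htb f f) fun n => (h n).2.1 f
  obtain ⟨C, hC0, hC⟩ := rat hb hL
  have hCb := root_of_rat hb hL (by linarith) C hC
  refine ⟨C, hC0, hCb, ?_⟩
  set Cr := C.map (Int.castRingHom ℝ) with hCr
  have hCrb : Cr.eval b = 0 := by
    rw [hCr, eval_map, ← hCb]; rfl
  have hCr0 : Cr ≠ 0 := by
    rw [hCr, Ne, Polynomial.map_eq_zero_iff (RingHom.injective_int _)]
    exact hC0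
  -- the size of the hyperbolic part
  set kn : ℕ → ℝ := fun n => pn n * Cr.eval (bn n) with hkn
  have hk0 : Tendsto kn (U : Filter ℕ) (𝓝 0) := by
    have := hp.mul (hev Cr)
    rwa [hCrb, mul_zero] at this
  have hkne : ∀ᶠ n in (U : Filter ℕ), kn n ≠ 0 := by
    have h1 : {n | Cr.eval (bn n) = 0}.Finite := by
      refine (Cr.roots.toFinset.finite_toSet.preimage hinj.injOn).subset fun n hn => ?_
      rw [Set.mem_preimage, Finset.mem_coe, Multiset.mem_toFinset, mem_roots hCr0]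
      exact hn
    have h2 : ∀ᶠ n in (U : Filter ℕ), ¬ Cr.eval (bn n) = 0 := hUcof h1.compl_mem_cofinite
    filter_upwards [h2] with n hn
    exact mul_ne_zero (by linarith [(h n).2.2.1]) hn
  have hKex : ∀ n, ∃ K : ℕ, kn n ≠ 0 → |kn n| < 1 →
      1 ≤ |kn n| * bn n ^ K ∧ |kn n| * bn n ^ K ≤ bn n := by
    intro n
    by_cases h1 : kn n ≠ 0 ∧ |kn n| < 1
    · have hpos : 0 < |kn n| := abs_pos.mpr h1.1
      obtain ⟨m, hm1, hm2⟩ := exists_nat_pow_near (one_le_inv_iff₀.mpr ⟨hpos, h1.2.le⟩) (h n).1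
      refine ⟨m + 1, fun _ _ => ⟨?_, ?_⟩⟩
      · rw [inv_lt_iff_one_lt_mul₀ hpos] at hm2
        rw [mul_comm]; linarith
      · rw [pow_succ, ← mul_assoc]
        have h3 : |kn n| * bn n ^ m ≤ 1 := by
          rw [← le_div_iff₀' hpos, one_div]; exact hm1
        have h4 := (h n).1
        nlinarith
    · exact ⟨0, fun a b => absurd ⟨a, b⟩ h1⟩
  choose K hK using hKex
  have hk1 : ∀ᶠ n in (U : Filter ℕ), |kn n| < 1 := by
    have := hk0.abs
    rw [abs_zero] at this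
    exact this.eventually_lt_const one_pos
  have hK' : ∀ᶠ n in (U : Filter ℕ), 1 ≤ |kn n| * bn n ^ K n ∧ |kn n| * bn n ^ K n ≤ bn n := by
    filter_upwards [hkne, hk1] with n h1 h2
    exact hK n h1 h2
  have hKtop : Tendsto K (U : Filter ℕ) atTop := by
    rw [tendsto_atTop]
    intro A
    have h1 : Tendsto (fun n => |kn n| * (b + 1) ^ A) (U : Filter ℕ) (𝓝 0) := by
      have := hk0.abs.mul_const ((b + 1) ^ A)
      rwa [abs_zero, zero_mul] at this
    filter_upwards [h1.eventually_lt_const one_pos, hK', hb1] with n h2 h3 h4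
    by_contra hcon
    push Not at hcon
    have h5 : bn n ^ K n ≤ (b + 1) ^ A :=
      (pow_le_pow_left₀ (by linarith [(h n).1]) h4.le _).trans
        (pow_le_pow_right₀ (by linarith) hcon.le)
    have h6 := mul_le_mul_of_nonneg_left h5 (abs_nonneg (kn n))
    linarith [h3.1]
  -- the limit w
  obtain ⟨w, hw⟩ := ultra_real U (fun n => kn n * bn n ^ K n) (b + 1) (by
    filter_upwards [hK', hb1] with n h1 h2
    rw [abs_mul, abs_of_pos (pow_pos (zero_lt_one.trans (h n).1) (K n))]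
    linarith [h1.2])
  have hw1 : 1 ≤ |w| := by
    refine ge_of_tendsto hw.abs ?_
    filter_upwards [hK'] with n h1
    rw [abs_mul, abs_of_pos (pow_pos (zero_lt_one.trans (h n).1) (K n))]
    exact h1.1
  have hw0 : w ≠ 0 := by
    intro h0
    rw [h0, abs_zero] at hw1
    linarith
  -- the limit η
  have hG : ∀ i j, Tendsto (fun n => ef (bn n) (rn n) (pn n) (X ^ (K n + i) * Cr)
      (X ^ (K n + j) * Cr)) (U : Filter ℕ) (𝓝 (ef b r p (X ^ i * Cr) (X ^ j * Cr))) := by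
    intro i j
    refine (hef (X ^ i * Cr) (X ^ j * Cr)).congr fun n => ?_
    rw [pow_add, pow_add, mul_assoc, mul_assoc, ef_X_pow_mul (hbn0 n)]
  have hen : ∀ j, ∃ l, Tendsto (fun n => ef (bn n) (rn n) (pn n) 1 (X ^ (K n + j) * Cr))
      (U : Filter ℕ) (𝓝 l) := by
    intro j
    refine ultra_real U _ (1 + (ef b r p 1 1 + 1) * (ef b r p (X ^ j * Cr) (X ^ j * Cr) + 1)) ?_
    have e0 := ef_nonneg hL 1
    have e1 := ef_nonneg hL (X ^ j * Cr)
    filter_upwards [(hef 1 1).eventually_lt_const (lt_add_one _),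
      (hG j j).eventually_lt_const (lt_add_one _)] with n h1 h2
    have h3 := ef_cs (h n).2.1 1 (X ^ (K n + j) * Cr)
    have h4 := ef_nonneg (h n).2.1 1
    have h5 := ef_nonneg (h n).2.1 (X ^ (K n + j) * Cr)
    have h6 : ef (bn n) (rn n) (pn n) 1 1 * ef (bn n) (rn n) (pn n) (X ^ (K n + j) * Cr)
        (X ^ (K n + j) * Cr) ≤ (ef b r p 1 1 + 1) * (ef b r p (X ^ j * Cr) (X ^ j * Cr) + 1) :=
      mul_le_mul h1.le h2.le h5 (by linarith)
    set x := ef (bn n) (rn n) (pn n) 1 (X ^ (K n + j) * Cr) with hx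
    have h7 : |x| ≤ 1 + x ^ 2 := by
      rw [abs_le]; constructor <;> nlinarith [sq_nonneg (x - 1), sq_nonneg (x + 1)]
    linarith
  choose η hη using hen
  -- the integers
  have hsh : ∀ j, ∃ z : ℤ, (z : ℝ) = w * b ^ j + η j := by
    intro j
    have e1 : ∀ n, (sh (rn n) C (K n + j) : ℝ) = kn n * bn n ^ K n * bn n ^ j +
        ef (bn n) (rn n) (pn n) 1 (X ^ (K n + j) * Cr) +
        pn n * Cr.eval (bn n)⁻¹ * ((bn n)⁻¹ ^ K n * (bn n)⁻¹ ^ j) := by
      intro n
      rw [← tb_one_left]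
      unfold ef
      simp only [eval_one, eval_mul, eval_pow, eval_X, one_mul, hkn, ← hCr]
      rw [pow_add, pow_add]
      ring
    have hinv : Tendsto (fun n => (bn n)⁻¹ ^ K n) (U : Filter ℕ) (𝓝 0) := by
      have h1 : Tendsto (fun n => (((1 + b) / 2)⁻¹) ^ K n) (U : Filter ℕ) (𝓝 0) :=
        (tendsto_pow_atTop_nhds_zero_of_lt_one (by positivity)
          (inv_lt_one_of_one_lt₀ (by linarith))).comp hKtop
      refine squeeze_zero' (Eventually.of_forall fun n => by have := (h n).1; positivity) ?_ h1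
      filter_upwards [hb2] with n hn
      exact pow_le_pow_left₀ (by have := (h n).1; positivity)
        (inv_anti₀ (by linarith) hn.le) _
    have e2 : Tendsto (fun n => (sh (rn n) C (K n + j) : ℝ)) (U : Filter ℕ)
        (𝓝 (w * b ^ j + η j)) := by
      have h1 := ((hw.mul (hbU.pow j)).add (hη j)).add
        ((hp.mul (hevi Cr)).mul (hinv.mul (hbi.pow j)))
      rw [zero_mul, mul_zero, add_zero] at h1
      exact h1.congr fun n => (e1 n).symm
    obtain ⟨z, hz⟩ := ultra_int U (fun n => sh (rn n) C (K n + j)) (|w * b ^ j + η j| + 1) (by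
      filter_upwards [e2.abs.eventually_lt_const (lt_add_one _)] with n hn using hn.le)
    refine ⟨z, tendsto_nhds_unique (tendsto_const_nhds.congr' ?_) e2⟩
    filter_upwards [hz] with n hn
    rw [hn]
  choose t ht using hsh
  refine ⟨t, w, η, hw0, ?_, ht⟩
  -- Bessel
  set Γ : ℕ → ℕ → ℝ := fun i j => ef b r p (X ^ i * Cr) (X ^ j * Cr) with hΓ
  set H := ef b r p Cr Cr with hH
  have hH0 : 0 ≤ H := ef_nonneg hL Cr
  have hΓd : ∀ i, Γ i i = H := fun i => ef_X_pow_mul hb0 p r i Cr Cr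
  have hΓle : ∀ i j, |Γ i j| ≤ H := by
    intro i j
    have h1 := ef_cs hL (X ^ i * Cr) (X ^ j * Cr)
    rw [ef_X_pow_mul hb0, ef_X_pow_mul hb0] at h1
    exact abs_le_of_sq_le_sq (by nlinarith) hH0
  have hΓtb : ∀ i j, Γ i j = S.tb r (X ^ i * Cr) (X ^ j * Cr) := by
    intro i j
    simp only [hΓ]
    unfold ef
    simp only [eval_mul, hCrb]
    ring
  have hΓ0 : ∀ i j, C.natDegree < Nat.dist i j → Γ i j = 0 := by
    intro i j hij
    rw [hΓtb]
    rcases le_total i j with hle | hle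
    · have e : X ^ j * Cr = X ^ i * (X ^ (j - i) * Cr) := by
        rw [← mul_assoc, ← pow_add, Nat.add_sub_cancel' hle]
      rw [e, tb_X_pow_mul]
      refine gam_zero C hC (j - i) ?_
      unfold Nat.dist at hij; omega
    · have e : X ^ i * Cr = X ^ j * (X ^ (i - j) * Cr) := by
        rw [← mul_assoc, ← pow_add, Nat.add_sub_cancel' hle]
      rw [e, tb_X_pow_mul, S.tb_comm]
      refine gam_zero C hC (i - j) ?_
      unfold Nat.dist at hij; omega
  set c : ℝ := H * (2 * C.natDegree + 1) + 1 with hc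
  have hc0 : 0 < c := by positivity
  refine summable_of_sum_range_le (c := c * ef b r p 1 1) (fun j => sq_nonneg _) fun W => ?_
  have hB : ∀ a : ℕ → ℝ, 0 ≤ ef b r p 1 1 + 2 * ∑ i ∈ Finset.range W, a i * η i +
      ∑ i ∈ Finset.range W, ∑ j ∈ Finset.range W, a i * a j * Γ i j := by
    intro a
    have h1 : Tendsto (fun n => ef (bn n) (rn n) (pn n)
        (1 + ∑ i ∈ Finset.range W, Polynomial.C (a i) * (X ^ (K n + i) * Cr))
        (1 + ∑ i ∈ Finset.range W, Polynomial.C (a i) * (X ^ (K n + i) * Cr))) (U : Filter ℕ)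
        (𝓝 (ef b r p 1 1 + 2 * ∑ i ∈ Finset.range W, a i * η i +
      ∑ i ∈ Finset.range W, ∑ j ∈ Finset.range W, a i * a j * Γ i j)) := by
      simp only [ef_expand]
      refine ((hef 1 1).add (tendsto_const_nhds.mul (tendsto_finsetSum _ fun i _ =>
        tendsto_const_nhds.mul (hη i)))).add (tendsto_finsetSum _ fun i _ =>
          tendsto_finsetSum _ fun j _ => tendsto_const_nhds.mul (hG i j))
    exact ge_of_tendsto' h1 fun n => ef_nonneg (h n).2.1 _
  have h1 := hB fun i => -(c⁻¹ * η i)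
  have h2 : ∑ i ∈ Finset.range W, -(c⁻¹ * η i) * η i = -(c⁻¹ * ∑ i ∈ Finset.range W, η i ^ 2) := by
    rw [Finset.mul_sum, ← Finset.sum_neg_distrib]
    refine Finset.sum_congr rfl fun i _ => ?_
    ring
  have h3 : ∑ i ∈ Finset.range W, ∑ j ∈ Finset.range W, -(c⁻¹ * η i) * -(c⁻¹ * η j) * Γ i j =
      c⁻¹ ^ 2 * ∑ i ∈ Finset.range W, ∑ j ∈ Finset.range W, η i * η j * Γ i j := by
    rw [Finset.mul_sum]
    refine Finset.sum_congr rfl fun i _ => ?_
    rw [Finset.mul_sum]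
    refine Finset.sum_congr rfl fun j _ => ?_
    ring
  rw [h2, h3] at h1
  have h4 := band W C.natDegree η Γ H hH0 hΓle hΓ0
  set T2 := ∑ i ∈ Finset.range W, η i ^ 2 with hT2
  have hT20 : 0 ≤ T2 := Finset.sum_nonneg fun i _ => sq_nonneg _
  have h5 : c⁻¹ ^ 2 * ∑ i ∈ Finset.range W, ∑ j ∈ Finset.range W, η i * η j * Γ i j ≤
      c⁻¹ * T2 := by
    have h6 : ∑ i ∈ Finset.range W, ∑ j ∈ Finset.range W, η i * η j * Γ i j ≤ c * T2 := by
      rw [hc]; nlinarith
    calc c⁻¹ ^ 2 * _ ≤ c⁻¹ ^ 2 * (c * T2) := mul_le_mul_of_nonneg_left h6 (by positivity)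
      _ = c⁻¹ * T2 := by field_simp
  have h6 : c⁻¹ * T2 ≤ ef b r p 1 1 := by linarith
  rw [inv_mul_le_iff₀ hc0] at h6
  exact h6

end Pool.Agent.MP1f45fc.V
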