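import Pool.Agent.Lib.MP_1f45fc_nt.V.Defs
import Pool.Agent.Lib.MP_1f45fc_nt.V.Ef

set_option autoImplicit false

/-!
# Theorem V, module V2: normalisation of `p`
-/

open Polynomial

namespace Pool.Agent.MP1f45fc.V

/-- The sequence of `1 + ε X ^ K`, `ε = ±1`. -/
def tw (r : ℕ → ℤ) (ε : ℤ) (K : ℕ) (k : ℕ) : ℤ := 2 * r k + ε * (r (k + K) + r (Nat.dist k K))

lemma tb_tw (r : ℕ → ℤ) (ε : ℤ) (hε : ε * ε = 1) (K : ℕ) (f h : ℝ[X]) :
    S.tb r (f * (1 + C (ε : ℝ) * X ^ K)) (h * (1 + C (ε : ℝ) * X ^ K)) = S.tb (tw r ε K) f h := by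
  have hεR : (ε : ℝ) * ε = 1 := by exact_mod_cast hε
  induction f using Polynomial.induction_on' with
  | add p q hp hq => rw [add_mul, S.tb_add_left, S.tb_add_left, hp, hq]
  | monomial i a =>
    induction h using Polynomial.induction_on' with
    | add p q hp hq => rw [add_mul, S.tb_add_right, S.tb_add_right, hp, hq]
    | monomial j b =>
      have e : ∀ (i : ℕ) (a : ℝ), monomial i a * (1 + C (ε : ℝ) * X ^ K)
          = monomial i a + monomial (i + K) (a * ε) := by
        intro i a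
        rw [mul_add, mul_one, C_mul_X_pow_eq_monomial, monomial_mul_monomial]
      rw [e, e, S.tb_add_left, S.tb_add_right, S.tb_add_right, S.tb_monomial_aux,
        S.tb_monomial_aux, S.tb_monomial_aux, S.tb_monomial_aux, S.tb_monomial_aux]
      have e1 : Nat.dist (i + K) (j + K) = Nat.dist i j := by
        unfold Nat.dist; omega
      have e2 : (r (Nat.dist i (j + K)) : ℝ) + r (Nat.dist (i + K) j)
          = r (Nat.dist i j + K) + r (Nat.dist (Nat.dist i j) K) := by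
        rcases le_total i j with h | h
        · have h1 : Nat.dist i (j + K) = Nat.dist i j + K := by unfold Nat.dist; omega
          have h2 : Nat.dist (i + K) j = Nat.dist (Nat.dist i j) K := by unfold Nat.dist; omega
          rw [h1, h2]
        · have h1 : Nat.dist (i + K) j = Nat.dist i j + K := by unfold Nat.dist; omega
          have h2 : Nat.dist i (j + K) = Nat.dist (Nat.dist i j) K := by unfold Nat.dist; omega
          rw [h1, h2, add_comm]
      rw [e1]
      unfold tw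
      push_cast
      linear_combination a * b * ε * e2 + a * b * (r (Nat.dist i j) : ℝ) * hεR

lemma LSeq.tw {b p : ℝ} {r : ℕ → ℤ} (h : LSeq b r p) (ε : ℤ) (hε : ε * ε = 1) (K : ℕ) :
    LSeq b (tw r ε K) (p * ((1 + ε * b ^ K) * (1 + ε * b⁻¹ ^ K))) := by
  intro f
  have h1 := h (f * (1 + C (ε : ℝ) * X ^ K))
  rw [tb_tw r ε hε] at h1
  refine le_trans (le_of_eq ?_) h1
  simp only [eval_mul, eval_add, eval_one, eval_C, eval_pow, eval_X]
  ring

lemma LSeq.two_p_le {b p : ℝ} {r : ℕ → ℤ} (h : LSeq b r p) : 2 * p ≤ r 0 := by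
  have h1 := h 1
  have e2 : (1 : ℝ[X]) = monomial 0 1 := by simp
  have h2 : S.tb r (1 : ℝ[X]) 1 = r 0 := by
    rw [e2, S.tb_monomial_aux]
    simp [Nat.dist]
  rw [h2] at h1
  simpa using h1

lemma norm_pos {L b : ℝ} (h : Lev L b) :
    ∃ (r : ℕ → ℤ) (p : ℝ), LSeq b r p ∧ 0 < p ∧ |(r 0 : ℝ)| ≤ 4 * L := by
  obtain ⟨hb, r, p, hp, h, h0, h1⟩ := h
  have hL : 0 ≤ L := (abs_nonneg _).trans h0
  rcases lt_or_gt_of_ne hp with hneg | hpos
  · refine ⟨_, _, h.tw (-1) (by norm_num) 1, ?_, ?_⟩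
    · have hb1 : b⁻¹ < 1 := inv_lt_one_of_one_lt₀ hb
      have e : p * ((1 + ((-1 : ℤ) : ℝ) * b ^ 1) * (1 + ((-1 : ℤ) : ℝ) * b⁻¹ ^ 1))
          = (-p) * ((b - 1) * (1 - b⁻¹)) := by
        push_cast; ring
      rw [e]
      exact mul_pos (by linarith) (mul_pos (by linarith) (by linarith))
    · have e : ((V.tw r (-1) 1 0 : ℤ) : ℝ) = 2 * r 0 - 2 * r 1 := by
        unfold V.tw
        have : Nat.dist 0 1 = 1 := by unfold Nat.dist; omega
        rw [this]
        push_cast; ring_nf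
      rw [e]
      rw [abs_le] at h0 h1 ⊢
      constructor <;> linarith [h0.1, h0.2, h1.1, h1.2]
  · exact ⟨r, p, h, hpos, by linarith⟩

theorem norm_lev (L B : ℝ) : ∃ M : ℝ, ∀ b : ℝ, Lev L b → b ≤ B →
    ∃ (r : ℕ → ℤ) (p : ℝ), LSeq b r p ∧ 1 ≤ p ∧ p ≤ M ∧ |(r 0 : ℝ)| ≤ M := by
  refine ⟨16 * |L| + 2 * |B| + 10, fun b hlev hbB => ?_⟩
  have hb : 1 < b := hlev.1
  have hB : 0 ≤ |B| := abs_nonneg B
  have hL : 0 ≤ |L| := abs_nonneg L
  have hLL : L ≤ |L| := le_abs_self L
  have hBB : b ≤ |B| := hbB.trans (le_abs_self B)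
  obtain ⟨r, p, h, hp, h0⟩ := norm_pos hlev
  have h2p := h.two_p_le
  have h0' := abs_le.1 h0
  rcases le_or_gt 1 p with h1 | h1
  · exact ⟨r, p, h, h1, by linarith, by linarith⟩
  · have hex : ∃ K : ℕ, 1 ≤ p * b ^ K := by
      obtain ⟨K, hK⟩ := pow_unbounded_of_one_lt (1 / p) hb
      refine ⟨K, ?_⟩
      rw [div_lt_iff₀ hp] at hK
      linarith
    classical
    set K := Nat.find hex with hKdef
    have hK : 1 ≤ p * b ^ K := Nat.find_spec hex
    have hK0 : K ≠ 0 := by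
      intro h3
      rw [h3, pow_zero, mul_one] at hK
      linarith
    have hKm : p * b ^ (K - 1) < 1 := by
      by_contra hcon
      push Not at hcon
      exact Nat.find_min hex (m := K - 1) (by omega) hcon
    have hKb : p * b ^ K < |B| := by
      have e : b ^ K = b ^ (K - 1) * b := by
        rw [← pow_succ]
        congr 1
        omega
      rw [e, ← mul_assoc]
      have : p * b ^ (K - 1) * b < 1 * b := mul_lt_mul_of_pos_right hKm (by linarith)
      linarith
    have hinv : b⁻¹ ^ K ≤ 1 := pow_le_one₀ (by positivity) (inv_lt_one_of_one_lt₀ hb).le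
    have hinv0 : 0 < b⁻¹ ^ K := by positivity
    have hpinv : p * b⁻¹ ^ K ≤ 1 := by
      calc p * b⁻¹ ^ K ≤ 1 * 1 := mul_le_mul h1.le hinv hinv0.le (by norm_num)
        _ = 1 := by norm_num
    have hpinv0 : 0 < p * b⁻¹ ^ K := mul_pos hp hinv0
    have hbi : b ^ K * b⁻¹ ^ K = 1 := by
      rw [← mul_pow, mul_inv_cancel₀ (by linarith : b ≠ 0), one_pow]
    have e1 : p * ((1 + ((1 : ℤ) : ℝ) * b ^ K) * (1 + ((1 : ℤ) : ℝ) * b⁻¹ ^ K))
        = 2 * p + p * b ^ K + p * b⁻¹ ^ K := by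
      push_cast
      linear_combination p * hbi
    refine ⟨_, _, h.tw 1 (by norm_num) K, ?_, ?_, ?_⟩
    · rw [e1]; linarith
    · rw [e1]; linarith
    · have e : ((V.tw r 1 K 0 : ℤ) : ℝ) = 2 * r 0 + 2 * r K := by
        unfold V.tw
        have : Nat.dist 0 K = K := by unfold Nat.dist; omega
        rw [this, zero_add]
        push_cast; ring
      have h3 := abs_le.1 (lseq_abs_le (by linarith : b ≠ 0) h K)
      rw [e, abs_le]
      have h4 : p * (b ^ K + b⁻¹ ^ K) = p * b ^ K + p * b⁻¹ ^ K := by ring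
      rw [h4] at h3
      constructor <;> linarith [h3.1, h3.2, h0'.1, h0'.2]

end Pool.Agent.MP1f45fc.V
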