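import Mathlib

/-!
Pisot numbers from integer sequences close to a geometric progression and satisfying a recurrence.
-/

namespace Pool.Agent.MP1f45fc.V.VP

open Polynomial Finset Filter Topology

/-- the shift of sequences -/
def sh (R : Type*) [CommRing R] : Module.End R (ℕ → R) where
  toFun a k := a (k + 1)
  map_add' _ _ := rfl
  map_smul' _ _ := rfl

section
variable {R A : Type*} [CommRing R] [CommRing A]

theorem sh_apply (a : ℕ → R) (k : ℕ) : sh R a k = a (k + 1) := rfl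

theorem sh_pow (j : ℕ) (a : ℕ → R) (k : ℕ) : ((sh R) ^ j) a k = a (k + j) := by
  induction j generalizing k with
  | zero => rfl
  | succ j ih =>
    rw [pow_succ', Module.End.mul_apply, sh_apply, ih]
    congr 1; omega

theorem aeval_sh (Q : R[X]) (a : ℕ → R) (k N : ℕ) (hN : Q.natDegree < N) :
    (aeval (sh R) Q) a k = ∑ j ∈ range N, Q.coeff j * a (k + j) := by
  rw [aeval_eq_sum_range' hN, LinearMap.sum_apply, Finset.sum_apply]
  apply Finset.sum_congr rfl
  intro j _
  rw [LinearMap.smul_apply, Pi.smul_apply, sh_pow, smul_eq_mul]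

theorem aeval_cast (f : R →+* A) (Q : R[X]) (a : ℕ → R) (k : ℕ) :
    f ((aeval (sh R) Q) a k) = (aeval (sh A) (Q.map f)) (fun k => f (a k)) k := by
  rw [aeval_sh Q a k (Q.natDegree + 1) (Nat.lt_succ_self _),
    aeval_sh (Q.map f) _ k (Q.natDegree + 1) (Nat.lt_succ_of_le (natDegree_map_le)), map_sum]
  apply Finset.sum_congr rfl
  intro j _
  rw [map_mul, coeff_map]

theorem aeval_cast_zero (f : R →+* A) (Q : R[X]) (a : ℕ → R) (h : (aeval (sh R) Q) a = 0) :
    (aeval (sh A) (Q.map f)) (fun k => f (a k)) = 0 := by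
  funext k
  rw [← aeval_cast, h]
  simp

/-- an integer sequence with an integer recurrence has a monic one -/
theorem exists_monic (P : ℤ[X]) (hP : P ≠ 0) (a : ℕ → ℤ) (h : (aeval (sh ℤ) P) a = 0) :
    ∃ Q : ℤ[X], Q.Monic ∧ (aeval (sh ℤ) Q) a = 0 := by
  set N : Submodule ℤ (ℕ → ℤ) := LinearMap.ker (aeval (sh ℤ) P) with hN
  have hstab : ∀ u ∈ N, sh ℤ u ∈ N := by
    intro u hu
    rw [hN, LinearMap.mem_ker] at hu ⊢
    have h1 : (aeval (sh ℤ) P) (sh ℤ u) = (sh ℤ) ((aeval (sh ℤ) P) u) := by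
      have h2 : aeval (sh ℤ) (P * X) = aeval (sh ℤ) (X * P) := by rw [mul_comm]
      rw [map_mul, map_mul, aeval_X] at h2
      exact congrArg (fun g : Module.End ℤ (ℕ → ℤ) => g u) h2
    rw [h1, hu, map_zero]
  set r := P.natDegree with hr
  set ρ : N →ₗ[ℤ] (Fin r → ℤ) :=
    { toFun := fun u i => (u : ℕ → ℤ) i
      map_add' := fun _ _ => rfl
      map_smul' := fun _ _ => rfl } with hρ
  have hinj : Function.Injective ρ := by
    rw [injective_iff_map_eq_zero]
    intro u hu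
    have hu0 : ∀ i < r, (u : ℕ → ℤ) i = 0 := by
      intro i hi
      have := congrFun hu ⟨i, hi⟩
      exact this
    have hall : ∀ k, (u : ℕ → ℤ) k = 0 := by
      intro k
      induction k using Nat.strong_induction_on with
      | _ k ih =>
        by_cases hk : k < r
        · exact hu0 k hk
        · have h3 : (aeval (sh ℤ) P) (u : ℕ → ℤ) = 0 := LinearMap.mem_ker.mp u.2
          have h4 := congrFun h3 (k - r)
          rw [aeval_sh P _ (k - r) (r + 1) (Nat.lt_succ_self _), Finset.sum_range_succ] at h4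
          have h5 : ∑ j ∈ range r, P.coeff j * (u : ℕ → ℤ) (k - r + j) = 0 := by
            apply Finset.sum_eq_zero
            intro j hj
            rw [Finset.mem_range] at hj
            rw [ih (k - r + j) (by omega), mul_zero]
          rw [h5, zero_add, show k - r + r = k by omega] at h4
          have h6 : P.coeff r ≠ 0 := by
            rw [hr, coeff_natDegree]; exact leadingCoeff_ne_zero.mpr hP
          have h7 : P.coeff r * (u : ℕ → ℤ) k = 0 := h4
          rcases mul_eq_zero.mp h7 with h8 | h8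
          · exact absurd h8 h6
          · exact h8
    apply Subtype.ext
    funext k
    exact hall k
  have : Module.Finite ℤ N := Module.Finite.of_injective ρ hinj
  set f : Module.End ℤ N := (sh ℤ).restrict hstab with hf
  obtain ⟨Q, hQm, hQ⟩ := LinearMap.exists_monic_and_aeval_eq_zero ℤ f
  refine ⟨Q, hQm, ?_⟩
  have hfp : ∀ (j : ℕ) (u : N), (((f ^ j) u : N) : ℕ → ℤ) = ((sh ℤ) ^ j) (u : ℕ → ℤ) := by
    intro j
    induction j with
    | zero => intro u; rfl
    | succ j ih =>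
      intro u
      rw [pow_succ', pow_succ', Module.End.mul_apply, Module.End.mul_apply, ← ih]
      rfl
  have ha : a ∈ N := h
  have h1 : (((aeval f Q) ⟨a, ha⟩ : N) : ℕ → ℤ) = 0 := by rw [hQ]; rfl
  rw [aeval_eq_sum_range] at h1
  rw [aeval_eq_sum_range, LinearMap.sum_apply]
  rw [LinearMap.sum_apply, Submodule.coe_sum] at h1
  have h2 : ∑ i ∈ range (Q.natDegree + 1), (Q.coeff i • (sh ℤ) ^ i) a =
      ∑ i ∈ range (Q.natDegree + 1), (((Q.coeff i • f ^ i) ⟨a, ha⟩ : N) : ℕ → ℤ) := by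
    apply Finset.sum_congr rfl
    intro i _
    rw [LinearMap.smul_apply, LinearMap.smul_apply, Submodule.coe_smul, hfp]
  rw [h2, h1]

end

section
variable {a : ℕ → ℤ} {β w : ℝ}

/-- a polynomial in the shift preserves convergence to zero -/
theorem tendsto_aeval (Q : ℂ[X]) {x : ℕ → ℂ} (hx : Tendsto x atTop (𝓝 0)) :
    Tendsto ((aeval (sh ℂ) Q) x) atTop (𝓝 0) := by
  have h1 : (aeval (sh ℂ) Q) x = fun k => ∑ j ∈ range (Q.natDegree + 1), Q.coeff j * x (k + j) := by
    funext k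
    exact aeval_sh Q x k _ (Nat.lt_succ_self _)
  rw [h1]
  have h2 : Tendsto (fun k => ∑ j ∈ range (Q.natDegree + 1), Q.coeff j * x (k + j)) atTop
      (𝓝 (∑ j ∈ range (Q.natDegree + 1), Q.coeff j * 0)) := by
    apply tendsto_finsetSum
    intro j _
    exact Tendsto.const_mul _ (hx.comp (tendsto_add_atTop_nat j))
  simpa using h2

/-- a recurrence of the sequence vanishes at `β` -/
theorem root_of_rec (hβ : 1 < β) (hw : w ≠ 0)
    (hε : Tendsto (fun k => (a k : ℝ) - w * β ^ k) atTop (𝓝 0)) (Q : ℤ[X])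
    (h : (aeval (sh ℤ) Q) a = 0) : aeval β Q = 0 := by
  have h1 : ∀ k, ∑ j ∈ range (Q.natDegree + 1), (Q.coeff j : ℝ) * (a (k + j) : ℝ) = 0 := by
    intro k
    have := congrFun h k
    rw [aeval_sh Q a k _ (Nat.lt_succ_self _)] at this
    have h2 : ((∑ j ∈ range (Q.natDegree + 1), Q.coeff j * a (k + j) : ℤ) : ℝ) = ((0 : ℤ) : ℝ) := by
      rw [this]; rfl
    push_cast at h2
    exact h2
  have hQβ : aeval β Q = ∑ j ∈ range (Q.natDegree + 1), (Q.coeff j : ℝ) * β ^ j := by
    rw [aeval_eq_sum_range]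
    apply Finset.sum_congr rfl
    intro j _
    rw [zsmul_eq_mul]
  have h3 : ∀ k, ∑ j ∈ range (Q.natDegree + 1), (Q.coeff j : ℝ) *
      ((a (k + j) : ℝ) - w * β ^ (k + j)) = -(w * β ^ k * aeval β Q) := by
    intro k
    rw [hQβ, Finset.mul_sum, ← Finset.sum_neg_distrib]
    have h4 : ∑ j ∈ range (Q.natDegree + 1), (Q.coeff j : ℝ) *
        ((a (k + j) : ℝ) - w * β ^ (k + j)) =
        ∑ j ∈ range (Q.natDegree + 1), (Q.coeff j : ℝ) * (a (k + j) : ℝ) +
        ∑ j ∈ range (Q.natDegree + 1), -(w * β ^ k * ((Q.coeff j : ℝ) * β ^ j)) := by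
      rw [← Finset.sum_add_distrib]
      apply Finset.sum_congr rfl
      intro j _
      rw [pow_add]; ring
    rw [h4, h1 k, zero_add]
  have h5 : Tendsto (fun k => ∑ j ∈ range (Q.natDegree + 1), (Q.coeff j : ℝ) *
      ((a (k + j) : ℝ) - w * β ^ (k + j))) atTop (𝓝 0) := by
    have h6 : Tendsto (fun k => ∑ j ∈ range (Q.natDegree + 1), (Q.coeff j : ℝ) *
        ((a (k + j) : ℝ) - w * β ^ (k + j))) atTop
        (𝓝 (∑ j ∈ range (Q.natDegree + 1), (Q.coeff j : ℝ) * 0)) := by
      apply tendsto_finsetSum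
      intro j _
      exact Tendsto.const_mul _ (hε.comp (tendsto_add_atTop_nat j))
    simpa using h6
  by_contra hne
  have h7 : 0 < |w * aeval β Q| := abs_pos.mpr (mul_ne_zero hw hne)
  have h8 := h5.abs
  rw [abs_zero] at h8
  have h9 := (h8.eventually_lt_const h7).exists
  obtain ⟨k, hk⟩ := h9
  rw [h3 k, abs_neg] at hk
  have h10 : |w * β ^ k * aeval β Q| = |w * aeval β Q| * β ^ k := by
    rw [show w * β ^ k * aeval β Q = (w * aeval β Q) * β ^ k by ring, abs_mul,
      abs_of_pos (pow_pos (by linarith : (0 : ℝ) < β) k)]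
  rw [h10] at hk
  have h11 : 1 ≤ β ^ k := one_le_pow₀ hβ.le
  nlinarith

theorem isIntegral_beta (hβ : 1 < β) (hw : w ≠ 0)
    (hε : Tendsto (fun k => (a k : ℝ) - w * β ^ k) atTop (𝓝 0)) (P : ℤ[X]) (hP : P ≠ 0)
    (h : (aeval (sh ℤ) P) a = 0) : IsIntegral ℤ β := by
  obtain ⟨Q, hQm, hQ⟩ := exists_monic P hP a h
  exact ⟨Q, hQm, root_of_rec hβ hw hε Q hQ⟩

/-- a nonzero complex recurrence of an integer sequence gives a rational one -/
theorem exists_rat (T : ℂ[X]) (hT : T ≠ 0) (u : ℕ → ℤ)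
    (h : (aeval (sh ℂ) T) (fun k => (u k : ℂ)) = 0) :
    ∃ T' : ℚ[X], T' ≠ 0 ∧ T'.natDegree ≤ T.natDegree ∧
      (aeval (sh ℚ) T') (fun k => (u k : ℚ)) = 0 := by
  have hlead : T.coeff T.natDegree ≠ 0 := by
    rw [coeff_natDegree]; exact leadingCoeff_ne_zero.mpr hT
  obtain ⟨φ, hφ⟩ : ∃ φ : Module.Dual ℚ ℂ, φ (T.coeff T.natDegree) ≠ 0 := by
    by_contra hc
    push Not at hc
    exact hlead ((Module.forall_dual_apply_eq_zero_iff ℚ _).mp hc)
  set T' : ℚ[X] := ∑ j ∈ range (T.natDegree + 1), monomial j (φ (T.coeff j)) with hT'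
  have hcoeff : ∀ j < T.natDegree + 1, T'.coeff j = φ (T.coeff j) := by
    intro j hj
    rw [hT', finsetSum_coeff, Finset.sum_eq_single j]
    · simp
    · intro i _ hij
      rw [coeff_monomial, if_neg hij]
    · intro hj'
      exact absurd (Finset.mem_range.mpr hj) hj'
  have hdeg : T'.natDegree ≤ T.natDegree := by
    rw [hT']
    apply natDegree_sum_le_of_forall_le
    intro j hj
    rw [Finset.mem_range] at hj
    exact (natDegree_monomial_le _).trans (by omega)
  refine ⟨T', ?_, hdeg, ?_⟩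
  · intro h0
    apply hφ
    rw [← hcoeff _ (Nat.lt_succ_self _), h0, coeff_zero]
  · funext k
    rw [aeval_sh T' _ k (T.natDegree + 1) (by omega)]
    have h1 := congrFun h k
    rw [aeval_sh T _ k (T.natDegree + 1) (Nat.lt_succ_self _)] at h1
    have h2 := congrArg φ h1
    rw [map_sum] at h2
    have h3 : ∑ j ∈ range (T.natDegree + 1), T'.coeff j * (u (k + j) : ℚ) =
        ∑ j ∈ range (T.natDegree + 1), φ (T.coeff j * (u (k + j) : ℂ)) := by
      apply Finset.sum_congr rfl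
      intro j hj
      rw [Finset.mem_range] at hj
      rw [hcoeff j hj]
      have h4 : T.coeff j * (u (k + j) : ℂ) = (u (k + j) : ℤ) • T.coeff j := by
        rw [zsmul_eq_mul, mul_comm]
      rw [h4, map_zsmul, zsmul_eq_mul, mul_comm]
    rw [h3, h2]
    simp

theorem conj_lt (hβ : 1 < β) (hw : w ≠ 0)
    (hε : Tendsto (fun k => (a k : ℝ) - w * β ^ k) atTop (𝓝 0)) (P : ℤ[X]) (hP : P ≠ 0)
    (h : (aeval (sh ℤ) P) a = 0) (z : ℂ) (hz : aeval z (minpoly ℤ β) = 0) (hzβ : z ≠ (β : ℂ)) :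
    ‖z‖ < 1 := by
  classical
  have hint := isIntegral_beta hβ hw hε P hP h
  set m := minpoly ℤ β with hm
  have hmm : m.Monic := minpoly.monic hint
  have hmdeg : 0 < m.natDegree := minpoly.natDegree_pos hint
  -- minimal recurrence
  have hex : ∃ n : ℕ, ∃ C : ℤ[X], C ≠ 0 ∧ (aeval (sh ℤ) C) a = 0 ∧ C.natDegree = n :=
    ⟨_, P, hP, h, rfl⟩
  obtain ⟨C, hC0, hCa, hCn⟩ := Nat.find_spec hex
  have hmin : ∀ Q : ℤ[X], Q ≠ 0 → (aeval (sh ℤ) Q) a = 0 → C.natDegree ≤ Q.natDegree := by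
    intro Q hQ0 hQ
    rw [hCn]
    exact Nat.find_min' hex ⟨Q, hQ0, hQ, rfl⟩
  have hdvd : m ∣ C := minpoly.isIntegrallyClosed_dvd hint (root_of_rec hβ hw hε C hCa)
  obtain ⟨D, hD⟩ := hdvd
  have hD0 : D ≠ 0 := by rintro rfl; rw [mul_zero] at hD; exact hC0 hD
  have hm0 : m ≠ 0 := hmm.ne_zero
  have hDdeg : D.natDegree < C.natDegree := by
    rw [hD, natDegree_mul hm0 hD0]; omega
  set u : ℕ → ℤ := (aeval (sh ℤ) D) a with hu
  have hu0 : u ≠ 0 := by
    intro h0
    have := hmin D hD0 h0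
    omega
  have hmu : (aeval (sh ℤ) m) u = 0 := by
    have h1 : aeval (sh ℤ) C = aeval (sh ℤ) m * aeval (sh ℤ) D := by rw [hD, map_mul]
    rw [h1] at hCa
    exact hCa
  by_contra hge
  push Not at hge
  -- complex polynomials
  set ι : ℤ →+* ℂ := Int.castRingHom ℂ with hι
  set mC : ℂ[X] := m.map ι with hmC
  have hmC0 : mC ≠ 0 := (hmm.map ι).ne_zero
  have hroot1 : mC.eval (β : ℂ) = 0 := by
    rw [hmC, eval_map]
    have h2 : (aeval β m : ℝ) = 0 := minpoly.aeval ℤ β
    have h3 : ((aeval β m : ℝ) : ℂ) = eval₂ ι (β : ℂ) m := by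
      rw [aeval_def]
      have := Polynomial.hom_eval₂ m (algebraMap ℤ ℝ) (Complex.ofRealHom) β
      rw [show ((eval₂ (algebraMap ℤ ℝ) β m : ℝ) : ℂ) = Complex.ofRealHom
        (eval₂ (algebraMap ℤ ℝ) β m) from rfl, this]
      have h31 : Complex.ofRealHom.comp (algebraMap ℤ ℝ) = ι := RingHom.ext_int _ _
      rw [h31]
      rfl
    rw [← h3, h2]; simp
  have hroot2 : mC.eval z = 0 := by
    rw [hmC, eval_map]
    rw [aeval_def] at hz
    have : algebraMap ℤ ℂ = ι := RingHom.ext_int _ _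
    rw [← this]; exact hz
  have hd1 : (X - Polynomial.C (β : ℂ)) ∣ mC := dvd_iff_isRoot.mpr hroot1
  have hd2 : (X - Polynomial.C z) ∣ mC := dvd_iff_isRoot.mpr hroot2
  have hcop : IsCoprime (X - Polynomial.C (β : ℂ)) (X - Polynomial.C z) := by
    apply isCoprime_X_sub_C_of_isUnit_sub
    exact (sub_ne_zero.mpr hzβ.symm).isUnit
  obtain ⟨R, hR⟩ := hcop.mul_dvd hd1 hd2
  set T : ℂ[X] := (X - Polynomial.C (β : ℂ)) * R with hT
  have hmT : mC = (X - Polynomial.C z) * T := by rw [hR, hT]; ring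
  have hT0 : T ≠ 0 := by rintro h0; rw [h0, mul_zero] at hmT; exact hmC0 hmT
  have hTdeg : T.natDegree + 1 = m.natDegree := by
    have h4 : mC.natDegree = m.natDegree := hmm.natDegree_map ι
    rw [← h4, hmT, natDegree_mul (X_sub_C_ne_zero z) hT0, natDegree_X_sub_C]
    omega
  set uC : ℕ → ℂ := fun k => (u k : ℂ) with huC
  set aC : ℕ → ℂ := fun k => (a k : ℂ) with haC
  have hmuC : (aeval (sh ℂ) mC) uC = 0 := aeval_cast_zero ι m u hmu
  have huaC : uC = (aeval (sh ℂ) (D.map ι)) aC := by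
    funext k
    exact aeval_cast ι D a k
  -- the sequence v
  set v : ℕ → ℂ := (aeval (sh ℂ) T) uC with hv
  have hvrec : ∀ k, v (k + 1) = z * v k := by
    intro k
    have h5 : (aeval (sh ℂ) (X - Polynomial.C z)) v = 0 := by
      have h6 : aeval (sh ℂ) mC = aeval (sh ℂ) (X - Polynomial.C z) * aeval (sh ℂ) T := by
        rw [← map_mul, ← hmT]
      rw [h6] at hmuC
      exact hmuC
    have h7 := congrFun h5 k
    rw [map_sub, aeval_X, aeval_C] at h7
    have h8 : v (k + 1) - z * v k = 0 := h7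
    exact sub_eq_zero.mp h8
  have hvk : ∀ k, ‖v 0‖ ≤ ‖v k‖ := by
    intro k
    induction k with
    | zero => exact le_rfl
    | succ k ih =>
      rw [hvrec k, norm_mul]
      have := norm_nonneg (v k)
      nlinarith
  have hvt : Tendsto v atTop (𝓝 0) := by
    have h5 : v = (aeval (sh ℂ) (R * D.map ι)) ((aeval (sh ℂ) (X - Polynomial.C (β : ℂ))) aC) := by
      rw [hv, huaC]
      have h6 : aeval (sh ℂ) T * aeval (sh ℂ) (D.map ι) =
          aeval (sh ℂ) (R * D.map ι) * aeval (sh ℂ) (X - Polynomial.C (β : ℂ)) := by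
        rw [← map_mul, ← map_mul, hT]
        congr 1
        ring
      exact congrArg (fun g : Module.End ℂ (ℕ → ℂ) => g aC) h6
    rw [h5]
    apply tendsto_aeval
    have h7 : (aeval (sh ℂ) (X - Polynomial.C (β : ℂ))) aC = fun k =>
        ((((a (k + 1) : ℝ) - w * β ^ (k + 1)) - β * ((a k : ℝ) - w * β ^ k) : ℝ) : ℂ) := by
      funext k
      rw [map_sub, aeval_X, aeval_C]
      have h8 : (sh ℂ - (algebraMap ℂ (Module.End ℂ (ℕ → ℂ))) (β : ℂ)) aC k =
          (a (k + 1) : ℂ) - (β : ℂ) * (a k : ℂ) := rfl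
      rw [h8]
      push_cast
      ring
    rw [h7]
    have h9 : Tendsto (fun k => ((a (k + 1) : ℝ) - w * β ^ (k + 1)) -
        β * ((a k : ℝ) - w * β ^ k)) atTop (𝓝 (0 - β * 0)) :=
      (hε.comp (tendsto_add_atTop_nat 1)).sub (hε.const_mul β)
    rw [mul_zero, sub_zero] at h9
    have h10 := (Complex.continuous_ofReal.tendsto 0).comp h9
    rw [Complex.ofReal_zero] at h10
    exact h10
  have hv0 : v 0 = 0 := by
    by_contra hne
    have h5 := hvt.norm
    rw [norm_zero] at h5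
    obtain ⟨k, hk⟩ := (h5.eventually_lt_const (norm_pos_iff.mpr hne)).exists
    exact absurd (hvk k) (not_le.mpr hk)
  have hvz : v = 0 := by
    funext k
    induction k with
    | zero => exact hv0
    | succ k ih => rw [hvrec k, ih]; simp
  obtain ⟨T', hT'0, hT'deg, hT'u⟩ := exists_rat T hT0 u hvz
  -- rational minimal polynomial
  set mQ : ℚ[X] := minpoly ℚ β with hmQ
  have hmQeq : mQ = m.map (Int.castRingHom ℚ) := by
    have h5 := minpoly.isIntegrallyClosed_eq_field_fractions' ℚ hint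
    rw [hmQ, h5]
    congr 1
  have hirr : Irreducible mQ := minpoly.irreducible hint.tower_top
  have hmQu : (aeval (sh ℚ) mQ) (fun k => (u k : ℚ)) = 0 := by
    rw [hmQeq]
    exact aeval_cast_zero (Int.castRingHom ℚ) m u hmu
  have hndvd : ¬ mQ ∣ T' := by
    intro hd
    have h5 := natDegree_le_of_dvd hd hT'0
    have h6 : mQ.natDegree = m.natDegree := by
      rw [hmQeq]; exact hmm.natDegree_map _
    omega
  have hcop2 : IsCoprime mQ T' := (Irreducible.coprime_iff_not_dvd hirr).mpr hndvd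
  obtain ⟨A, B, hAB⟩ := hcop2
  have huQ : (fun k => (u k : ℚ)) = 0 := by
    have h5 : aeval (sh ℚ) (A * mQ + B * T') = 1 := by rw [hAB, map_one]
    rw [map_add, map_mul, map_mul] at h5
    have h6 := congrArg (fun g : Module.End ℚ (ℕ → ℚ) => g (fun k => (u k : ℚ))) h5
    simp only [LinearMap.add_apply, Module.End.mul_apply, Module.End.one_apply, hmQu, hT'u,
      map_zero, add_zero] at h6
    exact h6.symm
  apply hu0
  funext k
  have h5 := congrFun huQ k
  simp only [Pi.zero_apply] at h5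
  exact_mod_cast h5

end

end Pool.Agent.MP1f45fc.V.VP

namespace Pool.Agent.MP1f45fc.V

open Polynomial Finset Filter Topology

/-- an integer sequence with an integer recurrence, asymptotic to `w * β ^ k`: `β` is Pisot -/
theorem pisot (a : ℕ → ℤ) (β w : ℝ) (hβ : 1 < β) (hw : w ≠ 0)
    (hε : Tendsto (fun k => (a k : ℝ) - w * β ^ k) atTop (𝓝 0)) (P : ℤ[X]) (hP : P ≠ 0)
    (hrec : ∀ k, ∑ j ∈ range (P.natDegree + 1), P.coeff j * a (k + j) = 0) :
    IsIntegral ℤ β ∧ ∀ z : ℂ, aeval z (minpoly ℤ β) = 0 → z = (β : ℂ) ∨ ‖z‖ < 1 := by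
  have h : (aeval (VP.sh ℤ) P) a = 0 := by
    funext k
    rw [VP.aeval_sh P a k _ (Nat.lt_succ_self _), hrec k]
    rfl
  refine ⟨VP.isIntegral_beta hβ hw hε P hP h, fun z hz => ?_⟩
  by_cases hzβ : z = (β : ℂ)
  · exact Or.inl hzβ
  · exact Or.inr (VP.conj_lt hβ hw hε P hP h z hz hzβ)

end Pool.Agent.MP1f45fc.V
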