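import Pool.Agent.Lib.MP_1f45fc_nt.V.Defs
import Pool.Agent.Lib.MP_1f45fc_nt.V.PisotRec

set_option autoImplicit false

/-!
# Theorem V, module V7: the Pisot step
-/

open Polynomial Filter Topology

namespace Pool.Agent.MP1f45fc.V

theorem pisot_of_seq {b : ℝ} (hb : 1 < b) (C : ℤ[X]) (hC : C ≠ 0) (hCb : aeval b C = 0)
    (t : ℕ → ℤ) (w : ℝ) (hw : w ≠ 0) (η : ℕ → ℝ) (hη : Summable fun j => η j ^ 2)
    (h : ∀ j : ℕ, (t j : ℝ) = w * b ^ j + η j) : IsPisot b := by
  have hη0 : Tendsto η atTop (𝓝 0) := by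
    have h1 : Tendsto (fun j => η j ^ 2) atTop (𝓝 0) := hη.tendsto_atTop_zero
    have h2 : Tendsto (fun j => Real.sqrt (η j ^ 2)) atTop (𝓝 (Real.sqrt 0)) :=
      (Real.continuous_sqrt.tendsto 0).comp h1
    rw [Real.sqrt_zero] at h2
    have h3 : Tendsto (fun j => |η j|) atTop (𝓝 0) := by
      refine h2.congr fun j => ?_
      rw [Real.sqrt_sq_eq_abs]
    exact (tendsto_zero_iff_abs_tendsto_zero _).2 h3
  -- the recurrence holds eventually
  have h4 : ∀ k, ((∑ j ∈ Finset.range (C.natDegree + 1), C.coeff j * t (k + j) : ℤ) : ℝ) =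
      ∑ j ∈ Finset.range (C.natDegree + 1), (C.coeff j : ℝ) * η (k + j) := by
    intro k
    push_cast
    have h5 : ∑ j ∈ Finset.range (C.natDegree + 1), (C.coeff j : ℝ) * (t (k + j) : ℝ) =
        w * b ^ k * (∑ j ∈ Finset.range (C.natDegree + 1), (C.coeff j : ℝ) * b ^ j) +
        ∑ j ∈ Finset.range (C.natDegree + 1), (C.coeff j : ℝ) * η (k + j) := by
      rw [Finset.mul_sum, ← Finset.sum_add_distrib]
      apply Finset.sum_congr rfl
      intro j _
      rw [h, pow_add]; ring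
    have h6 : ∑ j ∈ Finset.range (C.natDegree + 1), (C.coeff j : ℝ) * b ^ j = 0 := by
      rw [aeval_eq_sum_range] at hCb
      rw [← hCb]
      apply Finset.sum_congr rfl
      intro j _
      rw [zsmul_eq_mul]
    rw [h5, h6, mul_zero, zero_add]
  have h7 : Tendsto (fun k => ((∑ j ∈ Finset.range (C.natDegree + 1), C.coeff j * t (k + j) : ℤ) : ℝ))
      atTop (𝓝 0) := by
    simp_rw [h4]
    have h8 : Tendsto (fun k => ∑ j ∈ Finset.range (C.natDegree + 1), (C.coeff j : ℝ) * η (k + j))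
        atTop (𝓝 (∑ j ∈ Finset.range (C.natDegree + 1), (C.coeff j : ℝ) * 0)) := by
      apply tendsto_finsetSum
      intro j _
      exact Tendsto.const_mul _ (hη0.comp (tendsto_add_atTop_nat j))
    simpa using h8
  have h9 := h7.abs
  rw [abs_zero] at h9
  obtain ⟨K, hK⟩ := eventually_atTop.mp (h9.eventually_lt_const one_pos)
  have hrec : ∀ k, ∑ j ∈ Finset.range (C.natDegree + 1), C.coeff j * t ((k + j) + K) = 0 := by
    intro k
    have h10 := hK (k + K) (by omega)
    have h11 : |(∑ j ∈ Finset.range (C.natDegree + 1), C.coeff j * t (k + K + j) : ℤ)| < 1 := by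
      exact_mod_cast h10
    have h12 := Int.abs_lt_one_iff.mp h11
    rw [← h12]
    apply Finset.sum_congr rfl
    intro j _
    congr 2
    omega
  have hb0 : (0 : ℝ) < b := by linarith
  have hasym : Tendsto (fun k => ((t (k + K) : ℤ) : ℝ) - (w * b ^ K) * b ^ k) atTop (𝓝 0) := by
    have h13 : (fun k => ((t (k + K) : ℤ) : ℝ) - (w * b ^ K) * b ^ k) = fun k => η (k + K) := by
      funext k
      rw [h, pow_add]; ring
    rw [h13]
    exact hη0.comp (tendsto_add_atTop_nat K)
  obtain ⟨hint, hconj⟩ := pisot (fun k => t (k + K)) b (w * b ^ K) hb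
    (mul_ne_zero hw (pow_pos hb0 K).ne') hasym C hC hrec
  refine ⟨hint, hb, fun z hz hzb => ?_⟩
  rcases hconj z hz with e | e
  · exact absurd e hzb
  · exact e

end Pool.Agent.MP1f45fc.V
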