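import Pool.Agent.Lib.MP_1f45fc_nt.V.Limit
import Pool.Agent.Lib.MP_1f45fc_nt.V.Norm
import Pool.Agent.Lib.MP_1f45fc_nt.V.Gap
import Pool.Agent.Lib.MP_1f45fc_nt.V.Pisot

set_option autoImplicit false

/-!
# Theorem V: accumulation points of the multipliers of level `L`
-/

open Polynomial Filter Topology

namespace Pool.Agent.MP1f45fc.V

/-- every accumulation point is the limit of an injective sequence -/
lemma exists_inj_seq {A : Set ℝ} {b : ℝ} (h : AccPt b (𝓟 A)) : ∃ x : ℕ → ℝ,
    Function.Injective x ∧ (∀ n, x n ∈ A) ∧ Tendsto x atTop (𝓝 b) := by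
  have hd : ∀ δ : ℝ, 0 < δ → ∃ y ∈ A, y ≠ b ∧ |y - b| < δ := by
    intro δ hδ
    rw [accPt_iff_nhds] at h
    obtain ⟨y, hy, hyb⟩ := h (Metric.ball b δ) (Metric.ball_mem_nhds b hδ)
    refine ⟨y, hy.2, hyb, ?_⟩
    have := hy.1
    rwa [Metric.mem_ball, Real.dist_eq] at this
  choose! f hfA hfb hfd using hd
  -- distances: d (n+1) = min (d n / 2) and |f (d n) - b|
  let d : ℕ → ℝ := fun n => Nat.rec 1 (fun _ e => min (e / 2) |f e - b|) n
  have hd0 : d 0 = 1 := rfl
  have hds : ∀ n, d (n + 1) = min (d n / 2) |f (d n) - b| := fun n => rfl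
  have hdpos : ∀ n, 0 < d n := by
    intro n
    induction n with
    | zero => rw [hd0]; exact one_pos
    | succ n ih =>
      rw [hds]
      exact lt_min (by linarith) (abs_pos.mpr (sub_ne_zero.mpr (hfb _ ih)))
  have hmono : ∀ n m, n < m → d m ≤ |f (d n) - b| := by
    intro n m hnm
    induction m with
    | zero => omega
    | succ m ih =>
      rcases Nat.lt_succ_iff_lt_or_eq.mp hnm with h1 | h1
      · refine le_trans ?_ (ih h1)
        rw [hds]
        exact (min_le_left _ _).trans (by linarith [hdpos m])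
      · rw [h1, hds]; exact min_le_right _ _
  have hlt : ∀ n m, n < m → |f (d m) - b| < |f (d n) - b| := fun n m hnm =>
    (hfd _ (hdpos m)).trans_le (hmono n m hnm)
  have hle : ∀ n, d n ≤ (1 / 2) ^ n := by
    intro n
    induction n with
    | zero => rw [hd0]; simp
    | succ n ih =>
      rw [hds, pow_succ]
      exact (min_le_left _ _).trans (by linarith)
  refine ⟨fun n => f (d n), ?_, fun n => hfA _ (hdpos n), ?_⟩
  · intro n m hnm
    by_contra hne
    rcases lt_or_gt_of_ne hne with h1 | h1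
    · have := hlt n m h1
      simp only at hnm
      rw [hnm] at this
      exact lt_irrefl _ this
    · have := hlt m n h1
      simp only at hnm
      rw [hnm] at this
      exact lt_irrefl _ this
  · rw [tendsto_iff_dist_tendsto_zero]
    refine squeeze_zero (fun n => dist_nonneg) (fun n => ?_)
      (tendsto_pow_atTop_nhds_zero_of_lt_one (r := (1 / 2 : ℝ)) (by norm_num) (by norm_num))
    rw [Real.dist_eq]
    exact (hfd _ (hdpos n)).le.trans (hle n)

/-- **Theorem V.** Every accumulation point of the set of the multipliers of level `L` is a Pisot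
number. -/
theorem acc_pisot (L : ℝ) {b : ℝ} (h : AccPt b (𝓟 {b | Lev L b})) : IsPisot b := by
  obtain ⟨x, hinj, hx, hlim⟩ := exists_inj_seq h
  obtain ⟨c, hc, hgap⟩ := lev_gap L
  have hb : 1 < b := lt_of_lt_of_le hc (ge_of_tendsto' hlim fun n => hgap _ (hx n))
  -- pass to the terms below b + 1
  obtain ⟨N, hN⟩ := eventually_atTop.mp (hlim.eventually_lt_const (lt_add_one b))
  obtain ⟨M, hM⟩ := norm_lev L (b + 1)
  have h1 : ∀ n, ∃ (r : ℕ → ℤ) (p : ℝ), LSeq (x (N + n)) r p ∧ 1 ≤ p ∧ p ≤ M ∧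
      |(r 0 : ℝ)| ≤ M := fun n => hM _ (hx _) (hN _ (Nat.le_add_right N n)).le
  choose r p hL hp1 hpM hr0 using h1
  have hinj' : Function.Injective fun n => x (N + n) := by
    intro n m hnm
    have := hinj hnm
    omega
  have hlim' : Tendsto (fun n => x (N + n)) atTop (𝓝 b) := by
    have := (tendsto_add_atTop_iff_nat N).mpr hlim
    exact this.congr fun n => by rw [Nat.add_comm]
  obtain ⟨C, hC0, hCb, t, w, η, hw, hη, ht⟩ := limit_seq hb (fun n => x (N + n)) hinj' hlim' r p
    fun n => ⟨(hx _).1, hL n, hp1 n, hpM n, hr0 n⟩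
  exact pisot_of_seq hb C hC0 hCb t w hw η hη ht

/-- Below a lower bound for the Pisot numbers there are only finitely many. -/
theorem lev_finite_of (L B : ℝ) (hB : ∀ b, IsPisot b → B < b) : {b | Lev L b ∧ b ≤ B}.Finite := by
  by_contra hinf
  have h1 : {b | Lev L b ∧ b ≤ B} ⊆ Set.Icc 1 B := fun b hb => ⟨hb.1.1.le, hb.2⟩
  obtain ⟨b, hb, hacc⟩ := Set.Infinite.exists_accPt_of_subset_isCompact hinf isCompact_Icc h1
  have h2 : AccPt b (𝓟 {b | Lev L b}) := hacc.mono (principal_mono.mpr fun b hb => hb.1)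
  have h3 := hB b (acc_pisot L h2)
  linarith [hb.2]

end Pool.Agent.MP1f45fc.V
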