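import Pool.Agent.Lib.MP_1f45fc_nt.V.Defs

set_option autoImplicit false

/-!
# Theorem V, module V7a: an irreducible annihilator
-/

open Polynomial Filter Topology

namespace Pool.Agent.MP1f45fc.V

/-- A square summable sequence tends to zero. -/
private theorem tendsto_zero_of_sq {η : ℕ → ℝ} (hη : Summable fun j => η j ^ 2) :
    Tendsto η atTop (𝓝 0) := by
  have h1 : Tendsto (fun j => η j ^ 2) atTop (𝓝 0) := hη.tendsto_atTop_zero
  have h2 : Tendsto (fun j => Real.sqrt (η j ^ 2)) atTop (𝓝 (Real.sqrt 0)) :=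
    (Real.continuous_sqrt.tendsto 0).comp h1
  rw [Real.sqrt_zero] at h2
  have h3 : Tendsto (fun j => |η j|) atTop (𝓝 0) := by
    refine h2.congr fun j => ?_
    rw [Real.sqrt_sq_eq_abs]
  exact (tendsto_zero_iff_abs_tendsto_zero _).2 h3

/-- An irreducible factor vanishing at `b`. -/
private theorem exists_factor {b : ℝ} (C : ℤ[X]) (hC : C ≠ 0) (hCb : aeval b C = 0) :
    ∃ P : ℤ[X], Irreducible P ∧ aeval b P = 0 := by
  classical
  obtain ⟨u, hu⟩ := UniqueFactorizationMonoid.factors_prod hC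
  have h0 : aeval b (UniqueFactorizationMonoid.factors C).prod = 0 := by
    have h1 : aeval b ((UniqueFactorizationMonoid.factors C).prod * (u : ℤ[X])) = 0 := by
      rw [hu]; exact hCb
    rw [map_mul] at h1
    rcases mul_eq_zero.1 h1 with h2 | h2
    · exact h2
    · exfalso
      have h3 : IsUnit (aeval b (u : ℤ[X])) := (u.isUnit).map (aeval b)
      rw [h2] at h3
      exact not_isUnit_zero h3
  rw [map_multiset_prod] at h0
  have h4 := Multiset.prod_eq_zero_iff.1 h0
  obtain ⟨P, hP, hP0⟩ := Multiset.mem_map.1 h4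
  exact ⟨P, UniqueFactorizationMonoid.irreducible_of_factor P hP, hP0⟩

theorem one_sided {b : ℝ} (hb : 1 < b) (C : ℤ[X]) (hC : C ≠ 0) (hCb : aeval b C = 0)
    (t : ℕ → ℤ) (w : ℝ) (hw : w ≠ 0) (η : ℕ → ℝ) (hη : Summable fun j => η j ^ 2)
    (h : ∀ j : ℕ, (t j : ℝ) = w * b ^ j + η j) :
    ∃ (P : ℤ[X]) (k₀ : ℕ), Irreducible P ∧ aeval b P = 0 ∧ P.coeff 0 ≠ 0 ∧ 0 < P.natDegree ∧
      (∀ k, k₀ ≤ k → sh t P k = 0) ∧ ∀ N, ∃ k, N ≤ k ∧ t k ≠ 0 := by
  obtain ⟨P, hP, hPb⟩ := exists_factor C hC hCb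
  have hη0 := tendsto_zero_of_sq hη
  -- the shifted combination tends to zero
  have hsh : ∀ k, (sh t P k : ℝ) = ∑ i ∈ P.support, (P.coeff i : ℝ) * η (k + i) := by
    intro k
    have h1 : ∑ i ∈ P.support, (P.coeff i : ℝ) * b ^ i = 0 := by
      rw [aeval_eq_sum_range] at hPb
      have h2 : aeval b P = P.sum fun i c => (c : ℝ) * b ^ i := by
        rw [aeval_def, eval₂_eq_sum]
        rfl
      have h3 : aeval b P = 0 := by rw [aeval_eq_sum_range]; exact hPb
      rw [h2, Polynomial.sum_def] at h3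
      exact h3
    have h4 : (sh t P k : ℝ) = ∑ i ∈ P.support, (P.coeff i : ℝ) * (t (k + i) : ℝ) := by
      unfold sh
      rw [Polynomial.sum_def]
      push_cast
      rfl
    rw [h4]
    have h5 : ∀ i ∈ P.support, (P.coeff i : ℝ) * (t (k + i) : ℝ) =
        w * b ^ k * ((P.coeff i : ℝ) * b ^ i) + (P.coeff i : ℝ) * η (k + i) := by
      intro i _
      rw [h (k + i), pow_add]
      ring
    rw [Finset.sum_congr rfl h5, Finset.sum_add_distrib, ← Finset.mul_sum, h1, mul_zero, zero_add]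
  have hlim : Tendsto (fun k => (sh t P k : ℝ)) atTop (𝓝 0) := by
    have h1 : Tendsto (fun k => ∑ i ∈ P.support, (P.coeff i : ℝ) * η (k + i)) atTop
        (𝓝 (∑ i ∈ P.support, (P.coeff i : ℝ) * 0)) := by
      refine tendsto_finset_sum _ fun i _ => ?_
      exact ((tendsto_add_atTop_iff_nat i).2 hη0).const_mul _
    simp only [mul_zero, Finset.sum_const_zero] at h1
    exact h1.congr fun k => (hsh k).symm
  have hev : ∀ᶠ k in atTop, sh t P k = 0 := by
    have h1 : ∀ᶠ k in atTop, |(sh t P k : ℝ)| < 1 := by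
      have h2 := (tendsto_zero_iff_abs_tendsto_zero _).1 hlim
      exact h2.eventually (gt_mem_nhds one_pos)
    filter_upwards [h1] with k hk
    have h3 : |sh t P k| < 1 := by
      exact_mod_cast hk
    exact Int.abs_lt_one_iff.1 h3
  obtain ⟨k₀, hk₀⟩ := eventually_atTop.1 hev
  refine ⟨P, k₀, hP, hPb, ?_, ?_, fun k hk => hk₀ k hk, ?_⟩
  · intro h0
    have hX : (X : ℤ[X]) ∣ P := X_dvd_iff.2 h0
    obtain ⟨Q, hQ⟩ := hX
    rcases (hP.isUnit_or_isUnit hQ) with hu | hu
    · exact not_isUnit_X hu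
    · have h1 : aeval b P = b * aeval b Q := by rw [hQ, map_mul, aeval_X]
      rw [hPb] at h1
      have h2 : aeval b Q = 0 := by
        rcases mul_eq_zero.1 h1.symm with h3 | h3
        · linarith
        · exact h3
      have h3 : IsUnit (aeval b Q) := hu.map (aeval b)
      rw [h2] at h3
      exact not_isUnit_zero h3
  · rcases Nat.eq_zero_or_pos P.natDegree with h0 | h0
    · exfalso
      obtain ⟨c, hc⟩ := natDegree_eq_zero.1 h0
      rw [← hc, aeval_C] at hPb
      have h1 : c = 0 := by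
        have h2 : ((c : ℤ) : ℝ) = 0 := by simpa using hPb
        exact_mod_cast h2
      rw [h1, map_zero] at hc
      exact hP.ne_zero hc.symm
    · exact h0
  · intro N
    by_contra hcon
    push_neg at hcon
    have h1 : ∀ᶠ k in atTop, |η k| < |w| := by
      have h2 := (tendsto_zero_iff_abs_tendsto_zero _).1 hη0
      exact h2.eventually (gt_mem_nhds (abs_pos.2 hw))
    obtain ⟨M, hM⟩ := eventually_atTop.1 h1
    have h3 := hM (max M N) (le_max_left _ _)
    have h4 := hcon (max M N) (le_max_right _ _)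
    have h5 := h (max M N)
    rw [h4] at h5
    have h6 : η (max M N) = -(w * b ^ (max M N)) := by
      push_cast at h5
      linarith
    rw [h6, abs_neg, abs_mul] at h3
    have h7 : 1 ≤ |b ^ (max M N)| := by
      rw [abs_of_pos (pow_pos (by linarith) _)]
      exact one_le_pow₀ hb.le
    nlinarith [abs_nonneg w]

end Pool.Agent.MP1f45fc.V
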