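import Pool.Agent.Lib.MP_1f45fc_nt.RelDet

set_option autoImplicit false

/-!
Two tools for the Hankel module: Hadamard's inequality for real matrices, and the fact that
`C * K ^ n * ∏_{i < n} τ i → 0` when `τ → 0`.
-/

open Filter Topology Finset

namespace Pool.Agent.MP1f45fc.V

/-- Hadamard's inequality for real matrices (rows). -/
theorem hadamard_real {n : ℕ} (M : Matrix (Fin n) (Fin n) ℝ) :
    |M.det| ≤ ∏ i, Real.sqrt (∑ j, M i j ^ 2) := by
  have h := Pool.Agent.MP1f45fc.hadamard (M.map (Complex.ofRealHom : ℝ → ℂ))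
  have h1 : (M.map (Complex.ofRealHom : ℝ → ℂ)).det = ((M.det : ℝ) : ℂ) := by
    rw [show (M.map (Complex.ofRealHom : ℝ → ℂ)) = Complex.ofRealHom.mapMatrix M from rfl,
      ← RingHom.map_det]
    rfl
  rw [h1, Complex.norm_real, Real.norm_eq_abs] at h
  refine h.trans (le_of_eq ?_)
  refine prod_congr rfl fun i _ => ?_
  congr 1
  refine sum_congr rfl fun j _ => ?_
  simp [Matrix.map_apply, Complex.norm_real, sq_abs]

/-- products of a null sequence beat every geometric sequence -/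
theorem prod_small (τ : ℕ → ℝ) (h0 : ∀ i, 0 ≤ τ i) (h : Tendsto τ atTop (𝓝 0)) (K C : ℝ) :
    ∃ N, ∀ n, N ≤ n → C * K ^ n * ∏ i ∈ range n, τ i < 1 := by
  have hK : 0 < |K| + 1 := by positivity
  have hC : 0 ≤ |C| := abs_nonneg _
  -- eventually τ i ≤ 1 / (2 (|K| + 1))
  have h1 : ∀ᶠ i in atTop, τ i < 1 / (2 * (|K| + 1)) :=
    h.eventually_lt_const (by positivity)
  obtain ⟨m, hm⟩ := eventually_atTop.1 h1
  set P : ℝ := (|K| + 1) ^ m * ∏ i ∈ range m, τ i with hP
  have hP0 : 0 ≤ P := mul_nonneg (by positivity) (prod_nonneg fun i _ => h0 i)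
  -- bound
  have h2 : ∀ j : ℕ, (|K| + 1) ^ (m + j) * ∏ i ∈ range (m + j), τ i ≤ P * (1 / 2) ^ j := by
    intro j
    induction j with
    | zero => simp [hP]
    | succ j ih =>
      rw [← add_assoc, prod_range_succ, pow_succ]
      have h3 : (|K| + 1) * τ (m + j) ≤ 1 / 2 := by
        have := (hm (m + j) (by omega)).le
        calc (|K| + 1) * τ (m + j) ≤ (|K| + 1) * (1 / (2 * (|K| + 1))) :=
              mul_le_mul_of_nonneg_left this hK.le
          _ = 1 / 2 := by field_simp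
      have h4 : 0 ≤ (|K| + 1) * τ (m + j) := mul_nonneg hK.le (h0 _)
      calc (|K| + 1) ^ (m + j) * (|K| + 1) * ((∏ i ∈ range (m + j), τ i) * τ (m + j))
          = ((|K| + 1) ^ (m + j) * ∏ i ∈ range (m + j), τ i) * ((|K| + 1) * τ (m + j)) := by ring
        _ ≤ (P * (1 / 2) ^ j) * (1 / 2) :=
            mul_le_mul ih h3 h4 (by positivity)
        _ = P * (1 / 2) ^ (j + 1) := by ring
  have h5 : Tendsto (fun j : ℕ => |C| * (P * (1 / 2 : ℝ) ^ j)) atTop (𝓝 0) := by
    have h6 := (tendsto_pow_atTop_nhds_zero_of_lt_one (r := (1 / 2 : ℝ)) (by norm_num)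
      (by norm_num)).const_mul (|C| * P)
    simpa [mul_assoc] using h6
  obtain ⟨J, hJ⟩ := eventually_atTop.1 (h5.eventually_lt_const (zero_lt_one))
  refine ⟨m + J, fun n hn => ?_⟩
  obtain ⟨j, rfl⟩ : ∃ j, n = m + j := ⟨n - m, by omega⟩
  have hj := hJ j (by omega)
  have h7 : 0 ≤ ∏ i ∈ range (m + j), τ i := prod_nonneg fun i _ => h0 i
  calc C * K ^ (m + j) * ∏ i ∈ range (m + j), τ i
      ≤ |C| * (|K| + 1) ^ (m + j) * ∏ i ∈ range (m + j), τ i := by
        apply mul_le_mul_of_nonneg_right _ h7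
        calc C * K ^ (m + j) ≤ |C * K ^ (m + j)| := le_abs_self _
          _ = |C| * |K| ^ (m + j) := by rw [abs_mul, abs_pow]
          _ ≤ |C| * (|K| + 1) ^ (m + j) := by
            apply mul_le_mul_of_nonneg_left _ hC
            exact pow_le_pow_left₀ (abs_nonneg _) (by linarith) _
    _ = |C| * ((|K| + 1) ^ (m + j) * ∏ i ∈ range (m + j), τ i) := by ring
    _ ≤ |C| * (P * (1 / 2) ^ j) := mul_le_mul_of_nonneg_left (h2 j) hC
    _ < 1 := hj

end Pool.Agent.MP1f45fc.V
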