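import Pool.Agent.Lib.MP_1f45fc_nt.V.Defs

set_option autoImplicit false

/-!
# Theorem V, module V4a: square summability of the reciprocal series up to one zero
-/

open Polynomial

namespace Pool.Agent.MP1f45fc.V

/-- convolution with `m + ∑ r k z ^ k` -/
noncomputable def Q_conv (r : ℕ → ℤ) (m : ℝ) (u : ℕ → ℝ) (i : ℕ) : ℝ :=
  m * u i + ∑ j ∈ Finset.range i, (r (i - j) : ℝ) * u j

theorem Q_double (r : ℕ → ℤ) (m : ℝ) (y : ℕ → ℝ) (N : ℕ) :
    (∑ i ∈ Finset.range N, ∑ j ∈ Finset.range N, y i * y j * (r (Nat.dist i j) : ℝ)) +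
      (2 * m - r 0) * ∑ i ∈ Finset.range N, y i ^ 2 =
      2 * ∑ i ∈ Finset.range N, y i * Q_conv r m y i := by
  induction N with
  | zero => simp
  | succ N ih =>
    have h1 : (∑ i ∈ Finset.range (N + 1), ∑ j ∈ Finset.range (N + 1),
        y i * y j * (r (Nat.dist i j) : ℝ)) =
        (∑ i ∈ Finset.range N, ∑ j ∈ Finset.range N, y i * y j * (r (Nat.dist i j) : ℝ)) +
        2 * (y N * ∑ j ∈ Finset.range N, (r (N - j) : ℝ) * y j) + y N ^ 2 * r 0 := by
      rw [Finset.sum_range_succ]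
      have h2 : ∀ i ∈ Finset.range N, ∑ j ∈ Finset.range (N + 1),
          y i * y j * (r (Nat.dist i j) : ℝ) =
          ∑ j ∈ Finset.range N, y i * y j * (r (Nat.dist i j) : ℝ) +
            y N * ((r (N - i) : ℝ) * y i) := by
        intro i hi
        rw [Finset.mem_range] at hi
        rw [Finset.sum_range_succ]
        have : Nat.dist i N = N - i := Nat.dist_eq_sub_of_le hi.le
        rw [this]
        ring
      rw [Finset.sum_congr rfl h2, Finset.sum_add_distrib, ← Finset.mul_sum,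
        Finset.sum_range_succ]
      have h3 : ∀ j ∈ Finset.range N, y N * y j * (r (Nat.dist N j) : ℝ) =
          y N * ((r (N - j) : ℝ) * y j) := by
        intro j hj
        rw [Finset.mem_range] at hj
        have : Nat.dist N j = N - j := Nat.dist_eq_sub_of_le_right hj.le
        rw [this]
        ring
      rw [Finset.sum_congr rfl h3, ← Finset.mul_sum, Nat.dist_self]
      ring
    rw [h1, Finset.sum_range_succ (fun i => y i ^ 2), Finset.sum_range_succ (fun i => _ * _),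
      mul_add 2, ← ih, Q_conv]
    ring

theorem Q_tb (r : ℕ → ℤ) (y : ℕ → ℝ) (N : ℕ) (hN : 0 < N) :
    S.tb r (∑ k ∈ Finset.range N, C (y k) * X ^ k) (∑ k ∈ Finset.range N, C (y k) * X ^ k) =
      ∑ i ∈ Finset.range N, ∑ j ∈ Finset.range N, y i * y j * (r (Nat.dist i j) : ℝ) := by
  have hc : ∀ i ∈ Finset.range N, (∑ k ∈ Finset.range N, C (y k) * X ^ k : ℝ[X]).coeff i = y i := by
    intro i hi
    rw [finsetSum_coeff]
    simp only [coeff_C_mul, coeff_X_pow]
    rw [Finset.sum_eq_single_of_mem i hi]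
    · simp
    · intro k _ hk
      simp [hk.symm]
  have hd : (∑ k ∈ Finset.range N, C (y k) * X ^ k : ℝ[X]).natDegree < N := by
    refine lt_of_le_of_lt (natDegree_sum_le_of_forall_le (n := N - 1) _ _ ?_) (by omega)
    intro k hk
    rw [Finset.mem_range] at hk
    exact (natDegree_C_mul_X_pow_le _ _).trans (by omega)
  rw [S.tb_range r N _ _ hd hd]
  refine Finset.sum_congr rfl fun i hi => Finset.sum_congr rfl fun j hj => ?_
  rw [hc i hi, hc j hj]

/-- the shifted sequence -/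
def Q_shift (G : ℕ → ℝ) : ℕ → ℝ
  | 0 => 0
  | k + 1 => G k

theorem Q_conv_shift (r : ℕ → ℤ) (m : ℝ) (G : ℕ → ℝ) (i : ℕ) :
    Q_conv r m (Q_shift G) (i + 1) = Q_conv r m G i := by
  unfold Q_conv
  rw [Finset.sum_range_succ']
  simp [Q_shift]

theorem Q_conv_lin (r : ℕ → ℤ) (m : ℝ) (u v : ℕ → ℝ) (a b : ℝ) (i : ℕ) :
    Q_conv r m (fun k => a * u k + b * v k) i = a * Q_conv r m u i + b * Q_conv r m v i := by
  unfold Q_conv
  have : ∀ j ∈ Finset.range i, (r (i - j) : ℝ) * (a * u j + b * v j) =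
      a * ((r (i - j) : ℝ) * u j) + b * ((r (i - j) : ℝ) * v j) := by
    intro j _
    ring
  rw [Finset.sum_congr rfl this, Finset.sum_add_distrib, ← Finset.mul_sum, ← Finset.mul_sum]
  ring

theorem Q_unit (A B : ℝ) : ∃ c : ℝ × ℝ, c.1 ^ 2 + c.2 ^ 2 = 1 ∧ c.1 * A + c.2 * B = 0 := by
  by_cases h : A ^ 2 + B ^ 2 = 0
  · have hA : A = 0 := by nlinarith [sq_nonneg A, sq_nonneg B]
    have hB : B = 0 := by nlinarith [sq_nonneg A, sq_nonneg B]
    exact ⟨(1, 0), by simp, by simp [hA, hB]⟩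
  · have hpos : 0 < A ^ 2 + B ^ 2 := lt_of_le_of_ne (by positivity) (Ne.symm h)
    have hs : 0 < √(A ^ 2 + B ^ 2) := Real.sqrt_pos.2 hpos
    refine ⟨(B / √(A ^ 2 + B ^ 2), -A / √(A ^ 2 + B ^ 2)), ?_, ?_⟩
    · simp only
      rw [div_pow, div_pow, Real.sq_sqrt hpos.le]
      field_simp
      ring
    · simp only
      field_simp
      ring

theorem quasi {b p : ℝ} {r : ℕ → ℤ} (hb : 1 < b) (h : LSeq b r p) (m : ℝ) (hm0 : 0 < m)
    (hm : (r 0 : ℝ) < 2 * m) (G : ℕ → ℝ) (hG0 : m * G 0 = 1)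
    (hG : ∀ n : ℕ, m * G (n + 1) + ∑ i ∈ Finset.range (n + 1), (r (n + 1 - i) : ℝ) * G i = 0) :
    ∃ ζ : ℝ, Summable fun n : ℕ => (G (n + 1) - ζ * G n) ^ 2 := by
  have _ := hb
  have _ := hm0
  set κ : ℝ := 2 * m - r 0 with hκ
  have hκ0 : 0 < κ := by rw [hκ]; linarith
  let y : ℝ × ℝ → ℕ → ℝ := fun c k => c.1 * G k + c.2 * Q_shift G k
  have hconvG0 : Q_conv r m G 0 = 1 := by simpa [Q_conv] using hG0
  have hconvG : ∀ n, Q_conv r m G (n + 1) = 0 := by
    intro n
    rw [Q_conv]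
    exact hG n
  have hconv0 : ∀ c, Q_conv r m (y c) 0 = c.1 := by
    intro c
    rw [Q_conv_lin, hconvG0]
    simp [Q_conv, Q_shift]
  have hconv1 : ∀ c, Q_conv r m (y c) 1 = c.2 := by
    intro c
    rw [Q_conv_lin, hconvG 0, Q_conv_shift, hconvG0]
    ring
  have hconv2 : ∀ c n, Q_conv r m (y c) (n + 2) = 0 := by
    intro c n
    rw [Q_conv_lin, hconvG (n + 1), Q_conv_shift, hconvG n]
    ring
  have hsum : ∀ c n, ∑ i ∈ Finset.range (n + 2), y c i * Q_conv r m (y c) i =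
      y c 0 * c.1 + y c 1 * c.2 := by
    intro c n
    rw [Finset.sum_range_succ', Finset.sum_range_succ']
    have : ∑ k ∈ Finset.range n, y c (k + 1 + 1) * Q_conv r m (y c) (k + 1 + 1) = 0 := by
      refine Finset.sum_eq_zero fun k _ => ?_
      rw [hconv2 c k, mul_zero]
    rw [this, hconv0, hconv1]
    ring
  set D : ℝ := 4 * (|G 0| + |G 1|) with hD
  let K : ℕ → Set (ℝ × ℝ) := fun n =>
    {c | c.1 ^ 2 + c.2 ^ 2 = 1 ∧ κ * ∑ k ∈ Finset.range (n + 2), y c k ^ 2 ≤ D}
  have hcont : ∀ k, Continuous fun c : ℝ × ℝ => y c k := by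
    intro k
    exact (continuous_fst.mul continuous_const).add (continuous_snd.mul continuous_const)
  have hclosed : ∀ n, IsClosed (K n) := by
    intro n
    have c1 : IsClosed {c : ℝ × ℝ | c.1 ^ 2 + c.2 ^ 2 = 1} :=
      isClosed_eq (by fun_prop) continuous_const
    have c2 : IsClosed {c : ℝ × ℝ | κ * ∑ k ∈ Finset.range (n + 2), y c k ^ 2 ≤ D} := by
      refine isClosed_le ?_ continuous_const
      exact continuous_const.mul (continuous_finsetSum _ fun k _ => (hcont k).pow 2)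
    exact c1.inter c2
  have hmono : ∀ n, K (n + 1) ⊆ K n := by
    rintro n c ⟨h1, h2⟩
    refine ⟨h1, le_trans ?_ h2⟩
    refine mul_le_mul_of_nonneg_left ?_ hκ0.le
    rw [Finset.sum_range_succ _ (n + 2)]
    have := sq_nonneg (y c (n + 2))
    linarith
  have hcomp : IsCompact (K 0) := by
    refine IsCompact.of_isClosed_subset (isCompact_Icc.prod isCompact_Icc :
      IsCompact (Set.Icc (-1 : ℝ) 1 ×ˢ Set.Icc (-1 : ℝ) 1)) (hclosed 0) ?_
    rintro ⟨c1, c2⟩ ⟨h1, _⟩
    simp only at h1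
    refine Set.mk_mem_prod ⟨?_, ?_⟩ ⟨?_, ?_⟩ <;> nlinarith [sq_nonneg c1, sq_nonneg c2]
  have hne : ∀ n, (K n).Nonempty := by
    intro n
    obtain ⟨c, hc1, hc2⟩ := Q_unit (∑ k ∈ Finset.range (n + 2), G k * b ^ k)
      (∑ k ∈ Finset.range (n + 2), Q_shift G k * b ^ k)
    refine ⟨c, hc1, ?_⟩
    have hev : (∑ k ∈ Finset.range (n + 2), C (y c k) * X ^ k : ℝ[X]).eval b = 0 := by
      rw [eval_finsetSum, ← hc2, Finset.mul_sum, Finset.mul_sum, ← Finset.sum_add_distrib]
      refine Finset.sum_congr rfl fun k _ => ?_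
      simp only [eval_mul, eval_C, eval_pow, eval_X, y]
      ring
    have h1 := h (∑ k ∈ Finset.range (n + 2), C (y c k) * X ^ k)
    rw [hev, Q_tb r (y c) (n + 2) (by omega)] at h1
    have h2 := Q_double r m (y c) (n + 2)
    rw [hsum] at h2
    have h3 : κ * ∑ k ∈ Finset.range (n + 2), y c k ^ 2 ≤ 2 * (y c 0 * c.1 + y c 1 * c.2) := by
      rw [← h2, hκ]
      linarith
    refine h3.trans ?_
    have e0 : y c 0 = c.1 * G 0 := by simp [y, Q_shift]
    have e1 : y c 1 = c.1 * G 1 + c.2 * G 0 := by simp [y, Q_shift]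
    rw [e0, e1, hD]
    have g0 := le_abs_self (G 0)
    have g1 := le_abs_self (G 1)
    have g1' := neg_abs_le (G 1)
    have q1 : |c.1 * c.2| ≤ 1 := by
      rw [abs_le]
      constructor <;> nlinarith [sq_nonneg (c.1 + c.2), sq_nonneg (c.1 - c.2)]
    have q2 : c.1 * c.2 * G 1 ≤ |G 1| := by
      calc c.1 * c.2 * G 1 ≤ |c.1 * c.2 * G 1| := le_abs_self _
        _ = |c.1 * c.2| * |G 1| := abs_mul _ _
        _ ≤ 1 * |G 1| := mul_le_mul_of_nonneg_right q1 (abs_nonneg _)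
        _ = |G 1| := one_mul _
    have q3 : c.1 ^ 2 * G 0 + c.2 ^ 2 * G 0 = G 0 := by rw [← add_mul, hc1, one_mul]
    have := abs_nonneg (G 0)
    have := abs_nonneg (G 1)
    nlinarith
  obtain ⟨c, hc⟩ := IsCompact.nonempty_iInter_of_sequence_nonempty_isCompact_isClosed K hmono hne
    hcomp hclosed
  rw [Set.mem_iInter] at hc
  have hs : Summable fun k => y c k ^ 2 := by
    refine summable_of_sum_range_le (c := D / κ) (fun k => sq_nonneg _) fun n => ?_
    rw [le_div_iff₀ hκ0, mul_comm]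
    refine le_trans (mul_le_mul_of_nonneg_left ?_ hκ0.le) (hc n).2
    exact Finset.sum_le_sum_of_subset_of_nonneg
      (Finset.range_subset_range.2 (by omega)) fun _ _ _ => sq_nonneg _
  have hs1 : Summable fun k => y c (k + 1) ^ 2 :=
    (summable_nat_add_iff (f := fun k => y c k ^ 2) 1).2 hs
  by_cases hc0 : c.1 = 0
  · refine ⟨0, ?_⟩
    have h2 : c.2 ^ 2 = 1 := by
      have := (hc 0).1
      rw [hc0] at this
      linarith
    have h3 : (fun k => y c (k + 1) ^ 2) = fun k => G k ^ 2 := by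
      funext k
      simp only [y, Q_shift, hc0, zero_mul, zero_add]
      rw [mul_pow, h2, one_mul]
    rw [h3] at hs1
    have h4 := (summable_nat_add_iff (f := fun k => G k ^ 2) 1).2 hs1
    simpa using h4
  · refine ⟨-c.2 / c.1, ?_⟩
    have h3 : (fun n => (G (n + 1) - -c.2 / c.1 * G n) ^ 2) =
        fun n => (c.1 ^ 2)⁻¹ * y c (n + 1) ^ 2 := by
      funext n
      simp only [y, Q_shift]
      field_simp
      ring
    rw [h3]
    exact hs1.mul_left _

end Pool.Agent.MP1f45fc.V
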