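import Pool.Agent.Lib.MP_1f45fc_nt.V.Defs
import Mathlib

set_option autoImplicit false

/-!
# Theorem V: location of the roots

If the integer sequence `t` satisfies a linear recurrence with irreducible characteristic
polynomial `P` from some point on, `P b = 0` with `b > 1`, and `t k = w b ^ k + η k` with `η` square
summable and `w ≠ 0`, then all roots of `P` other than `b` are in the open unit disc.
-/

open Polynomial Filter Topology

namespace Pool.Agent.MP1f45fc.V

namespace Roots

/-- the shift of sequences -/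
def shf (K : Type*) [Field K] : Module.End K (ℕ → K) where
  toFun s k := s (k + 1)
  map_add' _ _ := rfl
  map_smul' _ _ := rfl

theorem shf_apply {K : Type*} [Field K] (s : ℕ → K) (k : ℕ) : shf K s k = s (k + 1) := rfl

theorem shf_pow {K : Type*} [Field K] (n : ℕ) (s : ℕ → K) (k : ℕ) :
    (shf K ^ n) s k = s (k + n) := by
  induction n generalizing s k with
  | zero => simp
  | succ n ih =>
    rw [pow_succ, Module.End.mul_apply, ih, shf_apply]
    rfl

theorem aeval_shf {K : Type*} [Field K] (R : K[X]) (n : ℕ) (h : R.natDegree < n) (s : ℕ → K)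
    (k : ℕ) : (aeval (shf K) R) s k = ∑ i ∈ Finset.range n, R.coeff i * s (k + i) := by
  rw [aeval_eq_sum_range' h, LinearMap.sum_apply, Finset.sum_apply]
  refine Finset.sum_congr rfl fun i _ => ?_
  rw [LinearMap.smul_apply, Pi.smul_apply, shf_pow, smul_eq_mul]

theorem aeval_tendsto (R : ℂ[X]) (s : ℕ → ℂ) (hs : Tendsto s atTop (𝓝 0)) :
    Tendsto ((aeval (shf ℂ) R) s) atTop (𝓝 0) := by
  have h1 : (aeval (shf ℂ) R) s =
      fun k => ∑ i ∈ Finset.range (R.natDegree + 1), R.coeff i * s (k + i) := by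
    funext k
    exact aeval_shf R _ (Nat.lt_succ_self _) s k
  rw [h1]
  have h2 : (0 : ℂ) = ∑ i ∈ Finset.range (R.natDegree + 1), R.coeff i * 0 := by simp
  rw [h2]
  refine tendsto_finsetSum _ fun i _ => ?_
  exact ((hs.comp (tendsto_add_atTop_nat i)).const_mul _)

/-- a sequence with `u (k+1) = z u k`, `‖z‖ ≥ 1`, tending to `0` vanishes -/
theorem geo_zero (z : ℂ) (hz : 1 ≤ ‖z‖) (u : ℕ → ℂ) (hu : Tendsto u atTop (𝓝 0))
    (h : (aeval (shf ℂ) (X - C z)) u = 0) : u = 0 := by
  have h1 : ∀ k, u (k + 1) = z * u k := by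
    intro k
    have := congrFun h k
    simp only [map_sub, aeval_X, aeval_C, LinearMap.sub_apply, Pi.sub_apply, shf_apply,
      Pi.zero_apply, Module.algebraMap_end_apply, Pi.smul_apply, smul_eq_mul] at this
    linear_combination this
  have h2 : ∀ k m, ‖u k‖ ≤ ‖u (k + m)‖ := by
    intro k m
    induction m with
    | zero => simp
    | succ m ih =>
      refine ih.trans ?_
      rw [← add_assoc, h1, norm_mul]
      nlinarith [norm_nonneg (u (k + m))]
  funext k
  have h3 : Tendsto (fun m => ‖u (k + m)‖) atTop (𝓝 0) := by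
    have := (hu.comp (tendsto_add_atTop_nat k)).norm
    rw [norm_zero] at this
    refine this.congr fun m => ?_
    simp only [Function.comp]
    rw [add_comm]
  have h4 : ‖u k‖ ≤ 0 := ge_of_tendsto' h3 fun m => h2 k m
  simpa using h4

end Roots

open Roots

theorem roots_lt (P : ℤ[X]) (hP : Irreducible P) (hP0 : P.coeff 0 ≠ 0) {b : ℝ} (hb : 1 < b)
    (hPb : aeval b P = 0) (t : ℕ → ℤ) (k₀ : ℕ) (ht : ∀ k, k₀ ≤ k → sh t P k = 0)
    (w : ℝ) (hw : w ≠ 0) (η : ℕ → ℝ) (hη : Summable fun k => η k ^ 2)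
    (h : ∀ k, (t k : ℝ) = w * b ^ k + η k) :
    ∀ z : ℂ, aeval z P = 0 → z ≠ (b : ℂ) → ‖z‖ < 1 := by
  intro z hz hzb
  by_contra hcon
  have hz1 : 1 ≤ ‖z‖ := not_lt.1 hcon
  clear hcon
  -- `η → 0`
  have hη0 : Tendsto η atTop (𝓝 0) := by
    have h1 := hη.tendsto_atTop_zero
    have h2 : Tendsto (fun k => Real.sqrt (η k ^ 2)) atTop (𝓝 (Real.sqrt 0)) :=
      (Real.continuous_sqrt.tendsto 0).comp h1
    rw [Real.sqrt_zero] at h2
    refine squeeze_zero_norm (fun k => ?_) h2
    rw [Real.sqrt_sq_eq_abs, Real.norm_eq_abs]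
  set Pc : ℂ[X] := P.map (Int.castRingHom ℂ) with hPc
  have hPcb : Pc.eval (b : ℂ) = 0 := by
    have h1 : ((aeval b P : ℝ) : ℂ) = aeval (b : ℂ) P := by
      have := (aeval_algebraMap_apply ℂ b P)
      simpa using this.symm
    rw [hPb] at h1
    rw [hPc, eval_map, ← algebraMap_int_eq, ← aeval_def, ← h1, Complex.ofReal_zero]
  have hPcz : Pc.eval z = 0 := by
    rw [hPc, eval_map, ← algebraMap_int_eq, ← aeval_def, hz]
  obtain ⟨Q, hQ⟩ := dvd_iff_isRoot.2 (show IsRoot Pc (b : ℂ) from hPcb)
  have hQz : Q.eval z = 0 := by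
    rw [hQ, eval_mul, eval_sub, eval_X, eval_C] at hPcz
    rcases mul_eq_zero.1 hPcz with h1 | h1
    · exact absurd (sub_eq_zero.1 h1) hzb
    · exact h1
  obtain ⟨T, hT⟩ := dvd_iff_isRoot.2 (show IsRoot Q z from hQz)
  have hPne : P ≠ 0 := hP.ne_zero
  have hPcne : Pc ≠ 0 := by
    rw [hPc, Ne, Polynomial.map_eq_zero_iff (RingHom.injective_int _)]
    exact hPne
  have hdeg : Pc.natDegree = P.natDegree :=
    natDegree_map_eq_of_injective (RingHom.injective_int _) P
  have hTne : T ≠ 0 := by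
    rintro rfl
    rw [mul_zero] at hT
    rw [hT, mul_zero] at hQ
    exact hPcne hQ
  -- the shifted sequences
  set e : ℕ → ℂ := fun k => ((η (k + k₀) : ℝ) : ℂ) with he
  set s : ℕ → ℂ := fun k => ((t (k + k₀) : ℤ) : ℂ) with hs
  set g : ℕ → ℂ := fun k => (w : ℂ) * (b : ℂ) ^ (k + k₀) with hg
  have hsum : s = g + e := by
    funext k
    have := h (k + k₀)
    have h2 := congrArg (fun x : ℝ => (x : ℂ)) this
    simp only [hs, hg, he, Pi.add_apply]
    push_cast at h2
    exact h2
  have he0 : Tendsto e atTop (𝓝 0) := by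
    have h1 := (hη0.comp (tendsto_add_atTop_nat k₀))
    have h2 := (Complex.continuous_ofReal.tendsto 0).comp h1
    rw [Complex.ofReal_zero] at h2
    exact h2
  have hgX : (aeval (shf ℂ) (X - C (b : ℂ))) g = 0 := by
    funext k
    simp only [map_sub, aeval_X, aeval_C, LinearMap.sub_apply, Pi.sub_apply, shf_apply,
      Pi.zero_apply, Module.algebraMap_end_apply, Pi.smul_apply, smul_eq_mul, hg]
    ring
  have hsP : (aeval (shf ℂ) Pc) s = 0 := by
    funext k
    have h1 := ht (k + k₀) (Nat.le_add_left _ _)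
    rw [sh, sum_over_range _ (fun i => by simp)] at h1
    rw [aeval_shf Pc (P.natDegree + 1) (by rw [hdeg]; exact Nat.lt_succ_self _)]
    have h2 := congrArg (fun x : ℤ => (x : ℂ)) h1
    simp only [Int.cast_sum, Int.cast_mul, Int.cast_zero] at h2
    rw [Pi.zero_apply, ← h2]
    refine Finset.sum_congr rfl fun i _ => ?_
    simp only [hPc, coeff_map, hs, eq_intCast]
    congr 3
    ring
  have hgP : (aeval (shf ℂ) Pc) g = 0 := by
    rw [hQ, mul_comm, map_mul, Module.End.mul_apply, hgX, map_zero]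
  have heP : (aeval (shf ℂ) Pc) e = 0 := by
    have h1 : e = s - g := by rw [hsum]; simp
    rw [h1, map_sub, hsP, hgP, sub_zero]
  have hv : (aeval (shf ℂ) Q) e = 0 := by
    refine geo_zero (b : ℂ) ?_ _ (aeval_tendsto Q e he0) ?_
    · rw [Complex.norm_real, Real.norm_eq_abs]
      exact hb.le.trans (le_abs_self b)
    · rw [← Module.End.mul_apply, ← map_mul, ← hQ]
      exact heP
  have hu : (aeval (shf ℂ) T) e = 0 := by
    refine geo_zero z hz1 _ (aeval_tendsto T e he0) ?_
    rw [← Module.End.mul_apply, ← map_mul, ← hT]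
    exact hv
  set R : ℂ[X] := (X - C (b : ℂ)) * T with hR
  have hRne : R ≠ 0 := mul_ne_zero (X_sub_C_ne_zero _) hTne
  have hRs : (aeval (shf ℂ) R) s = 0 := by
    rw [hsum, map_add, hR, map_mul, Module.End.mul_apply, Module.End.mul_apply, hu, map_zero,
      add_zero, ← Module.End.mul_apply, ← map_mul, mul_comm, map_mul, Module.End.mul_apply, hgX,
      map_zero]
  have hRdeg : R.natDegree < P.natDegree := by
    have h1 : Pc = (X - C z) * R := by
      rw [hQ, hT, hR]; ring
    have h2 : Pc.natDegree = 1 + R.natDegree := by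
      rw [h1, natDegree_mul (X_sub_C_ne_zero _) hRne, natDegree_X_sub_C]
    omega
  -- descend to `ℚ`
  obtain ⟨i₀, hi₀⟩ : ∃ i, R.coeff i ≠ 0 := by
    by_contra hcon
    push Not at hcon
    exact hRne (Polynomial.ext fun i => by simpa using hcon i)
  obtain ⟨φ, hφ⟩ : ∃ φ : Module.Dual ℚ ℂ, φ (R.coeff i₀) ≠ 0 := by
    by_contra hcon
    push Not at hcon
    exact hi₀ ((Module.forall_dual_apply_eq_zero_iff ℚ _).1 hcon)
  set V : ℚ[X] := ∑ i ∈ Finset.range P.natDegree, monomial i (φ (R.coeff i)) with hV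
  have hVc : ∀ i, i < P.natDegree → V.coeff i = φ (R.coeff i) := by
    intro i hi
    rw [hV, finsetSum_coeff]
    simp only [coeff_monomial]
    rw [Finset.sum_ite_eq' , if_pos (Finset.mem_range.2 hi)]
  have hi₀d : i₀ < P.natDegree := lt_of_le_of_lt (le_natDegree_of_ne_zero hi₀) hRdeg
  have hVne : V ≠ 0 := by
    intro h0
    have := hVc i₀ hi₀d
    rw [h0, coeff_zero] at this
    exact hφ this.symm
  have hVdeg : V.natDegree < P.natDegree := by
    have h1 : V.natDegree ≤ P.natDegree - 1 := by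
      rw [hV]
      refine natDegree_sum_le_of_forall_le _ _ fun i hi => ?_
      have := Finset.mem_range.1 hi
      exact (natDegree_monomial_le _).trans (by omega)
    omega
  set sq : ℕ → ℚ := fun k => ((t (k + k₀) : ℤ) : ℚ) with hsq
  have hVs : (aeval (shf ℚ) V) sq = 0 := by
    funext k
    rw [aeval_shf V P.natDegree hVdeg]
    have h1 := congrFun hRs k
    rw [aeval_shf R P.natDegree hRdeg] at h1
    have h2 := congrArg φ h1
    rw [map_sum] at h2
    simp only [Pi.zero_apply, map_zero] at h2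
    rw [Pi.zero_apply, ← h2]
    refine Finset.sum_congr rfl fun i hi => ?_
    rw [hVc i (Finset.mem_range.1 hi)]
    have h3 : R.coeff i * s (k + i) = (sq (k + i)) • R.coeff i := by
      rw [hs, hsq]
      simp only
      rw [Algebra.smul_def, mul_comm]
      simp
    rw [h3, map_smul, smul_eq_mul, mul_comm]
  set Pq : ℚ[X] := P.map (Int.castRingHom ℚ) with hPq
  have hPs : (aeval (shf ℚ) Pq) sq = 0 := by
    funext k
    have h1 := ht (k + k₀) (Nat.le_add_left _ _)
    rw [sh, sum_over_range _ (fun i => by simp)] at h1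
    have hdq : Pq.natDegree = P.natDegree :=
      natDegree_map_eq_of_injective (RingHom.injective_int _) P
    rw [aeval_shf Pq (P.natDegree + 1) (by rw [hdq]; exact Nat.lt_succ_self _)]
    have h2 := congrArg (fun x : ℤ => (x : ℚ)) h1
    simp only [Int.cast_sum, Int.cast_mul, Int.cast_zero] at h2
    rw [Pi.zero_apply, ← h2]
    refine Finset.sum_congr rfl fun i _ => ?_
    simp only [hPq, coeff_map, hsq, eq_intCast]
    congr 3
    ring
  have hd0 : 0 < P.natDegree := lt_of_le_of_lt (Nat.zero_le _) hRdeg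
  have hprim : P.IsPrimitive := hP.isPrimitive hd0.ne'
  have hPqi : Irreducible Pq := (IsPrimitive.Int.irreducible_iff_irreducible_map_cast hprim).1 hP
  have hcop : IsCoprime Pq V := by
    rcases EuclideanDomain.dvd_or_coprime Pq V hPqi with h1 | h1
    swap
    · exact h1
    · exfalso
      have h2 := natDegree_le_of_dvd h1 hVne
      have hdq : Pq.natDegree = P.natDegree :=
        natDegree_map_eq_of_injective (RingHom.injective_int _) P
      omega
  obtain ⟨A, B, hAB⟩ := hcop
  have hsq0 : sq = 0 := by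
    have h1 : sq = (aeval (shf ℚ) (A * Pq + B * V)) sq := by
      rw [hAB, map_one, Module.End.one_apply]
    rw [h1, map_add, LinearMap.add_apply, map_mul, map_mul, Module.End.mul_apply,
      Module.End.mul_apply, hPs, hVs, map_zero, map_zero, add_zero]
  have ht0 : ∀ k, t (k + k₀) = 0 := by
    intro k
    have := congrFun hsq0 k
    simpa [hsq] using this
  -- `w b ^ k → 0`: contradiction
  have h1 : Tendsto (fun k => η (k + k₀)) atTop (𝓝 0) := hη0.comp (tendsto_add_atTop_nat k₀)
  have h2 : ∀ k, |w| ≤ |η (k + k₀)| := by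
    intro k
    have h3 := h (k + k₀)
    rw [ht0, Int.cast_zero] at h3
    have h4 : η (k + k₀) = - (w * b ^ (k + k₀)) := by linarith
    rw [h4, abs_neg, abs_mul, abs_pow]
    have h5 : 1 ≤ |b| ^ (k + k₀) := one_le_pow₀ (hb.le.trans (le_abs_self b))
    nlinarith [abs_nonneg w]
  have h3 : |w| ≤ 0 := by
    have h4 := h1.abs
    rw [abs_zero] at h4
    exact ge_of_tendsto' h4 h2
  exact hw (abs_eq_zero.1 (le_antisymm h3 (abs_nonneg w)))

end Pool.Agent.MP1f45fc.V
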