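import Mathlib
import Pool.Agent.Lib.MP_1f45fc_nt.V.Defs

set_option autoImplicit false

/-!
# Every Salem number has a level

For a Salem number `b` the power sums `r k` of all its conjugates are integers, and
`∑ f_i f_j r_{|i-j|} = 2 f(b) f(1/b) + ∑ |f(z)|²`, the last sum over the conjugates on the unit
circle.
-/

open Polynomial IntermediateField Finset

namespace Pool.Agent.MP1f45fc.V

theorem circle_pow (z : ℂ) (hz : ‖z‖ = 1) (i j : ℕ) :
    (z ^ i * (starRingEnd ℂ z) ^ j).re = (z ^ Nat.dist i j).re := by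
  have h1 : z * starRingEnd ℂ z = 1 := by
    rw [Complex.mul_conj, Complex.normSq_eq_norm_sq, hz]; norm_num
  rcases le_total j i with h | h
  · have e : Nat.dist i j = i - j := by rw [Nat.dist]; omega
    obtain ⟨k, rfl⟩ := Nat.exists_eq_add_of_le h
    rw [e, Nat.add_sub_cancel_left]
    have : z ^ (j + k) * (starRingEnd ℂ z) ^ j = z ^ k := by
      rw [pow_add, mul_right_comm, ← mul_pow, h1, one_pow, one_mul]
    rw [this]
  · have e : Nat.dist i j = j - i := by rw [Nat.dist]; omega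
    obtain ⟨k, rfl⟩ := Nat.exists_eq_add_of_le h
    rw [e, Nat.add_sub_cancel_left]
    have : z ^ i * (starRingEnd ℂ z) ^ (i + k) = starRingEnd ℂ (z ^ k) := by
      rw [pow_add, ← mul_assoc, ← mul_pow, h1, one_pow, one_mul, map_pow]
    rw [this, Complex.conj_re]

theorem circle_sum (z : ℂ) (hz : ‖z‖ = 1) (f : ℝ[X]) (N : ℕ) (hN : f.natDegree < N) :
    0 ≤ ∑ i ∈ range N, ∑ j ∈ range N, f.coeff i * f.coeff j * (z ^ Nat.dist i j).re := by
  have h1 : aeval z f = ∑ i ∈ range N, (f.coeff i : ℂ) * z ^ i := by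
    rw [aeval_eq_sum_range' hN]
    refine sum_congr rfl fun i _ => ?_
    rw [Algebra.smul_def]; rfl
  have h2 : (aeval z f * starRingEnd ℂ (aeval z f)).re =
      ∑ i ∈ range N, ∑ j ∈ range N, f.coeff i * f.coeff j * (z ^ Nat.dist i j).re := by
    rw [h1, map_sum, sum_mul_sum, Complex.re_sum]
    refine sum_congr rfl fun i _ => ?_
    rw [Complex.re_sum]
    refine sum_congr rfl fun j _ => ?_
    rw [← circle_pow z hz i j, map_mul, map_pow, Complex.conj_ofReal]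
    have : (f.coeff i : ℂ) * z ^ i * ((f.coeff j : ℂ) * (starRingEnd ℂ z) ^ j) =
        ((f.coeff i * f.coeff j : ℝ) : ℂ) * (z ^ i * (starRingEnd ℂ z) ^ j) := by
      push_cast; ring
    rw [this, Complex.re_ofReal_mul]
  rw [← h2, Complex.mul_conj]
  rw [Complex.ofReal_re]
  exact Complex.normSq_nonneg _

theorem real_sum (b : ℝ) (hb : b ≠ 0) (f : ℝ[X]) (N : ℕ) (hN : f.natDegree < N) :
    ∑ i ∈ range N, ∑ j ∈ range N,
      f.coeff i * f.coeff j * (b ^ Nat.dist i j + b⁻¹ ^ Nat.dist i j) =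
        2 * (f.eval b * f.eval b⁻¹) := by
  have h0 : b * b⁻¹ = 1 := mul_inv_cancel₀ hb
  have key : ∀ i j : ℕ, b ^ Nat.dist i j + b⁻¹ ^ Nat.dist i j =
      b ^ i * b⁻¹ ^ j + b⁻¹ ^ i * b ^ j := by
    intro i j
    rcases le_total j i with h | h
    · have e : Nat.dist i j = i - j := by rw [Nat.dist]; omega
      obtain ⟨k, rfl⟩ := Nat.exists_eq_add_of_le h
      rw [e, Nat.add_sub_cancel_left]
      have e1 : b ^ (j + k) * b⁻¹ ^ j = b ^ k := by
        rw [pow_add, mul_right_comm, ← mul_pow, h0, one_pow, one_mul]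
      have e2 : b⁻¹ ^ (j + k) * b ^ j = b⁻¹ ^ k := by
        rw [pow_add, mul_right_comm, ← mul_pow, mul_comm b⁻¹, h0, one_pow, one_mul]
      rw [e1, e2]
    · have e : Nat.dist i j = j - i := by rw [Nat.dist]; omega
      obtain ⟨k, rfl⟩ := Nat.exists_eq_add_of_le h
      rw [e, Nat.add_sub_cancel_left]
      have e1 : b ^ i * b⁻¹ ^ (i + k) = b⁻¹ ^ k := by
        rw [pow_add, ← mul_assoc, ← mul_pow, h0, one_pow, one_mul]
      have e2 : b⁻¹ ^ i * b ^ (i + k) = b ^ k := by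
        rw [pow_add, ← mul_assoc, ← mul_pow, mul_comm b⁻¹, h0, one_pow, one_mul]
      rw [e1, e2, add_comm]
  have h1 : f.eval b = ∑ i ∈ range N, f.coeff i * b ^ i := eval_eq_sum_range' hN b
  have h2 : f.eval b⁻¹ = ∑ i ∈ range N, f.coeff i * b⁻¹ ^ i := eval_eq_sum_range' hN b⁻¹
  have e1 : f.eval b * f.eval b⁻¹ = ∑ i ∈ range N, ∑ j ∈ range N,
      f.coeff i * f.coeff j * (b ^ i * b⁻¹ ^ j) := by
    rw [h1, h2, sum_mul_sum]
    refine sum_congr rfl fun i _ => sum_congr rfl fun j _ => ?_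
    ring
  have e2 : f.eval b * f.eval b⁻¹ = ∑ i ∈ range N, ∑ j ∈ range N,
      f.coeff i * f.coeff j * (b⁻¹ ^ i * b ^ j) := by
    rw [mul_comm, h1, h2, sum_mul_sum]
    refine sum_congr rfl fun i _ => sum_congr rfl fun j _ => ?_
    ring
  rw [two_mul]
  nth_rewrite 1 [e1]
  rw [e2, ← sum_add_distrib]
  refine sum_congr rfl fun i _ => ?_
  rw [← sum_add_distrib]
  refine sum_congr rfl fun j _ => ?_
  rw [key]; ring

/-- The power sums of the conjugates are integers. -/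
theorem power_sums {b : ℝ} (hint : IsIntegral ℤ b) [FiniteDimensional ℚ ℚ⟮b⟯] :
    ∃ r : ℕ → ℤ, ∀ k,
    (r k : ℂ) = ∑ σ : ℚ⟮b⟯ →ₐ[ℚ] ℂ, (σ (AdjoinSimple.gen ℚ b)) ^ k := by
  have hg : IsIntegral ℤ (AdjoinSimple.gen ℚ b) := by
    have h1 : IsIntegral ℤ (algebraMap ℚ⟮b⟯ ℝ (AdjoinSimple.gen ℚ b)) := by
      rw [AdjoinSimple.algebraMap_gen]; exact hint
    exact (isIntegral_algebraMap_iff (algebraMap ℚ⟮b⟯ ℝ).injective).mp h1
  have h : ∀ k, ∃ n : ℤ, (n : ℚ) = Algebra.trace ℚ ℚ⟮b⟯ ((AdjoinSimple.gen ℚ b) ^ k) := by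
    intro k
    have h1 : IsIntegral ℤ (Algebra.trace ℚ ℚ⟮b⟯ ((AdjoinSimple.gen ℚ b) ^ k)) :=
      Algebra.isIntegral_trace (hg.pow k)
    obtain ⟨n, hn⟩ := IsIntegrallyClosed.isIntegral_iff.mp h1
    exact ⟨n, by simpa using hn⟩
  choose r hr using h
  refine ⟨r, fun k => ?_⟩
  have h2 := trace_eq_sum_embeddings ℂ (K := ℚ) (L := ℚ⟮b⟯) (x := (AdjoinSimple.gen ℚ b) ^ k)
  rw [← hr k] at h2
  simp only [map_pow] at h2
  rw [← h2]
  simp

theorem reverse_root {m : ℚ[X]} {z : ℂ} (hz : z ≠ 0) (h : aeval z m = 0) :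
    aeval z⁻¹ m.reverse = 0 := by
  let _ : Invertible z := invertibleOfNonzero hz
  have h1 := (eval₂_reverse_eq_zero_iff (algebraMap ℚ ℂ) z m).mpr h
  rw [invOf_eq_inv] at h1
  exact h1

theorem of_reverse_root {m : ℚ[X]} {z : ℂ} (hz : z ≠ 0) (h : aeval z m.reverse = 0) :
    aeval z⁻¹ m = 0 := by
  let _ : Invertible z⁻¹ := invertibleOfNonzero (inv_ne_zero hz)
  have h1 := (eval₂_reverse_eq_zero_iff (algebraMap ℚ ℂ) z⁻¹ m).mp
  rw [invOf_eq_inv, inv_inv] at h1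
  exact h1 h

theorem lev_of_salem {b : ℝ} (hint : IsIntegral ℤ b) (hb : 1 < b)
    (h : ∀ z : ℂ, aeval z (minpoly ℤ b) = 0 → z ≠ b → ‖z‖ ≤ 1)
    (h1 : ∃ z : ℂ, aeval z (minpoly ℤ b) = 0 ∧ ‖z‖ = 1) : ∃ L, Lev L b := by
  classical
  have hb0 : (0 : ℝ) < b := by linarith
  have hbQ : IsIntegral ℚ b := hint.tower_top
  have : FiniteDimensional ℚ ℚ⟮b⟯ := adjoin.finiteDimensional hbQ
  set m : ℚ[X] := minpoly ℚ b with hm
  have hmirr : Irreducible m := minpoly.irreducible hbQ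
  have hmm : m.Monic := minpoly.monic hbQ
  have hQ : m = (minpoly ℤ b).map (algebraMap ℤ ℚ) :=
    minpoly.isIntegrallyClosed_eq_field_fractions' ℚ hint
  have haz : ∀ z : ℂ, aeval z m = 0 ↔ aeval z (minpoly ℤ b) = 0 := by
    intro z
    rw [hQ, aeval_map_algebraMap]
  -- divisibility: a rational polynomial that vanishes at a root of `m` is divisible by `m`
  have hdvd : ∀ (z : ℂ) (q : ℚ[X]), aeval z m = 0 → aeval z q = 0 → m ∣ q := by
    intro z q hz hq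
    have e : m = minpoly ℚ z := minpoly.eq_of_irreducible_of_monic hmirr hz hmm
    rw [e]
    exact minpoly.dvd ℚ z hq
  obtain ⟨z0, hz0, hz01⟩ := h1
  have hz0' : aeval z0 m = 0 := (haz z0).mpr hz0
  have hz00 : z0 ≠ 0 := by
    intro h0; rw [h0, norm_zero] at hz01; norm_num at hz01
  have hrec : m ∣ m.reverse := by
    have e : z0⁻¹ = starRingEnd ℂ z0 := by
      rw [Complex.inv_def, Complex.normSq_eq_norm_sq, hz01]; simp
    have h2 : aeval z0⁻¹ m = 0 := by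
      rw [e]
      have h3 := congrArg (starRingEnd ℂ) hz0'
      rw [map_zero] at h3
      rw [← h3, aeval_eq_sum_range, aeval_eq_sum_range, map_sum]
      refine sum_congr rfl fun i _ => ?_
      rw [Algebra.smul_def, Algebra.smul_def, map_mul, map_pow]
      congr 1
      simp
    exact hdvd z0⁻¹ _ h2 (reverse_root hz00 hz0')
  have hm0 : ∀ z : ℂ, aeval z m = 0 → z ≠ 0 := by
    intro z hz h0
    rw [h0] at hz
    have h3 : m.coeff 0 = 0 := by
      have : aeval (0 : ℂ) m = algebraMap ℚ ℂ (m.coeff 0) := by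
        rw [coeff_zero_eq_aeval_zero, ← aeval_algebraMap_apply, map_zero]
      rw [this] at hz
      exact (map_eq_zero _).mp hz
    exact minpoly.coeff_zero_ne_zero hbQ hb0.ne' h3
  have hinv : ∀ z : ℂ, aeval z m = 0 → aeval z⁻¹ m = 0 := by
    intro z hz
    obtain ⟨c, hc⟩ := hrec
    refine of_reverse_root (hm0 z hz) ?_
    rw [hc, map_mul, hz, zero_mul]
  have hbm : aeval (b : ℂ) m = 0 := by
    rw [show (b : ℂ) = algebraMap ℝ ℂ b from rfl, aeval_algebraMap_apply, minpoly.aeval, map_zero]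
  -- the embeddings
  set g := AdjoinSimple.gen ℚ b with hg
  have hroot : ∀ σ : ℚ⟮b⟯ →ₐ[ℚ] ℂ, aeval (σ g) m = 0 := by
    intro σ
    have h3 : aeval g m = 0 := by
      apply (algebraMap ℚ⟮b⟯ ℝ).injective
      rw [← aeval_algebraMap_apply, AdjoinSimple.algebraMap_gen, map_zero, hm, minpoly.aeval]
    have h4 := congrArg σ h3
    rw [← aeval_algHom_apply, map_zero] at h4
    exact h4
  have hinj : ∀ σ τ : ℚ⟮b⟯ →ₐ[ℚ] ℂ, σ g = τ g → σ = τ := by
    intro σ τ hστ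
    exact algHom_ext_of_eq_adjoin _ rfl (by
      intro x hx
      rw [Set.mem_singleton_iff] at hx
      subst hx
      exact hστ)
  have hex : ∀ z : ℂ, aeval z m = 0 → ∃ σ : ℚ⟮b⟯ →ₐ[ℚ] ℂ, σ g = z := by
    intro z hz
    refine ⟨(algHomAdjoinIntegralEquiv ℚ hbQ).symm ⟨z, ?_⟩, ?_⟩
    · rw [mem_aroots]
      exact ⟨hmirr.ne_zero, hz⟩
    · exact algHomAdjoinIntegralEquiv_symm_apply_gen ℚ hbQ _
  obtain ⟨σ0, hσ0⟩ := hex b hbm
  obtain ⟨σ1, hσ1⟩ := hex (b : ℂ)⁻¹ (hinv _ hbm)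
  have hne : (b : ℂ) ≠ (b : ℂ)⁻¹ := by
    intro h3
    have h4 : b = b⁻¹ := by exact_mod_cast h3
    have : b⁻¹ < 1 := inv_lt_one_of_one_lt₀ hb
    linarith
  have h01 : σ0 ≠ σ1 := by
    intro h3
    rw [h3, hσ1] at hσ0
    exact hne hσ0.symm
  have hcirc : ∀ σ : ℚ⟮b⟯ →ₐ[ℚ] ℂ, σ ≠ σ0 → σ ≠ σ1 → ‖σ g‖ = 1 := by
    intro σ hs0 hs1
    have hz := hroot σ
    have h2 : σ g ≠ b := fun h3 => hs0 (hinj _ _ (h3.trans hσ0.symm))
    have h3 : (σ g)⁻¹ ≠ b := by
      intro h4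
      apply hs1
      apply hinj
      rw [hσ1, ← h4, inv_inv]
    have h4 := h _ ((haz _).mp hz) h2
    have h5 := h _ ((haz _).mp (hinv _ hz)) h3
    rw [norm_inv] at h5
    have h6 : 0 < ‖σ g‖ := norm_pos_iff.mpr (hm0 _ hz)
    have h7 : 1 ≤ ‖σ g‖ := by
      have := (inv_le_one₀ h6).mp h5
      exact this
    exact le_antisymm h4 h7
  obtain ⟨r, hr⟩ := power_sums hint
  have hr2 : ∀ k, (r k : ℝ) = (b ^ k + b⁻¹ ^ k) +
      ∑ σ ∈ (univ.erase σ0).erase σ1, ((σ g) ^ k).re := by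
    intro k
    have h3 : ((r k : ℂ)).re = ∑ σ : ℚ⟮b⟯ →ₐ[ℚ] ℂ, ((σ g) ^ k).re := by
      rw [hr k, Complex.re_sum]
    have h4 : ((r k : ℂ)).re = (r k : ℝ) := by
      rw [Complex.intCast_re]
    rw [← h4, h3, ← add_sum_erase univ _ (mem_univ σ0),
      ← add_sum_erase (univ.erase σ0) _ (mem_erase.mpr ⟨h01.symm, mem_univ σ1⟩), hσ0, hσ1]
    have e1 : (((b : ℂ) ^ k).re) = b ^ k := by
      rw [← Complex.ofReal_pow, Complex.ofReal_re]
    have e2 : ((((b : ℂ)⁻¹) ^ k).re) = b⁻¹ ^ k := by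
      rw [← Complex.ofReal_inv, ← Complex.ofReal_pow, Complex.ofReal_re]
    rw [e1, e2]; ring
  refine ⟨max |(r 0 : ℝ)| |(r 1 : ℝ)|, hb, r, 1, one_ne_zero, fun f => ?_, le_max_left _ _,
    le_max_right _ _⟩
  have hN : f.natDegree < f.natDegree + 1 := Nat.lt_succ_self _
  rw [S.tb_range r (f.natDegree + 1) f f hN hN]
  have e : ∀ i j, f.coeff i * f.coeff j * (r (Nat.dist i j) : ℝ) =
      f.coeff i * f.coeff j * (b ^ Nat.dist i j + b⁻¹ ^ Nat.dist i j) +
      ∑ σ ∈ (univ.erase σ0).erase σ1,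
        f.coeff i * f.coeff j * ((σ g) ^ Nat.dist i j).re := by
    intro i j
    rw [hr2, mul_add, mul_sum]
  have e2 : ∑ i ∈ range (f.natDegree + 1), ∑ j ∈ range (f.natDegree + 1),
      f.coeff i * f.coeff j * (r (Nat.dist i j) : ℝ) = 2 * (f.eval b * f.eval b⁻¹) +
      ∑ σ ∈ (univ.erase σ0).erase σ1, ∑ i ∈ range (f.natDegree + 1),
        ∑ j ∈ range (f.natDegree + 1), f.coeff i * f.coeff j * ((σ g) ^ Nat.dist i j).re := by
    rw [← real_sum b hb0.ne' f _ hN, sum_comm' (t' := range (f.natDegree + 1))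
      (s' := fun _ => (univ.erase σ0).erase σ1)]
    · rw [← sum_add_distrib]
      refine sum_congr rfl fun i _ => ?_
      rw [sum_comm, ← sum_add_distrib]
      exact sum_congr rfl fun j _ => e i j
    · intro x y; tauto
  rw [e2]
  have h3 : 0 ≤ ∑ σ ∈ (univ.erase σ0).erase σ1, ∑ i ∈ range (f.natDegree + 1),
      ∑ j ∈ range (f.natDegree + 1), f.coeff i * f.coeff j * ((σ g) ^ Nat.dist i j).re := by
    refine sum_nonneg fun σ hσ => ?_
    rw [mem_erase, mem_erase] at hσ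
    exact circle_sum _ (hcirc σ hσ.2.1 hσ.1) f _ hN
  linarith

end Pool.Agent.MP1f45fc.V
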