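import Mathlib
import Pool.Agent.Lib.MP_1f45fc_nt.V.MainV
import Pool.Agent.Lib.MP_1f45fc_nt.V.Bound
import Pool.Agent.Lib.MP_1f45fc_nt.V.SalemLev

set_option autoImplicit false

/-!
# Salem numbers from Pisot polynomials with bounded constant term

For each `m` only finitely many `β ≤ 1.324` are roots of some `X ^ n P + ε P*`, `n ≥ 1`, `ε = ±1`,
`P` a Pisot polynomial (a Pisot number times powers of `X` and other factors with roots in the
open unit disc) with `|P(0)| ≤ m`.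
-/

open Polynomial

namespace Pool.Agent.MP1f45fc.V

/-- For each `m`, Salem's construction with all Pisot polynomials `P`, `|P(0)| ≤ m`, and all
`n ≥ 1`, `ε = ±1`, gives only finitely many numbers `β ≤ 1.324`. -/
theorem salem_finite (m : ℝ) : {β : ℝ | 1 < β ∧ β ≤ 331 / 250 ∧
    ∃ (P : ℤ[X]) (θ : ℝ) (n : ℕ) (ε : ℤ), P.Monic ∧ 1 < θ ∧ aeval θ P = 0 ∧
      aeval θ (derivative P) ≠ 0 ∧ (∀ z : ℂ, aeval z P = 0 → z ≠ (θ : ℂ) → ‖z‖ < 1) ∧
      1 ≤ n ∧ (ε = 1 ∨ ε = -1) ∧ |(P.coeff 0 : ℝ)| ≤ m ∧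
      β ^ n * aeval β P + ε * aeval β P.reverse = 0}.Finite := by
  refine (lev_finite_of (max 1 m) (331 / 250) fun b hb => pisot_gt hb).subset ?_
  rintro β ⟨h1, h2, P, θ, n, ε, hP, hθ, hr, hs, hroots, hn, hε, hm, heq⟩
  refine ⟨?_, h2⟩
  rcases lev_or_quad P hP θ hθ hr hs hroots n hn ε hε β h1 heq with h | h
  · obtain ⟨h1', t, p, hp, hL, h0, h3⟩ := h
    exact ⟨h1', t, p, hp, hL, h0.trans (max_le_max le_rfl hm), h3.trans (max_le_max le_rfl hm)⟩
  · exfalso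
    have h3 : β⁻¹ < 1 := inv_lt_one_of_one_lt₀ h1
    linarith

end Pool.Agent.MP1f45fc.V
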