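import Pool.Agent.Lib.MP_1f45fc_nt.V.Defs

set_option autoImplicit false

/-!
# Theorem V, module V8b: integer sequences with small cost
-/

namespace Pool.Agent.MP1f45fc.V

namespace Walk

/-- the potential: `∑_{i=1}^{n-1} (i + 1 - i b)^2` in closed form -/
noncomputable def psi (b x : ℝ) : ℝ :=
  x * (x + 1) * (2 * x + 1) / 6 - 1 - 2 * b * ((x - 1) * x * (x + 1) / 3) +
    b ^ 2 * ((x - 1) * x * (2 * x - 1) / 6)

theorem psi_step {b : ℝ} (hb : 1 < b) (hb2 : b ≤ 1179 / 1000) (n m : ℤ) (hn1 : 1 ≤ n) (hn5 : n ≤ 5)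
    (hm1 : 1 ≤ m) (hm6 : m ≤ 6) : psi b m ≤ psi b n + ((m : ℝ) - b * n) ^ 2 := by
  unfold psi
  interval_cases n <;> interval_cases m <;> push_cast <;> nlinarith [mul_pos (sub_pos.2 hb) (sub_pos.2 hb),
    mul_nonneg (sub_nonneg.2 hb.le) (sub_nonneg.2 hb2)]

theorem psi_six {b : ℝ} (hb : 1 < b) (hb2 : b ≤ 1179 / 1000) : b ^ 2 < psi b 6 := by
  unfold psi
  nlinarith [mul_nonneg (sub_nonneg.2 hb.le) (sub_nonneg.2 hb2), mul_nonneg (sub_nonneg.2 hb2) (sub_nonneg.2 hb2)]

theorem step_lb {b : ℝ} (hb : 1 < b) (hb2 : b ≤ 1179 / 1000) (n m : ℤ) (hn1 : 1 ≤ n) (hn5 : n ≤ 5) :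
    min (b - 1) (6 - 5 * b) ^ 2 ≤ ((m : ℝ) - b * n) ^ 2 := by
  have hδ : 0 < min (b - 1) (6 - 5 * b) := lt_min (by linarith) (by linarith)
  have hn1' : (1 : ℝ) ≤ n := by exact_mod_cast hn1
  have hn5' : (n : ℝ) ≤ 5 := by exact_mod_cast hn5
  rcases le_or_gt m n with hmn | hmn
  · have hmn' : (m : ℝ) ≤ n := by exact_mod_cast hmn
    have h1 : min (b - 1) (6 - 5 * b) ≤ b * n - m := (min_le_left _ _).trans (by nlinarith)
    nlinarith
  · have hmn' : (n : ℝ) + 1 ≤ m := by exact_mod_cast hmn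
    have h1 : min (b - 1) (6 - 5 * b) ≤ m - b * n := (min_le_right _ _).trans (by nlinarith)
    nlinarith

theorem walk_pos {b : ℝ} (hb : 1 < b) (hb2 : b ≤ 1179 / 1000) (u : ℕ → ℤ) (hu : u 0 = 1)
    (h : ∀ N : ℕ, (u 0 : ℝ) ^ 2 + ∑ j ∈ Finset.range N, ((u (j + 1) : ℝ) - b * u j) ^ 2 ≤
      1 + b ^ 2) : ∀ k, u (k + 1) = 0 := by
  have h' : ∀ N : ℕ, ∑ j ∈ Finset.range N, ((u (j + 1) : ℝ) - b * u j) ^ 2 ≤ b ^ 2 := by
    intro N
    have := h N
    rw [hu] at this
    push_cast at this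
    linarith
  set S : ℕ → ℝ := fun N => ∑ j ∈ Finset.range N, ((u (j + 1) : ℝ) - b * u j) ^ 2 with hS
  have hS0 : S 0 = 0 := by simp [hS]
  have hSs : ∀ N, S (N + 1) = S N + ((u (N + 1) : ℝ) - b * u N) ^ 2 := fun N => by
    simp only [hS]; rw [Finset.sum_range_succ]
  have hSnn : ∀ N, 0 ≤ S N := fun N => Finset.sum_nonneg fun j _ => sq_nonneg _
  have hS1 : S 1 = ((u 1 : ℝ) - b) ^ 2 := by
    have := hSs 0
    rw [hS0, hu] at this
    simpa using this
  have hmono : ∀ N, S 1 ≤ S (N + 1) := by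
    intro N
    induction N with
    | zero => exact le_rfl
    | succ N ih => rw [hSs (N + 1)]; nlinarith [sq_nonneg ((u (N + 1 + 1) : ℝ) - b * u (N + 1))]
  have hS1pos : 0 < S 1 := by
    rw [hS1]
    have hne : (u 1 : ℝ) - b ≠ 0 := by
      intro h0
      have h1 : (1 : ℝ) < u 1 := by linarith
      have h2 : (u 1 : ℝ) < 2 := by linarith
      have h3 : 1 < u 1 := by exact_mod_cast h1
      have h4 : u 1 < 2 := by exact_mod_cast h2
      omega
    positivity
  rcases le_or_gt (u 1) 0 with h1 | h1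
  · have h1' : (u 1 : ℝ) ≤ 0 := by exact_mod_cast h1
    have hS1' : b ^ 2 ≤ S 1 := by rw [hS1]; nlinarith
    have hall : ∀ N, S (N + 1) = b ^ 2 := fun N => le_antisymm (h' (N + 1)) (hS1'.trans (hmono N))
    have hu1 : u 1 = 0 := by
      have h2 : ((u 1 : ℝ) - b) ^ 2 = b ^ 2 := by rw [← hS1]; exact hall 0
      have h3 : (u 1 : ℝ) * (u 1 - 2 * b) = 0 := by nlinarith
      rcases mul_eq_zero.1 h3 with h4 | h4
      · exact_mod_cast h4
      · exfalso; linarith
    intro k
    induction k with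
    | zero => exact hu1
    | succ k ih =>
      have h2 := hSs (k + 1)
      rw [hall (k + 1), hall k, ih] at h2
      have h3 : ((u (k + 1 + 1) : ℝ)) ^ 2 = 0 := by
        push_cast at h2
        nlinarith
      have h4 := pow_eq_zero_iff (two_ne_zero) |>.1 h3
      exact_mod_cast h4
  · exfalso
    have hinv : ∀ k, 1 ≤ u k ∧ u k ≤ 5 ∧ psi b (u k) ≤ S k := by
      intro k
      induction k with
      | zero =>
        rw [hu, hS0]
        refine ⟨le_rfl, by norm_num, ?_⟩
        unfold psi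
        norm_num
      | succ k ih =>
        obtain ⟨hk1, hk5, hkS⟩ := ih
        have hk1' : (1 : ℝ) ≤ u k := by exact_mod_cast hk1
        have hk5' : (u k : ℝ) ≤ 5 := by exact_mod_cast hk5
        have hpos : 1 ≤ u (k + 1) := by
          rcases Nat.eq_zero_or_pos k with hk0 | hk0
          · subst hk0; exact h1
          · by_contra hcon
            push Not at hcon
            have hcon' : (u (k + 1) : ℝ) ≤ 0 := by exact_mod_cast (by omega : u (k + 1) ≤ 0)
            obtain ⟨k', rfl⟩ : ∃ k', k = k' + 1 := ⟨k - 1, by omega⟩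
            have h2 := hSs (k' + 1)
            have h3 := h' (k' + 1 + 1)
            have h4 := hmono k'
            have h5 : b ^ 2 ≤ ((u (k' + 1 + 1) : ℝ) - b * u (k' + 1)) ^ 2 := by
              have h6 : b ≤ b * u (k' + 1) := by nlinarith
              nlinarith
            change S (k' + 1 + 1) ≤ b ^ 2 at h3
            linarith
        have hle : u (k + 1) ≤ 5 := by
          by_contra hcon
          push Not at hcon
          have hcon' : (6 : ℝ) ≤ u (k + 1) := by exact_mod_cast (by omega : 6 ≤ u (k + 1))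
          have h2 := psi_step hb hb2 (u k) 6 hk1 hk5 (by norm_num) le_rfl
          push_cast at h2
          have h3 : ((6 : ℝ) - b * u k) ^ 2 ≤ ((u (k + 1) : ℝ) - b * u k) ^ 2 := by
            have h4 : b * u k ≤ 6 := by nlinarith
            nlinarith
          have h5 := psi_six hb hb2
          have h6 := h' (k + 1)
          change S (k + 1) ≤ b ^ 2 at h6
          rw [hSs k] at h6
          linarith
        refine ⟨hpos, hle, ?_⟩
        rw [hSs k]
        have h2 := psi_step hb hb2 (u k) (u (k + 1)) hk1 hk5 hpos (by omega)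
        linarith
    -- lower bound for the total cost
    set δ := min (b - 1) (6 - 5 * b) with hδdef
    have hδ : 0 < δ := lt_min (by linarith) (by linarith)
    have hlb : ∀ N : ℕ, (N : ℝ) * δ ^ 2 ≤ S N := by
      intro N
      induction N with
      | zero => simp [hS0]
      | succ N ih =>
        rw [hSs N]
        have h2 := step_lb hb hb2 (u N) (u (N + 1)) (hinv N).1 (hinv N).2.1
        push_cast
        linarith
    obtain ⟨N, hN⟩ := exists_nat_gt (b ^ 2 / δ ^ 2)
    rw [div_lt_iff₀ (by positivity)] at hN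
    have h2 := h' N
    change S N ≤ b ^ 2 at h2
    linarith [hlb N]

end Walk

theorem walk {b : ℝ} (hb : 1 < b) (hb2 : b ≤ 1179 / 1000) (u : ℕ → ℤ) (hu : u 0 ≠ 0)
    (h : ∀ N : ℕ, (u 0 : ℝ) ^ 2 + ∑ j ∈ Finset.range N, ((u (j + 1) : ℝ) - b * u j) ^ 2 ≤
      1 + b ^ 2) : (u 0 = 1 ∨ u 0 = -1) ∧ ∀ k, u (k + 1) = 0 := by
  have h0 : u 0 = 1 ∨ u 0 = -1 := by
    have h1 := h 0
    simp only [Finset.range_zero, Finset.sum_empty, add_zero] at h1
    have h2 : (u 0 : ℝ) ^ 2 < 4 := by nlinarith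
    have h3 : (u 0) ^ 2 < 4 := by exact_mod_cast h2
    have h4 : u 0 < 2 := by nlinarith
    have h5 : -2 < u 0 := by nlinarith
    omega
  refine ⟨h0, ?_⟩
  rcases h0 with h0 | h0
  · exact Walk.walk_pos hb hb2 u h0 h
  · have h1 := Walk.walk_pos hb hb2 (fun k => - u k) (by simp [h0]) (by
      intro N
      have h2 := h N
      have h3 : ∀ j, (((- u (j + 1) : ℤ) : ℝ) - b * ((- u j : ℤ) : ℝ)) ^ 2 =
          ((u (j + 1) : ℝ) - b * u j) ^ 2 := by
        intro j; push_cast; ring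
      simp only [h3]
      push_cast
      rw [neg_sq]
      exact h2)
    intro k
    have h2 := h1 k
    simpa using h2

end Pool.Agent.MP1f45fc.V
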